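import Pool.Agent.H966R2.Kak.Smooth

/-!
Every decomposable circuit can be made smooth with a polynomial increase of the size.
-/

set_option autoImplicit false

namespace Pool.Agent.H966R2.Circ

open Finset

variable {n q : ℕ} {ι : Type}

/-- gates of the smoothed circuit -/
abbrev SIdx (n : ℕ) (ι : Type) : Type := ι ⊕ (Option ι × ι × Fin (n + 1)) ⊕ Fin n

/-- target set of variables of a chain -/
def target (C : ι → Gate n q ι) : Option ι → Fin n → Prop
  | none, _ => True
  | some h, i => Uses C i h

open Classical in
noncomputable def sm (C : ι → Gate n q ι) : SIdx n ι → Gate n q (SIdx n ι)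
  | .inl h => match C h with
    | .tt => .tt
    | .lit i D => .lit i D
    | .or c => .or {x | ∃ k ∈ c, x = .inr (.inl (some h, k, 0))}
    | .and c d => .and (.inl c) (.inl d)
  | .inr (.inl (T, k, j)) =>
    if hj : (j : ℕ) < n then
      if target C T ⟨j, hj⟩ ∧ ¬ Uses C ⟨j, hj⟩ k then
        .and (.inr (.inr ⟨j, hj⟩)) (.inr (.inl (T, k, ⟨j + 1, by omega⟩)))
      else .or {.inr (.inl (T, k, ⟨j + 1, by omega⟩))}
    else .or {.inl k}
  | .inr (.inr i) => .lit i Set.univ

/-- meaning of the variable `i` occurs below `x` -/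
def um (C : ι → Gate n q ι) (i : Fin n) : SIdx n ι → Prop
  | .inl h => Uses C i h
  | .inr (.inl (T, k, j)) => Uses C i k ∨ (target C T i ∧ ¬ Uses C i k ∧ (j : ℕ) ≤ i)
  | .inr (.inr i') => i = i'

theorem um_of_uses {C : ι → Gate n q ι} {i : Fin n} {x : SIdx n ι} (h : Uses (sm C) i x) :
    um C i x := by
  classical
  induction h with
  | @lit x D h =>
    rcases x with h0 | ⟨T, k, j⟩ | i'
    · simp only [sm] at h
      rcases hC : C h0 with _ | ⟨i', D'⟩ | c | ⟨c, d⟩ <;> rw [hC] at h <;> simp only at h
      · cases h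
      · cases h; exact Uses.lit hC
      · cases h
      · cases h
    · simp only [sm] at h
      split_ifs at h
    · simp only [sm] at h
      cases h
      rfl
  | @or x c h y hy _ ih =>
    rcases x with h0 | ⟨T, k, j⟩ | i'
    · simp only [sm] at h
      rcases hC : C h0 with _ | ⟨i', D'⟩ | c' | ⟨c', d'⟩ <;> rw [hC] at h <;> simp only at h
      · cases h
      · cases h
      · cases h
        obtain ⟨k, hk, rfl⟩ := hy
        rcases ih with ih | ih
        · exact Uses.or hC hk ih
        · exact ih.1
      · cases h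
    · simp only [sm] at h
      split_ifs at h with h1 h2
      · cases h
        rw [Set.mem_singleton_iff] at hy
        subst hy
        rcases ih with ih | ⟨h3, h4, h5⟩
        · exact Or.inl ih
        · refine Or.inr ⟨h3, h4, ?_⟩
          simp only at h5
          omega
      · cases h
        rw [Set.mem_singleton_iff] at hy
        subst hy
        exact Or.inl ih
    · simp only [sm] at h
      cases h
  | @left x c d h _ ih =>
    rcases x with h0 | ⟨T, k, j⟩ | i'
    · simp only [sm] at h
      rcases hC : C h0 with _ | ⟨i', D'⟩ | c' | ⟨c', d'⟩ <;> rw [hC] at h <;> simp only at h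
      · cases h
      · cases h
      · cases h
      · cases h; exact Uses.left hC ih
    · simp only [sm] at h
      split_ifs at h with h1 h2
      cases h
      simp only [um] at ih
      subst ih
      exact Or.inr ⟨h2.1, h2.2, le_rfl⟩
    · simp only [sm] at h
      cases h
  | @right x c d h _ ih =>
    rcases x with h0 | ⟨T, k, j⟩ | i'
    · simp only [sm] at h
      rcases hC : C h0 with _ | ⟨i', D'⟩ | c' | ⟨c', d'⟩ <;> rw [hC] at h <;> simp only at h
      · cases h
      · cases h
      · cases h
      · cases h; exact Uses.right hC ih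
    · simp only [sm] at h
      split_ifs at h with h1 h2
      cases h
      rcases ih with ih | ⟨h3, h4, h5⟩
      · exact Or.inl ih
      · refine Or.inr ⟨h3, h4, ?_⟩
        simp only at h5
        omega
    · simp only [sm] at h
      cases h

/-- going down a chain -/
theorem uses_chain {C : ι → Gate n q ι} {i : Fin n} {T : Option ι} {k : ι}
    (h : Uses (sm C) i (.inl k)) : ∀ j : Fin (n + 1), Uses (sm C) i (.inr (.inl (T, k, j))) := by
  classical
  suffices H : ∀ r : ℕ, ∀ j : Fin (n + 1), (j : ℕ) + r = n →
      Uses (sm C) i (.inr (.inl (T, k, j))) from fun j => H (n - j) j (by omega)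
  intro r
  induction r with
  | zero =>
    intro j hj
    refine Uses.or (c := {.inl k}) ?_ rfl h
    simp only [sm]
    rw [dif_neg (by omega)]
  | succ r ih =>
    intro j hj
    have hjn : (j : ℕ) < n := by omega
    have ih' := ih ⟨j + 1, by omega⟩ (by simp only; omega)
    by_cases hc : target C T ⟨j, hjn⟩ ∧ ¬ Uses C ⟨j, hjn⟩ k
    · refine Uses.right (c := .inr (.inr ⟨j, hjn⟩)) (d := .inr (.inl (T, k, ⟨j + 1, by omega⟩))) ?_ ih'
      simp only [sm]
      rw [dif_pos hjn, if_pos hc]
    · refine Uses.or (c := {.inr (.inl (T, k, ⟨j + 1, by omega⟩))}) ?_ rfl ih'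
      simp only [sm]
      rw [dif_pos hjn, if_neg hc]

theorem uses_main {C : ι → Gate n q ι} {i : Fin n} {h : ι} (hu : Uses C i h) :
    Uses (sm C) i (.inl h) := by
  classical
  induction hu with
  | @lit g D h => exact Uses.lit (D := D) (by simp only [sm]; rw [h])
  | @or g c h k hk _ ih =>
    refine Uses.or (c := {x | ∃ k ∈ c, x = .inr (.inl (some g, k, 0))}) ?_ ⟨k, hk, rfl⟩
      (uses_chain ih 0)
    simp only [sm]; rw [h]
  | @left g c d h _ ih =>
    exact Uses.left (c := .inl c) (d := .inl d) (by simp only [sm]; rw [h]) ih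
  | @right g c d h _ ih =>
    exact Uses.right (c := .inl c) (d := .inl d) (by simp only [sm]; rw [h]) ih

theorem uses_of_um {C : ι → Gate n q ι} {i : Fin n} {x : SIdx n ι} (h : um C i x) :
    Uses (sm C) i x := by
  classical
  rcases x with h0 | ⟨T, k, j⟩ | i'
  · exact uses_main h
  · rcases h with h | ⟨h1, h2, h3⟩
    · exact uses_chain (uses_main h) j
    · -- downward induction from `j` to `i`
      suffices H : ∀ r : ℕ, ∀ j : Fin (n + 1), (j : ℕ) + r = i →
          Uses (sm C) i (.inr (.inl (T, k, j))) from H (i - j) j (by omega)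
      intro r
      induction r with
      | zero =>
        intro j hj
        have hjn : (j : ℕ) < n := by have := i.2; omega
        have hij : (⟨j, hjn⟩ : Fin n) = i := Fin.ext (by simp only; omega)
        refine Uses.left (c := .inr (.inr ⟨j, hjn⟩)) (d := .inr (.inl (T, k, ⟨j + 1, by omega⟩))) ?_ ?_
        · simp only [sm]
          rw [dif_pos hjn, if_pos (by rw [hij]; exact ⟨h1, h2⟩)]
        · rw [hij]
          exact Uses.lit (D := Set.univ) rfl
      | succ r ih =>
        intro j hj
        have hjn : (j : ℕ) < n := by have := i.2; omega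
        have ih' := ih ⟨j + 1, by omega⟩ (by simp only; omega)
        by_cases hc : target C T ⟨j, hjn⟩ ∧ ¬ Uses C ⟨j, hjn⟩ k
        · refine Uses.right (c := .inr (.inr ⟨j, hjn⟩))
            (d := .inr (.inl (T, k, ⟨j + 1, by omega⟩))) ?_ ih'
          simp only [sm]
          rw [dif_pos hjn, if_pos hc]
        · refine Uses.or (c := {.inr (.inl (T, k, ⟨j + 1, by omega⟩))}) ?_ rfl ih'
          simp only [sm]
          rw [dif_pos hjn, if_neg hc]
  · simp only [um] at h
    subst h
    exact Uses.lit (D := Set.univ) rfl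

theorem sm_decomposable {C : ι → Gate n q ι} (hC : Decomposable C) : Decomposable (sm C) := by
  classical
  intro x c d h i ⟨h1, h2⟩
  have u1 := um_of_uses h1
  have u2 := um_of_uses h2
  rcases x with h0 | ⟨T, k, j⟩ | i'
  · simp only [sm] at h
    rcases hCh : C h0 with _ | ⟨i', D'⟩ | c' | ⟨c', d'⟩ <;> rw [hCh] at h <;> simp only at h
    · cases h
    · cases h
    · cases h
    · cases h; exact hC h0 c' d' hCh i ⟨u1, u2⟩
  · simp only [sm] at h
    split_ifs at h with h3 h4
    cases h
    simp only [um] at u1 u2
    subst u1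
    rcases u2 with u2 | ⟨_, _, u2⟩
    · exact h4.2 u2
    · simp only at u2
      omega
  · simp only [sm] at h
    cases h

theorem sm_smooth (C : ι → Gate n q ι) : SmoothC (sm C) := by
  classical
  intro x c h y hy i hi
  have u := um_of_uses hi
  rcases x with h0 | ⟨T, k, j⟩ | i'
  · simp only [sm] at h
    rcases hCh : C h0 with _ | ⟨i', D'⟩ | c' | ⟨c', d'⟩ <;> rw [hCh] at h <;> simp only at h
    · cases h
    · cases h
    · cases h
      obtain ⟨k, hk, rfl⟩ := hy
      apply uses_of_um
      by_cases hk' : Uses C i k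
      · exact Or.inl hk'
      · exact Or.inr ⟨u, hk', Nat.zero_le _⟩
    · cases h
  · simp only [sm] at h
    split_ifs at h with h1 h2
    · cases h
      rw [Set.mem_singleton_iff] at hy
      subst hy
      apply uses_of_um
      rcases u with u | ⟨u1, u2, u3⟩
      · exact Or.inl u
      · refine Or.inr ⟨u1, u2, ?_⟩
        simp only
        by_contra hcon
        have hij : (⟨j, h1⟩ : Fin n) = i := Fin.ext (by simp only; omega)
        apply h2
        rw [hij]
        exact ⟨u1, u2⟩
    · cases h
      rw [Set.mem_singleton_iff] at hy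
      subst hy
      apply uses_of_um
      rcases u with u | ⟨_, _, u3⟩
      · exact u
      · have := i.2
        omega
  · simp only [sm] at h
    cases h

/-- meaning of acceptance in the smoothed circuit -/
def am (C : ι → Gate n q ι) (w : Fin n → Fin q) : SIdx n ι → Prop
  | .inl h => Acc C w h
  | .inr (.inl (_, k, _)) => Acc C w k
  | .inr (.inr _) => True

theorem am_of_acc {C : ι → Gate n q ι} {w : Fin n → Fin q} {x : SIdx n ι}
    (h : Acc (sm C) w x) : am C w x := by
  classical
  induction h with
  | @tt x h =>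
    rcases x with h0 | ⟨T, k, j⟩ | i'
    · simp only [sm] at h
      rcases hC : C h0 with _ | ⟨i', D'⟩ | c' | ⟨c', d'⟩ <;> rw [hC] at h <;> simp only at h
      · exact Acc.tt hC
      · cases h
      · cases h
      · cases h
    · simp only [sm] at h
      split_ifs at h
    · trivial
  | @lit x i D h hw =>
    rcases x with h0 | ⟨T, k, j⟩ | i'
    · simp only [sm] at h
      rcases hC : C h0 with _ | ⟨i', D'⟩ | c' | ⟨c', d'⟩ <;> rw [hC] at h <;> simp only at h
      · cases h
      · cases h; exact Acc.lit hC hw
      · cases h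
      · cases h
    · simp only [sm] at h
      split_ifs at h
    · trivial
  | @or x c h y hy _ ih =>
    rcases x with h0 | ⟨T, k, j⟩ | i'
    · simp only [sm] at h
      rcases hC : C h0 with _ | ⟨i', D'⟩ | c' | ⟨c', d'⟩ <;> rw [hC] at h <;> simp only at h
      · cases h
      · cases h
      · cases h
        obtain ⟨k, hk, rfl⟩ := hy
        exact Acc.or hC hk ih
      · cases h
    · simp only [sm] at h
      split_ifs at h with h1 h2
      · cases h
        rw [Set.mem_singleton_iff] at hy
        subst hy
        exact ih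
      · cases h
        rw [Set.mem_singleton_iff] at hy
        subst hy
        exact ih
    · trivial
  | @and x c d h _ _ ih1 ih2 =>
    rcases x with h0 | ⟨T, k, j⟩ | i'
    · simp only [sm] at h
      rcases hC : C h0 with _ | ⟨i', D'⟩ | c' | ⟨c', d'⟩ <;> rw [hC] at h <;> simp only at h
      · cases h
      · cases h
      · cases h
      · cases h; exact Acc.and hC ih1 ih2
    · simp only [sm] at h
      split_ifs at h with h1 h2
      cases h
      exact ih2
    · trivial

theorem acc_chain {C : ι → Gate n q ι} {w : Fin n → Fin q} {T : Option ι} {k : ι}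
    (h : Acc (sm C) w (.inl k)) : ∀ j : Fin (n + 1), Acc (sm C) w (.inr (.inl (T, k, j))) := by
  classical
  suffices H : ∀ r : ℕ, ∀ j : Fin (n + 1), (j : ℕ) + r = n →
      Acc (sm C) w (.inr (.inl (T, k, j))) from fun j => H (n - j) j (by omega)
  intro r
  induction r with
  | zero =>
    intro j hj
    refine Acc.or (c := {.inl k}) ?_ rfl h
    simp only [sm]
    rw [dif_neg (by omega)]
  | succ r ih =>
    intro j hj
    have hjn : (j : ℕ) < n := by omega
    have ih' := ih ⟨j + 1, by omega⟩ (by simp only; omega)
    by_cases hc : target C T ⟨j, hjn⟩ ∧ ¬ Uses C ⟨j, hjn⟩ k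
    · refine Acc.and (c := .inr (.inr ⟨j, hjn⟩)) (d := .inr (.inl (T, k, ⟨j + 1, by omega⟩))) ?_
        (Acc.lit (i := ⟨j, hjn⟩) (D := Set.univ) rfl (Set.mem_univ _)) ih'
      simp only [sm]
      rw [dif_pos hjn, if_pos hc]
    · refine Acc.or (c := {.inr (.inl (T, k, ⟨j + 1, by omega⟩))}) ?_ rfl ih'
      simp only [sm]
      rw [dif_pos hjn, if_neg hc]

theorem acc_main {C : ι → Gate n q ι} {w : Fin n → Fin q} {h : ι} (hu : Acc C w h) :
    Acc (sm C) w (.inl h) := by
  classical
  induction hu with
  | @tt g h => exact Acc.tt (by simp only [sm]; rw [h])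
  | @lit g i D h hw => exact Acc.lit (i := i) (D := D) (by simp only [sm]; rw [h]) hw
  | @or g c h k hk _ ih =>
    refine Acc.or (c := {x | ∃ k ∈ c, x = .inr (.inl (some g, k, 0))}) ?_ ⟨k, hk, rfl⟩
      (acc_chain ih 0)
    simp only [sm]; rw [h]
  | @and g c d h _ _ ih1 ih2 =>
    exact Acc.and (c := .inl c) (d := .inl d) (by simp only [sm]; rw [h]) ih1 ih2

/-- **Smoothing.** -/
theorem exists_smooth [Fintype ι] {C : ι → Gate n q ι} (hC : Decomposable C) (g : ι) :
    ∃ (ι' : Type) (_ : Fintype ι') (C' : ι' → Gate n q ι') (g' : ι'),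
      Decomposable C' ∧ SmoothC C' ∧ (∀ i, Uses C' i g') ∧ (∀ w, Acc C' w g' ↔ Acc C w g) ∧
      Fintype.card ι' ≤ 2 * (Fintype.card ι + 1) ^ 2 * (n + 1) := by
  classical
  refine ⟨SIdx n ι, inferInstance, sm C, .inr (.inl (none, g, 0)), sm_decomposable hC,
    sm_smooth C, fun i => ?_, fun w => ⟨fun h => am_of_acc h, fun h => acc_chain (acc_main h) 0⟩, ?_⟩
  · apply uses_of_um
    by_cases h : Uses C i g
    · exact Or.inl h
    · exact Or.inr ⟨trivial, h, Nat.zero_le _⟩
  · simp only [SIdx, Fintype.card_sum, Fintype.card_prod, Fintype.card_option, Fintype.card_fin]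
    set s := Fintype.card ι
    nlinarith [Nat.zero_le s, Nat.zero_le n, Nat.zero_le (s * n)]

end Pool.Agent.H966R2.Circ
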