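import Pool.Agent.H966R2.Kak.BoxLow
import Pool.Agent.H966R2.Kak.Smoothing

/-!
Assembly of the finite statement.
-/

set_option autoImplicit false

namespace Pool.Agent.H966R2.Kak

open Finset Circ

variable {d n b : ℕ}

/-- number of bad directions for one block -/
theorem bad_card_le {κ : Type*} [DecidableEq κ] {i0 K : ℕ} (hb : 2 ≤ b) (hi0 : i0 ≤ n)
    {P : Fin (d * n) → κ} {γ : κ} (hP : (univ.filter fun i => P i = γ).card ≤ 2 * K)
    {C0 ρ : ℝ} (hC : 1 ≤ C0) (hρ : 1 ≤ ρ) (hCρ : ∀ m : ℕ, 3 + m * Real.log b ≤ C0 * ρ ^ m) :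
    (((cube d (b ^ n)).filter fun V => (b ^ i0 : ℕ) * (1 / (b : ℝ)) ^ (∑ c, (lev i0 P γ c).card) <
      RR b n (b ^ i0) (lev i0 P γ) V).card : ℝ) ≤
      ((b : ℝ) * C0) ^ (2 * K) * C0 ^ d * ρ ^ (n * d) * Real.sqrt (2 / 2 ^ i0) *
        ((b ^ n : ℕ) : ℝ) ^ d := by
  classical
  set T : ℝ := (b ^ i0 : ℕ) * (1 / (b : ℝ)) ^ (∑ c, (lev i0 P γ c).card) with hT
  have hbR : (0 : ℝ) < b := by positivity
  have hTpos : 0 < T := by positivity
  set F := (cube d (b ^ n)).filter fun V => T < RR b n (b ^ i0) (lev i0 P γ) V with hF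
  have h1 : (F.card : ℝ) * T ≤ ∑ V ∈ cube d (b ^ n), RR b n (b ^ i0) (lev i0 P γ) V := by
    calc (F.card : ℝ) * T = ∑ _V ∈ F, T := by rw [Finset.sum_const, nsmul_eq_mul]
      _ ≤ ∑ V ∈ F, RR b n (b ^ i0) (lev i0 P γ) V :=
        Finset.sum_le_sum fun V hV => (Finset.mem_filter.1 hV).2.le
      _ ≤ _ := Finset.sum_le_sum_of_subset_of_nonneg (Finset.filter_subset _ _)
        fun V _ _ => RR_nonneg _ _ _ _ _
  have h2 := sum_RR_le hb hi0 (B := lev i0 P γ) (fun c m hm => by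
    rw [mem_lev] at hm
    omega) hC hρ hCρ
  set β := ∑ c, (lev i0 P γ c).card with hβ
  have h3 : (∏ c : Fin d, (C0 ^ ((lev i0 P γ c).card + 1) * ρ ^ n)) = C0 ^ (β + d) * ρ ^ (n * d) := by
    rw [Finset.prod_mul_distrib, Finset.prod_pow_eq_pow_sum, Finset.sum_add_distrib]
    simp only [Finset.sum_const, Finset.card_univ, Fintype.card_fin, smul_eq_mul, mul_one,
      Finset.prod_const]
    rw [← pow_mul]
  rw [h3] at h2
  have hβK : β ≤ 2 * K := sum_card_lev_le.trans hP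
  have h4 : (F.card : ℝ) ≤ (C0 ^ (β + d) * ρ ^ (n * d) *
      (((b ^ n : ℕ) : ℝ) ^ d * (((b ^ i0 : ℕ) : ℝ) * Real.sqrt (2 / 2 ^ i0)))) / T := by
    rw [le_div_iff₀ hTpos]
    exact h1.trans h2
  refine h4.trans ?_
  have hN : (0 : ℝ) < (b ^ i0 : ℕ) := by positivity
  have h5 : (C0 ^ (β + d) * ρ ^ (n * d) *
      (((b ^ n : ℕ) : ℝ) ^ d * (((b ^ i0 : ℕ) : ℝ) * Real.sqrt (2 / 2 ^ i0)))) / T =
      ((b : ℝ) * C0) ^ β * (C0 ^ d * ρ ^ (n * d) * Real.sqrt (2 / 2 ^ i0) *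
        ((b ^ n : ℕ) : ℝ) ^ d) := by
    rw [hT, one_div, inv_pow, mul_pow, pow_add]
    have hp : (b : ℝ) ^ β ≠ 0 := by positivity
    field_simp
  rw [h5]
  have h6 : ((b : ℝ) * C0) ^ β ≤ ((b : ℝ) * C0) ^ (2 * K) := by
    apply pow_le_pow_right₀ _ hβK
    have : (1 : ℝ) ≤ b := by exact_mod_cast (by omega : 1 ≤ b)
    nlinarith
  have h7 := mul_le_mul_of_nonneg_right h6 (show 0 ≤ (C0 ^ d * ρ ^ (n * d) *
    Real.sqrt (2 / 2 ^ i0) * ((b ^ n : ℕ) : ℝ) ^ d) by positivity)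
  refine h7.trans (le_of_eq ?_)
  ring

open Classical in
/-- **The finite statement.** -/
theorem finite_kakeya {i0 K : ℕ} (hb : 2 ≤ b) (hb0 : 0 < b) (hi0 : i0 ≤ n) (hK : 1 ≤ K) {ι : Type}
    [Fintype ι] {C : ι → Gate (d * n) b ι} (hC : Decomposable C) (g : ι)
    {C0 ρ : ℝ} (hC0 : 1 ≤ C0) (hρ : 1 ≤ ρ) (hCρ : ∀ m : ℕ, 3 + m * Real.log b ≤ C0 * ρ ^ m)
    {r S : ℕ} (hr : r = d * n / (K + 1))
    (hS : S = (2 * (Fintype.card ι + 1) ^ 2 * (d * n + 1) + 1) ^ (2 * r))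
    {Θ : Finset (Fin d → ℕ)} (hΘ : Θ ⊆ cube d (b ^ n)) {lam : ℝ} (hl0 : 0 < lam) (hl1 : lam ≤ 1)
    (hΘc : S * ((r + 1 : ℕ) * (((b : ℝ) * C0) ^ (2 * K) * C0 ^ d * ρ ^ (n * d) *
      Real.sqrt (2 / 2 ^ i0) * ((b ^ n : ℕ) : ℝ) ^ d)) < Θ.card)
    (hline : ∀ V ∈ Θ, ∃ A Z : Fin d → ℤ, (∀ c, Z c ≡ (V c : ℤ) [ZMOD (b : ℤ) ^ n]) ∧
      lam * (b ^ i0 : ℕ) ≤ (((range (b ^ i0)).filter fun j : ℕ =>
      Acc C (wrd b hb0 n (fun c => (A c + (j : ℤ) * Z c) / (b : ℤ) ^ i0)) g).card : ℝ)) :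
    (lam / (2 * S)) ^ (r + 1) * (b : ℝ) ^ (d * (n - i0)) ≤
      ({w | Acc C w g} : Set (Fin (d * n) → Fin b)).ncard := by
  obtain ⟨ι', hι', C', g', hC', hS', hU', hAcc, hcard⟩ := exists_smooth hC g
  obtain ⟨𝓕, h𝓕, hcov, hbox⟩ := smooth_cover hC' hS' (g := g') hK
  rw [← hr] at h𝓕 hbox
  have hVu : V C' g' = univ := by
    ext i
    simp only [Finset.mem_univ, iff_true]
    exact mem_V.2 (hU' i)
  have h𝓕S : 𝓕.card ≤ S := by
    rw [hS]
    exact h𝓕.trans (Nat.pow_le_pow_left (Nat.add_le_add_right hcard 1) _)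
  set η : ℝ := ((b : ℝ) * C0) ^ (2 * K) * C0 ^ d * ρ ^ (n * d) *
      Real.sqrt (2 / 2 ^ i0) * ((b ^ n : ℕ) : ℝ) ^ d with hη
  have hη0 : 0 ≤ η := by positivity
  -- the bad directions
  set bad : Forest ι' → List Bool → Finset (Fin d → ℕ) := fun σ γ =>
    (cube d (b ^ n)).filter fun V => (b ^ i0 : ℕ) *
      (1 / (b : ℝ)) ^ (∑ c, (lev i0 (Forest.lab C' σ) γ c).card) < RR b n (b ^ i0) (lev i0 (Forest.lab C' σ) γ) V
    with hbad
  set Bad : Finset (Fin d → ℕ) := 𝓕.biUnion fun σ => (univ.image (Forest.lab C' σ)).biUnion (bad σ)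
    with hBad
  have hBadc : (Bad.card : ℝ) ≤ S * ((r + 1 : ℕ) * η) := by
    have h1 : (Bad.card : ℝ) ≤ ∑ σ ∈ 𝓕, (((univ.image (Forest.lab C' σ)).biUnion (bad σ)).card : ℝ) := by
      exact_mod_cast Finset.card_biUnion_le
    have h2 : ∀ σ ∈ 𝓕, (((univ.image (Forest.lab C' σ)).biUnion (bad σ)).card : ℝ) ≤
        (r + 1 : ℕ) * η := by
      intro σ hσ
      have h3 : (((univ.image (Forest.lab C' σ)).biUnion (bad σ)).card : ℝ) ≤
          ∑ γ ∈ univ.image (Forest.lab C' σ), ((bad σ γ).card : ℝ) := by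
        exact_mod_cast Finset.card_biUnion_le
      have h4 : ∀ γ ∈ univ.image (Forest.lab C' σ), ((bad σ γ).card : ℝ) ≤ η := by
        intro γ _
        have h5 := (hbox σ hσ).2.1 γ
        rw [hVu] at h5
        exact bad_card_le hb hi0 h5 hC0 hρ hCρ
      refine h3.trans ((Finset.sum_le_sum h4).trans ?_)
      rw [Finset.sum_const, nsmul_eq_mul]
      apply mul_le_mul_of_nonneg_right _ hη0
      exact_mod_cast (hbox σ hσ).2.2
    refine h1.trans ((Finset.sum_le_sum h2).trans ?_)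
    rw [Finset.sum_const, nsmul_eq_mul]
    apply mul_le_mul_of_nonneg_right _ (by positivity)
    exact_mod_cast h𝓕S
  -- a good direction
  obtain ⟨Vv, hV, hVbad⟩ : ∃ Vv ∈ Θ, Vv ∉ Bad := by
    by_contra hcon
    push Not at hcon
    have h1 : Θ ⊆ Bad := fun v hv => hcon v hv
    have h2 : (Θ.card : ℝ) ≤ Bad.card := by exact_mod_cast Finset.card_le_card h1
    linarith
  obtain ⟨A, Z, hZ, hA⟩ := hline Vv hV
  set JJ := (range (b ^ i0)).filter fun j : ℕ =>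
      Acc C (wrd b hb0 n (fun c => (A c + (j : ℤ) * Z c) / (b : ℤ) ^ i0)) g with hJJ
  have hN0 : (0 : ℝ) < (b ^ i0 : ℕ) := by positivity
  -- pigeonhole
  set Jσ : Forest ι' → Finset ℕ := fun σ => JJ.filter fun j : ℕ =>
    wrd b hb0 n (fun c => (A c + (j : ℤ) * Z c) / (b : ℤ) ^ i0) ∈ cutSet C' g' σ with hJσ
  have hSpos : (0 : ℝ) < S := by
    rw [hS]
    positivity
  obtain ⟨σ, hσ, hσc⟩ : ∃ σ ∈ 𝓕, lam * (b ^ i0 : ℕ) / S ≤ (Jσ σ).card := by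
    by_contra hcon
    push Not at hcon
    have h1 : JJ ⊆ 𝓕.biUnion Jσ := by
      intro j hj
      have h2 := (Finset.mem_filter.1 hj).2
      rw [← hAcc, hcov] at h2
      obtain ⟨σ, hσ, h3⟩ := h2
      exact Finset.mem_biUnion.2 ⟨σ, hσ, Finset.mem_filter.2 ⟨hj, h3⟩⟩
    have h2 : (JJ.card : ℝ) ≤ ∑ σ ∈ 𝓕, ((Jσ σ).card : ℝ) := by
      exact_mod_cast (Finset.card_le_card h1).trans Finset.card_biUnion_le
    have hne : 𝓕.Nonempty := by
      by_contra hne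
      rw [Finset.not_nonempty_iff_eq_empty] at hne
      rw [hne, Finset.sum_empty] at h2
      have : 0 < lam * (b ^ i0 : ℕ) := by positivity
      linarith
    have h3 : ∑ σ ∈ 𝓕, ((Jσ σ).card : ℝ) < ∑ _σ ∈ 𝓕, lam * (b ^ i0 : ℕ) / S :=
      Finset.sum_lt_sum_of_nonempty hne hcon
    rw [Finset.sum_const, nsmul_eq_mul] at h3
    have h4 : (𝓕.card : ℝ) * (lam * (b ^ i0 : ℕ) / S) ≤ S * (lam * (b ^ i0 : ℕ) / S) := by
      apply mul_le_mul_of_nonneg_right _ (by positivity)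
      exact_mod_cast h𝓕S
    rw [mul_div_cancel₀ _ hSpos.ne'] at h4
    linarith
  have hJne : (Jσ σ).Nonempty := by
    rw [← Finset.card_pos]
    have : (0 : ℝ) < lam * (b ^ i0 : ℕ) / S := by positivity
    exact_mod_cast this.trans_le hσc
  have hgood : ∀ γ ∈ univ.image (Forest.lab C' σ), RR b n (b ^ i0) (lev i0 (Forest.lab C' σ) γ) Vv ≤
      (b ^ i0 : ℕ) * (1 / (b : ℝ)) ^ (∑ c, (lev i0 (Forest.lab C' σ) γ c).card) := by
    intro γ hγ
    by_contra hcon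
    push Not at hcon
    apply hVbad
    refine Finset.mem_biUnion.2 ⟨σ, hσ, Finset.mem_biUnion.2 ⟨γ, hγ, ?_⟩⟩
    exact Finset.mem_filter.2 ⟨hΘ hV, hcon⟩
  have hlarge := box_large (hb := hb0) hi0 (hbox σ hσ).1 (A := A) (V := Vv) hZ (Jσ σ)
    ((Finset.filter_subset _ _).trans (Finset.filter_subset _ _))
    (fun j hj => (Finset.mem_filter.1 hj).2) hgood hJne
  have hsub : (cutSet C' g' σ).ncard ≤ ({w | Acc C w g} : Set (Fin (d * n) → Fin b)).ncard := by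
    refine Set.ncard_le_ncard (fun w hw => ?_) (Set.toFinite _)
    show Acc C w g
    rw [← hAcc, hcov]
    exact ⟨σ, hσ, hw⟩
  refine le_trans ?_ (hlarge.trans (by exact_mod_cast hsub))
  apply mul_le_mul_of_nonneg_right _ (by positivity)
  have hS1 : (1 : ℝ) ≤ S := by
    rw [hS]
    push_cast
    apply one_le_pow₀
    have : (0 : ℝ) ≤ 2 * ((Fintype.card ι : ℝ) + 1) ^ 2 * ((d : ℝ) * n + 1) := by positivity
    linarith
  have hx0 : 0 < lam / (2 * S) := by positivity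
  have hx1 : lam / (2 * S) ≤ 1 := by
    rw [div_le_one (by positivity)]
    linarith
  have hx2 : lam / (2 * S) ≤ ((Jσ σ).card : ℝ) / (2 * (b ^ i0 : ℕ)) := by
    rw [div_le_div_iff₀ (by positivity) (by positivity)]
    have h1 : lam * (b ^ i0 : ℕ) ≤ (Jσ σ).card * S := by
      rwa [div_le_iff₀ hSpos] at hσc
    nlinarith
  calc (lam / (2 * S)) ^ (r + 1) ≤ (lam / (2 * S)) ^ (univ.image (Forest.lab C' σ)).card :=
        pow_le_pow_of_le_one hx0.le hx1 (hbox σ hσ).2.2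
    _ ≤ _ := pow_le_pow_left₀ hx0.le hx2 _

end Pool.Agent.H966R2.Kak
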