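import Pool.Agent.H966R2.Kak.Assem

/-!
Choice of the parameters.
-/

set_option autoImplicit false

namespace Pool.Agent.H966R2.Kak

open Finset Circ Filter Topology

theorem eventually_lin_le_exp {a : ℝ} (ha : 0 < a) (u v : ℝ) :
    ∀ᶠ n : ℕ in atTop, u * n + v ≤ Real.exp (a * n) := by
  have h1 : Tendsto (fun x : ℝ => x / Real.exp (a * x)) atTop (𝓝 0) := by
    have := Real.tendsto_pow_mul_exp_neg_atTop_nhds_zero 1
    have h2 : Tendsto (fun x : ℝ => a * x) atTop atTop := tendsto_id.const_mul_atTop ha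
    have h3 := (this.comp h2).const_mul (1 / a)
    rw [mul_zero] at h3
    refine h3.congr fun x => ?_
    simp only [Function.comp, pow_one]
    rw [Real.exp_neg]
    field_simp
  have h2 : Tendsto (fun x : ℝ => 1 / Real.exp (a * x)) atTop (𝓝 0) := by
    have h2 : Tendsto (fun x : ℝ => a * x) atTop atTop := tendsto_id.const_mul_atTop ha
    have h3 := (Real.tendsto_exp_atTop.comp h2).inv_tendsto_atTop
    refine h3.congr fun x => ?_
    simp [Function.comp]
  have h3 : Tendsto (fun x : ℝ => u * (x / Real.exp (a * x)) + v * (1 / Real.exp (a * x))) atTop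
      (𝓝 0) := by
    have := (h1.const_mul u).add (h2.const_mul v)
    simpa using this
  have h4 := (h3.comp tendsto_natCast_atTop_atTop).eventually (ge_mem_nhds (zero_lt_one))
  filter_upwards [h4] with n hn
  simp only [Function.comp] at hn
  have h5 := Real.exp_pos (a * n)
  have h6 : u * ((n : ℝ) / Real.exp (a * n)) + v * (1 / Real.exp (a * n)) =
      (u * n + v) / Real.exp (a * n) := by ring
  rw [h6, div_le_one h5] at hn
  exact hn

theorem X_le {s dn y : ℝ} (hs0 : 0 ≤ s) (hdn : 0 ≤ dn) (hs : s ≤ y) (hy : 2 ≤ y)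
    (h12 : 12 * (dn + 1) ≤ y) : 2 * (s + 1) ^ 2 * (dn + 1) + 1 ≤ y ^ 3 := by
  have hs1 : s + 1 ≤ 2 * y := by linarith
  have hsq : (s + 1) ^ 2 ≤ 4 * y ^ 2 := by
    calc (s + 1) ^ 2 ≤ (2 * y) ^ 2 := pow_le_pow_left₀ (by positivity) hs1 2
      _ = _ := by ring
  have hy1 : 1 ≤ y ^ 2 := one_le_pow₀ (by linarith)
  have h1 := mul_le_mul_of_nonneg_right hsq (show 0 ≤ dn + 1 by linarith)
  have h2 : 1 ≤ y ^ 2 * (dn + 1) := by
    have : y ^ 2 * 1 ≤ y ^ 2 * (dn + 1) := mul_le_mul_of_nonneg_left (by linarith) (by positivity)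
    linarith
  have h3 : y ^ 2 * (12 * (dn + 1)) ≤ y ^ 2 * y := mul_le_mul_of_nonneg_left h12 (by positivity)
  have h4 : y ^ 2 * y = y ^ 3 := by ring
  linarith

theorem sqrt_le' {i0 : ℕ} {u : ℝ} (h : 2 * u ≤ Real.log 2 * (i0 + 1)) :
    Real.sqrt (2 / 2 ^ i0) ≤ 2 * Real.exp (-u) := by
  apply Real.sqrt_le_iff.2
  refine ⟨by positivity, ?_⟩
  have h5 : (2 : ℝ) / 2 ^ i0 = Real.exp (Real.log 2 * (1 - i0)) := by
    rw [mul_sub, Real.exp_sub, mul_one, Real.exp_log (by norm_num), mul_comm (Real.log 2),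
      Real.exp_nat_mul, Real.exp_log (by norm_num)]
  have h6 : (2 * Real.exp (-u)) ^ 2 = Real.exp (Real.log 2 * 2 + -(2 * u)) := by
    rw [mul_pow, Real.exp_add, ← Real.exp_nat_mul]
    congr 1
    · rw [mul_comm (Real.log 2), show (2 : ℝ) * Real.log 2 = ((2 : ℕ) : ℝ) * Real.log 2 by norm_num,
        Real.exp_nat_mul, Real.exp_log (by norm_num)]
    · congr 1
      push_cast
      ring
  rw [h5, h6]
  apply Real.exp_le_exp.2
  linarith

theorem kakeya_asym_aux (d b : ℕ) (hd : 1 ≤ d) (hb : 2 ≤ b) (hb0 : 0 < b) {ε : ℝ} (hε : 0 < ε)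
    (hε1 : ε ≤ 1) : ∃ c : ℝ, 0 < c ∧ ∃ n0 : ℕ, ∀ n ≥ n0, ∀ (ι : Type) [Fintype ι]
      (C : ι → Gate (d * n) b ι) (g : ι), Decomposable C →
      (Fintype.card ι : ℝ) ≤ Real.exp (c * Real.log b * n) →
      ∀ Θ : Finset (Fin d → ℕ), Θ ⊆ cube d (b ^ n) →
      Real.exp (-(c * Real.log b * n)) * ((b ^ n : ℕ) : ℝ) ^ d ≤ Θ.card →
      (∀ V ∈ Θ, ∀ i0 : ℕ, ∃ A Z : Fin d → ℤ, (∀ c, Z c ≡ (V c : ℤ) [ZMOD (b : ℤ) ^ n]) ∧
        ∃ J : Finset ℕ, J ⊆ range (b ^ i0) ∧
          Real.exp (-(c * Real.log b * n)) * (b ^ i0 : ℕ) ≤ (J.card : ℝ) ∧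
          ∀ j ∈ J, Acc C (wrd b hb0 n (fun c => (A c + (j : ℤ) * Z c) / (b : ℤ) ^ i0)) g) →
      Real.exp (Real.log b * ((d - ε) * n)) ≤
        (({w | Acc C w g} : Set (Fin (d * n) → Fin b)).ncard : ℝ) := by
  classical
  have hdR : (1 : ℝ) ≤ d := by exact_mod_cast hd
  have hbR : (2 : ℝ) ≤ b := by exact_mod_cast hb
  set Lb := Real.log b with hLb
  have hLbpos : 0 < Lb := Real.log_pos (by linarith)
  have hL2 : 0 < Real.log 2 := Real.log_pos (by norm_num)
  set τ := ε * Real.log 2 / (4 * d) with hτ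
  have hτpos : 0 < τ := by positivity
  set κ := τ / (4 * d) with hκ
  have hκpos : 0 < κ := by positivity
  set C0 := 3 + Lb / κ with hC0d
  have hC0 : 1 ≤ C0 := by
    have : 0 < Lb / κ := by positivity
    linarith
  have hC0pos : 0 < C0 := by linarith
  set ρ := Real.exp κ with hρd
  have hρ : 1 ≤ ρ := Real.one_le_exp hκpos.le
  have hCρ : ∀ m : ℕ, 3 + m * Real.log b ≤ C0 * ρ ^ m := by
    intro m
    have h1 : ρ ^ m = Real.exp (m * κ) := by rw [hρd, Real.exp_nat_mul]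
    have h2 := Real.add_one_le_exp (m * κ)
    rw [h1]
    have hm : (0 : ℝ) ≤ m := Nat.cast_nonneg m
    calc 3 + m * Real.log b ≤ C0 * (m * κ + 1) := by
          have : Lb / κ * (m * κ) = m * Lb := by field_simp
          have h3 : 0 ≤ 3 * (m * κ) := by positivity
          have h4 : 0 ≤ Lb / κ := by positivity
          rw [hC0d]
          linarith
      _ ≤ _ := mul_le_mul_of_nonneg_left h2 hC0pos.le
  set ℓ := Real.log (b * C0) with hℓ
  have hℓ0 : 0 ≤ ℓ := Real.log_nonneg (one_le_mul_of_one_le_of_one_le (by linarith) hC0)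
  set η := τ / (16 * (1 + ℓ)) with hη
  have hηpos : 0 < η := by positivity
  set R := d / η with hR
  have hRpos : 0 < R := by positivity
  set c := min (τ / (2 * Lb * (6 * R + 2))) (ε / (2 * (6 * R + 2) * (R + 1))) with hc
  have hcpos : 0 < c := by
    rw [hc]
    exact lt_min (by positivity) (by positivity)
  have hc1 : (6 * R + 2) * (c * Lb) ≤ τ / 2 := by
    have : c ≤ τ / (2 * Lb * (6 * R + 2)) := min_le_left _ _
    rw [le_div_iff₀ (by positivity)] at this
    linarith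
  have hc2 : (6 * R + 2) * (R + 1) * c ≤ ε / 2 := by
    have : c ≤ ε / (2 * (6 * R + 2) * (R + 1)) := min_le_right _ _
    rw [le_div_iff₀ (by positivity)] at this
    linarith
  have hcL : 0 < c * Lb := by positivity
  refine ⟨c, hcpos, ?_⟩
  have hev1 := eventually_lin_le_exp hcL (12 * d) 12
  have hev2 := eventually_lin_le_exp hcL 0 (2 * (R + 1) * C0 ^ d)
  have hev3 : ∀ᶠ n : ℕ in atTop, 1 / η ≤ (n : ℝ) :=
    tendsto_natCast_atTop_atTop.eventually (eventually_ge_atTop _)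
  have hev4 := eventually_lin_le_exp hcL 0 2
  obtain ⟨n0, hn0⟩ := eventually_atTop.1 (((hev1.and hev2).and hev3).and (hev4.and
    (eventually_ge_atTop 1)))
  refine ⟨n0, fun n hn ι _ C g hC hs Θ hΘ hΘc hline => ?_⟩
  obtain ⟨⟨⟨h1, h2⟩, h3⟩, h4, hn1⟩ := hn0 n hn
  have hnR : (1 : ℝ) ≤ n := by exact_mod_cast hn1
  set y := Real.exp (c * Lb * n) with hy
  have hypos : 0 < y := Real.exp_pos _
  have hy2 : 2 ≤ y := by linarith
  -- the parameters
  set K := ⌊η * n⌋₊ with hK
  have hηn : 1 ≤ η * n := by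
    rw [div_le_iff₀ hηpos] at h3
    linarith
  have hK1 : 1 ≤ K := Nat.le_floor (by simpa using hηn)
  have hKle : (K : ℝ) ≤ η * n := Nat.floor_le (by positivity)
  have hKlt : η * n < K + 1 := Nat.lt_floor_add_one _
  set i0 := ⌊ε * n / (2 * d)⌋₊ with hi0
  have hi0le : (i0 : ℝ) ≤ ε * n / (2 * d) := Nat.floor_le (by positivity)
  have hi0lt : ε * n / (2 * d) < i0 + 1 := Nat.lt_floor_add_one _
  have hi0n : i0 ≤ n := by
    have h5 : ε * n / (2 * d) ≤ n := by
      rw [div_le_iff₀ (by positivity)]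
      have h6 : ε * n ≤ 1 * n := mul_le_mul_of_nonneg_right hε1 (by linarith)
      have h7 : (n : ℝ) * 1 ≤ n * d := mul_le_mul_of_nonneg_left hdR (by linarith)
      linarith
    exact_mod_cast hi0le.trans h5
  set r := d * n / (K + 1) with hr
  have hrR : (r : ℝ) ≤ R := by
    have h5 : (r : ℝ) ≤ ((d * n : ℕ) : ℝ) / ((K + 1 : ℕ) : ℝ) := Nat.cast_div_le
    refine h5.trans ?_
    rw [hR]
    push_cast
    rw [div_le_div_iff₀ (by positivity) hηpos]
    have hd0 : (0 : ℝ) ≤ d := by positivity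
    linarith [mul_le_mul_of_nonneg_left hKlt.le hd0]
  set S : ℕ := (2 * (Fintype.card ι + 1) ^ 2 * (d * n + 1) + 1) ^ (2 * r) with hS
  have hX : ((2 * (Fintype.card ι + 1) ^ 2 * (d * n + 1) + 1 : ℕ) : ℝ) ≤ y ^ 3 := by
    push_cast
    refine X_le (Nat.cast_nonneg _) (by positivity) hs hy2 ?_
    linarith
  have hSy : (S : ℝ) ≤ Real.exp (6 * R * (c * Lb * n)) := by
    rw [hS]
    have h5 : (((2 * (Fintype.card ι + 1) ^ 2 * (d * n + 1) + 1) ^ (2 * r) : ℕ) : ℝ) =
        ((2 * (Fintype.card ι + 1) ^ 2 * (d * n + 1) + 1 : ℕ) : ℝ) ^ (2 * r) := by push_cast; ring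
    rw [h5]
    calc ((2 * (Fintype.card ι + 1) ^ 2 * (d * n + 1) + 1 : ℕ) : ℝ) ^ (2 * r) ≤
        (y ^ 3) ^ (2 * r) := pow_le_pow_left₀ (by positivity) hX _
      _ = Real.exp ((6 * r : ℕ) * (c * Lb * n)) := by
          rw [hy, ← pow_mul, ← Real.exp_nat_mul]
          congr 2
          push_cast
          ring
      _ ≤ _ := by
          apply Real.exp_le_exp.2
          apply mul_le_mul_of_nonneg_right _ (by positivity)
          push_cast
          linarith
  have hS1 : (1 : ℝ) ≤ S := by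
    rw [hS]
    exact_mod_cast Nat.one_le_pow _ _ (Nat.succ_pos _)
  -- the number of bad directions is small
  have hsqrt : Real.sqrt (2 / 2 ^ i0) ≤ 2 * Real.exp (-(τ * n)) := by
    apply sqrt_le'
    have h7 : 2 * (τ * n) = Real.log 2 * (ε * n / (2 * d)) := by
      rw [hτ]
      field_simp
      ring
    rw [h7]
    exact mul_le_mul_of_nonneg_left hi0lt.le hL2.le
  have hbC : ((b : ℝ) * C0) ^ (2 * K) ≤ Real.exp (τ * n / 8) := by
    have h5 : ((b : ℝ) * C0) ^ (2 * K) = Real.exp ((2 * K : ℕ) * ℓ) := by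
      rw [Real.exp_nat_mul, hℓ, Real.exp_log (by positivity)]
    rw [h5]
    apply Real.exp_le_exp.2
    push_cast
    have h6 : 2 * (K : ℝ) * ℓ ≤ 2 * (η * n) * ℓ := by
      apply mul_le_mul_of_nonneg_right _ hℓ0
      linarith
    refine h6.trans ?_
    have h7 : 2 * (η * n) * (1 + ℓ) = τ * n / 8 := by
      rw [hη]
      field_simp
      ring
    have h8 : 0 ≤ 2 * (η * n) := by positivity
    linarith
  have hρn : ρ ^ (n * d) = Real.exp (τ * n / 4) := by
    rw [hρd, ← Real.exp_nat_mul]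
    congr 1
    rw [hκ]
    push_cast
    field_simp
  have hbadlt : S * ((r + 1 : ℕ) * (((b : ℝ) * C0) ^ (2 * K) * C0 ^ d * ρ ^ (n * d) *
      Real.sqrt (2 / 2 ^ i0) * ((b ^ n : ℕ) : ℝ) ^ d)) < Θ.card := by
    refine lt_of_lt_of_le ?_ hΘc
    have hM : 0 < ((b ^ n : ℕ) : ℝ) ^ d := by positivity
    have h5 : S * ((r + 1 : ℕ) * (((b : ℝ) * C0) ^ (2 * K) * C0 ^ d * ρ ^ (n * d) *
      Real.sqrt (2 / 2 ^ i0) * ((b ^ n : ℕ) : ℝ) ^ d)) =
      (S * ((r + 1 : ℕ) * (((b : ℝ) * C0) ^ (2 * K) * C0 ^ d * ρ ^ (n * d) *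
      Real.sqrt (2 / 2 ^ i0)))) * ((b ^ n : ℕ) : ℝ) ^ d := by ring
    rw [h5]
    apply mul_lt_mul_of_pos_right _ hM
    have h6 : (r + 1 : ℕ) * (((b : ℝ) * C0) ^ (2 * K) * C0 ^ d * ρ ^ (n * d) *
      Real.sqrt (2 / 2 ^ i0)) ≤ y * Real.exp (-(5 / 8 * (τ * n))) := by
      rw [hρn]
      calc (r + 1 : ℕ) * (((b : ℝ) * C0) ^ (2 * K) * C0 ^ d * Real.exp (τ * n / 4) *
            Real.sqrt (2 / 2 ^ i0)) ≤ (R + 1) * (Real.exp (τ * n / 8) * C0 ^ d *
            Real.exp (τ * n / 4) * (2 * Real.exp (-(τ * n)))) := by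
            apply mul_le_mul _ _ (by positivity) (by positivity)
            · push_cast
              linarith
            · apply mul_le_mul _ hsqrt (by positivity) (by positivity)
              apply mul_le_mul_of_nonneg_right _ (by positivity)
              exact mul_le_mul_of_nonneg_right hbC (by positivity)
        _ = (2 * (R + 1) * C0 ^ d) * (Real.exp (τ * n / 8) * Real.exp (τ * n / 4) *
            Real.exp (-(τ * n))) := by ring
        _ = (2 * (R + 1) * C0 ^ d) * Real.exp (-(5 / 8 * (τ * n))) := by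
            rw [← Real.exp_add, ← Real.exp_add]
            congr 2
            ring
        _ ≤ _ := by
            apply mul_le_mul_of_nonneg_right _ (Real.exp_pos _).le
            linarith
    calc (S : ℝ) * ((r + 1 : ℕ) * (((b : ℝ) * C0) ^ (2 * K) * C0 ^ d * ρ ^ (n * d) *
        Real.sqrt (2 / 2 ^ i0))) ≤ Real.exp (6 * R * (c * Lb * n)) *
          (y * Real.exp (-(5 / 8 * (τ * n)))) :=
          mul_le_mul hSy h6 (by positivity) (Real.exp_pos _).le
      _ = Real.exp (6 * R * (c * Lb * n) + (c * Lb * n) - 5 / 8 * (τ * n)) := by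
          rw [hy, ← Real.exp_add, ← Real.exp_add]
          congr 1
          ring
      _ < Real.exp (-(c * Lb * n)) := by
          apply Real.exp_lt_exp.2
          have h7 : (6 * R + 2) * (c * Lb) * n ≤ τ / 2 * n :=
            mul_le_mul_of_nonneg_right hc1 (by positivity)
          have h8 : 0 < τ * n := by positivity
          linarith
  have hlam0 : 0 < Real.exp (-(c * Lb * n)) := Real.exp_pos _
  have hlam1 : Real.exp (-(c * Lb * n)) ≤ 1 := by
    apply Real.exp_le_one_iff.2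
    have : 0 < c * Lb * n := by positivity
    linarith
  have hfin := finite_kakeya hb hb0 hi0n hK1 hC g hC0 hρ hCρ hr hS hΘ hlam0 hlam1 hbadlt (by
    intro V hV
    obtain ⟨A, Z, hZ, J, hJ1, hJ2, hJ3⟩ := hline V hV i0
    refine ⟨A, Z, hZ, hJ2.trans ?_⟩
    exact_mod_cast Finset.card_le_card fun j hj => Finset.mem_filter.2 ⟨hJ1 hj, hJ3 j hj⟩)
  refine le_trans ?_ hfin
  have h5 : Real.exp (-((6 * R + 2) * (c * Lb * n))) ≤ Real.exp (-(c * Lb * n)) / (2 * S) := by
    rw [le_div_iff₀ (by positivity)]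
    calc Real.exp (-((6 * R + 2) * (c * Lb * n))) * (2 * S) ≤
        Real.exp (-((6 * R + 2) * (c * Lb * n))) * (y * Real.exp (6 * R * (c * Lb * n))) := by
          apply mul_le_mul_of_nonneg_left _ (Real.exp_pos _).le
          exact mul_le_mul hy2 hSy (by positivity) hypos.le
      _ = Real.exp (-(c * Lb * n)) := by
          rw [hy, ← Real.exp_add, ← Real.exp_add]
          congr 1
          ring
  have h6 : Real.exp (-(Lb * (ε / 2 * n))) ≤ (Real.exp (-(c * Lb * n)) / (2 * S)) ^ (r + 1) := by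
    refine le_trans ?_ (pow_le_pow_left₀ (Real.exp_pos _).le h5 _)
    rw [← Real.exp_nat_mul]
    apply Real.exp_le_exp.2
    push_cast
    have h7 : (r + 1) * ((6 * R + 2) * (c * Lb * n)) ≤ (R + 1) * ((6 * R + 2) * (c * Lb * n)) := by
      apply mul_le_mul_of_nonneg_right _ (by positivity)
      linarith
    have h8 : (6 * R + 2) * (R + 1) * c * (Lb * n) ≤ ε / 2 * (Lb * n) :=
      mul_le_mul_of_nonneg_right hc2 (by positivity)
    linarith
  have h7 : Real.exp (Lb * (d * n - ε / 2 * n)) ≤ (b : ℝ) ^ (d * (n - i0)) := by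
    have h8 : (b : ℝ) ^ (d * (n - i0)) = Real.exp ((d * (n - i0) : ℕ) * Lb) := by
      rw [Real.exp_nat_mul, hLb, Real.exp_log (by positivity)]
    rw [h8]
    apply Real.exp_le_exp.2
    rw [mul_comm]
    apply mul_le_mul_of_nonneg_right _ hLbpos.le
    rw [Nat.cast_mul, Nat.cast_sub hi0n]
    have h9 : (d : ℝ) * i0 ≤ ε / 2 * n := by
      calc (d : ℝ) * i0 ≤ d * (ε * n / (2 * d)) := mul_le_mul_of_nonneg_left hi0le (by positivity)
        _ = ε / 2 * n := by field_simp
    linarith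
  calc Real.exp (Lb * ((d - ε) * n)) = Real.exp (-(Lb * (ε / 2 * n))) *
      Real.exp (Lb * (d * n - ε / 2 * n)) := by
        rw [← Real.exp_add]
        congr 1
        ring
    _ ≤ _ := mul_le_mul h6 h7 (Real.exp_pos _).le (by positivity)

end Pool.Agent.H966R2.Kak
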