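import Pool.Agent.H966R2.Kak.Cyl

/-!
Averages over the direction.
-/

set_option autoImplicit false

namespace Pool.Agent.H966R2.Kak

open Finset Complex

variable {d : ℕ}

/-- all integer vectors with coordinates in `[0, M)` -/
def cube (d M : ℕ) : Finset (Fin d → ℕ) := Fintype.piFinset fun _ => range M

theorem card_cube (d M : ℕ) : (cube d M).card = M ^ d := by
  simp [cube]

/-- exponential sum along a progression -/
noncomputable def SS (b n N : ℕ) (k V : Fin d → ℕ) : ℂ :=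
  ∑ j ∈ range N, ∏ c, e (j * (V c * ((k c : ℝ) / b ^ n)))

open Classical in
/-- number of points of the progression in the cylinder -/
noncomputable def cnt (b N : ℕ) (B : Fin d → Finset ℕ) (z : Fin d → ℕ → ℕ) (A : Fin d → ℤ)
    (V : Fin d → ℕ) : ℕ :=
  ((range N).filter fun j : ℕ => ∀ c, Dig b (B c) (z c) (A c + (j : ℤ) * (V c : ℤ))).card

/-- the error term -/
noncomputable def RR (b n N : ℕ) (B : Fin d → Finset ℕ) (V : Fin d → ℕ) : ℝ :=
  ∑ k ∈ (cube d (b ^ n)).erase 0, (∏ c, TT b ((B c).image fun m => n - m) n (k c)) *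
    ‖SS b n N k V‖

theorem RR_nonneg (b n N : ℕ) (B : Fin d → Finset ℕ) (V : Fin d → ℕ) : 0 ≤ RR b n N B V :=
  Finset.sum_nonneg fun _ _ => mul_nonneg (Finset.prod_nonneg fun _ _ => TT_nonneg _ _ _ _)
    (norm_nonneg _)

theorem cnt_le {b n N : ℕ} (hb : 1 ≤ b) {B : Fin d → Finset ℕ} (hB : ∀ c, ∀ m ∈ B c, m < n)
    {z : Fin d → ℕ → ℕ} (hz : ∀ c, ∀ m ∈ B c, z c m < b) (A : Fin d → ℤ) (V : Fin d → ℕ) :
    (cnt b N B z A V : ℝ) ≤ N * ∏ c, (1 / (b : ℝ)) ^ (B c).card + RR b n N B V := by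
  classical
  have h1 : ((cnt b N B z A V : ℕ) : ℂ) = ∑ k ∈ cube d (b ^ n),
      (∏ c, coef b n (B c) (z c) (k c) * e (A c * ((k c : ℝ) / b ^ n))) * SS b n N k V := by
    unfold cnt
    rw [Finset.card_filter]
    push_cast
    have h2 : ∀ j ∈ range N, (if ∀ c, Dig b (B c) (z c) (A c + (j : ℤ) * (V c : ℤ))
          then (1 : ℂ) else 0) =
        ∑ k ∈ cube d (b ^ n), ∏ c, coef b n (B c) (z c) (k c) *
          e (((A c + (j : ℤ) * (V c : ℤ) : ℤ) : ℝ) * ((k c : ℝ) / b ^ n)) := by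
      intro j _
      unfold cube
      rw [← Finset.prod_univ_sum (fun _ : Fin d => range (b ^ n))
        (fun c (k : ℕ) => coef b n (B c) (z c) k *
          e (((A c + (j : ℤ) * (V c : ℤ) : ℤ) : ℝ) * ((k : ℝ) / b ^ n)))]
      have h3 : (if ∀ c, Dig b (B c) (z c) (A c + (j : ℤ) * (V c : ℤ)) then (1 : ℂ) else 0) =
          ∏ c, (if Dig b (B c) (z c) (A c + (j : ℤ) * (V c : ℤ)) then (1 : ℂ) else 0) := by
        by_cases h : ∀ c, Dig b (B c) (z c) (A c + (j : ℤ) * (V c : ℤ))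
        · rw [if_pos h]
          symm
          exact Finset.prod_eq_one fun c _ => if_pos (h c)
        · rw [if_neg h]
          push Not at h
          obtain ⟨c, hc⟩ := h
          symm
          exact Finset.prod_eq_zero (Finset.mem_univ c) (if_neg hc)
      rw [h3]
      refine Finset.prod_congr rfl fun c _ => ?_
      exact inversion hb (hB c) (z c) _
    rw [Finset.sum_congr rfl h2, Finset.sum_comm]
    refine Finset.sum_congr rfl fun k _ => ?_
    unfold SS
    rw [Finset.mul_sum]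
    refine Finset.sum_congr rfl fun j _ => ?_
    rw [← Finset.prod_mul_distrib]
    refine Finset.prod_congr rfl fun c _ => ?_
    rw [mul_assoc, ← e_add]
    congr 2
    push_cast
    ring
  have h4 : (cnt b N B z A V : ℝ) = ‖((cnt b N B z A V : ℕ) : ℂ)‖ := by
    rw [Complex.norm_natCast]
  rw [h4, h1]
  refine (norm_sum_le _ _).trans ?_
  have h5 : ∀ k ∈ cube d (b ^ n),
      ‖(∏ c, coef b n (B c) (z c) (k c) * e (A c * ((k c : ℝ) / b ^ n))) * SS b n N k V‖ =
      (∏ c, TT b ((B c).image fun m => n - m) n (k c)) * ‖SS b n N k V‖ := by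
    intro k _
    rw [norm_mul, norm_prod]
    congr 1
    refine Finset.prod_congr rfl fun c _ => ?_
    rw [norm_mul, norm_e, mul_one, norm_coef hb (hB c) (hz c)]
  rw [Finset.sum_congr rfl h5]
  have h0 : (0 : Fin d → ℕ) ∈ cube d (b ^ n) := by
    unfold cube
    rw [Fintype.mem_piFinset]
    intro c
    exact Finset.mem_range.2 (by positivity)
  rw [← Finset.add_sum_erase _ _ h0]
  unfold RR
  apply add_le_add_left
  have h6 : ‖SS b n N (0 : Fin d → ℕ) V‖ ≤ N := by
    unfold SS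
    refine (norm_sum_le _ _).trans ?_
    simp [e_zero]
  have h7 : (∏ c : Fin d, TT b ((B c).image fun m => n - m) n ((0 : Fin d → ℕ) c)) =
      ∏ c, (1 / (b : ℝ)) ^ (B c).card := by
    refine Finset.prod_congr rfl fun c _ => ?_
    exact TT_zero hb (hB c)
  rw [h7, mul_comm (N : ℝ)]
  exact mul_le_mul_of_nonneg_left h6 (Finset.prod_nonneg fun _ _ => by positivity)

theorem order_large {b n i0 q : ℕ} (hb : 2 ≤ b) (hq : q ∣ b ^ n) (hq' : ¬ q ∣ b ^ i0) :
    2 ^ i0 ≤ q := by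
  by_contra hcon
  push Not at hcon
  apply hq'
  have hb0 : b ≠ 0 := by omega
  have hq0 : q ≠ 0 := by
    rintro rfl
    rw [zero_dvd_iff] at hq
    exact absurd hq (by positivity)
  rw [← Nat.factorization_le_iff_dvd hq0 (by positivity)]
  intro p
  rw [Nat.factorization_pow]
  simp only [Finsupp.smul_apply, smul_eq_mul]
  rcases Nat.eq_zero_or_pos (q.factorization p) with h0 | h0
  · rw [h0]; exact Nat.zero_le _
  have hp : p.Prime := by
    by_contra hp
    rw [Nat.factorization_eq_zero_of_not_prime _ hp] at h0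
    omega
  have h1 : p ^ q.factorization p ≤ q := Nat.ordProj_le p hq0
  have h2 : 2 ^ q.factorization p ≤ p ^ q.factorization p := Nat.pow_le_pow_left hp.two_le _
  have h3 : q.factorization p < i0 := by
    have : 2 ^ q.factorization p < 2 ^ i0 := by omega
    exact (Nat.pow_lt_pow_iff_right (by norm_num)).1 this
  have h4 : p ∣ b := by
    have h5 : p ∣ q := Nat.dvd_of_factorization_pos (by omega)
    exact hp.dvd_of_dvd_pow (h5.trans hq)
  have h5 : 1 ≤ b.factorization p := (hp.dvd_iff_one_le_factorization hb0).1 h4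
  calc q.factorization p ≤ i0 * 1 := by omega
    _ ≤ i0 * b.factorization p := Nat.mul_le_mul_left _ h5

theorem pairs_le {M N k q g : ℕ} (hM : 1 ≤ M) (hg : g = Nat.gcd M k) (hk : M = q * g) (j : ℕ) :
    ((range N).filter fun j' : ℕ => (M : ℤ) ∣ ((j : ℤ) - j') * k).card ≤ N / q + 1 := by
  have hg0 : 0 < g := by rw [hg]; exact Nat.gcd_pos_of_pos_left _ hM
  have hq : 0 < q := by
    rcases Nat.eq_zero_or_pos q with h | h
    · rw [h, zero_mul] at hk; omega
    · exact h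
  have hgk : g ∣ k := by rw [hg]; exact Nat.gcd_dvd_right M k
  obtain ⟨k', hk'⟩ := hgk
  have hcop : Nat.Coprime q k' := by
    have h1 : Nat.Coprime (M / g) (k / g) := by
      have := Nat.coprime_div_gcd_div_gcd (m := M) (n := k) (by rw [← hg]; exact hg0)
      rwa [← hg] at this
    have h2 : M / g = q := by
      rw [hk]
      exact Nat.mul_div_cancel _ hg0
    have h3 : k / g = k' := by
      rw [hk']
      exact Nat.mul_div_cancel_left _ hg0
    rw [h2, h3] at h1
    exact h1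
  -- the condition says `q ∣ j - j'`
  have hcond : ∀ j' : ℕ, (M : ℤ) ∣ ((j : ℤ) - j') * k → (q : ℤ) ∣ (j : ℤ) - j' := by
    intro j' h
    have h4 : ((q * g : ℕ) : ℤ) ∣ ((j : ℤ) - j') * (g * k' : ℕ) := by
      rw [← hk, ← hk']; exact h
    have h5 : (q : ℤ) ∣ ((j : ℤ) - j') * k' := by
      have h6 : ((g : ℕ) : ℤ) ≠ 0 := by exact_mod_cast hg0.ne'
      apply Int.dvd_of_mul_dvd_mul_right h6
      refine dvd_trans (Eq.dvd ?_) (h4.trans (Eq.dvd ?_)) <;> push_cast <;> ring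
    exact (Int.isCoprime_iff_gcd_eq_one.2 (by simpa using hcop)).dvd_of_dvd_mul_right h5
  rw [← Finset.card_range (N / q + 1)]
  refine Finset.card_le_card_of_injOn (fun j' => j' / q) ?_ ?_
  · intro j' hj'
    rw [Finset.mem_coe, Finset.mem_filter, Finset.mem_range] at hj'
    rw [Finset.mem_coe, Finset.mem_range]
    exact Nat.lt_succ_of_le (Nat.div_le_div_right hj'.1.le)
  · intro a ha c hc h
    rw [Finset.mem_coe, Finset.mem_filter] at ha hc
    have h1 := hcond a ha.2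
    have h2 := hcond c hc.2
    have h3 : (q : ℤ) ∣ (c : ℤ) - a := by
      have := dvd_sub h1 h2
      have e : ((j : ℤ) - a) - ((j : ℤ) - c) = (c : ℤ) - a := by ring
      rwa [e] at this
    simp only at h
    have h4 := Nat.div_add_mod a q
    have h5 := Nat.div_add_mod c q
    have h6 : a % q = c % q := by
      have : a ≡ c [MOD q] := (Nat.modEq_iff_dvd).2 h3
      exact this
    rw [h, h6] at h4
    omega

theorem normSq_SS (b n N : ℕ) (k V : Fin d → ℕ) :
    ((‖SS b n N k V‖ ^ 2 : ℝ) : ℂ) = ∑ j ∈ range N, ∑ j' ∈ range N,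
      ∏ c, e (V c * ((((j : ℤ) - j') * k c : ℤ) / (b ^ n : ℕ))) := by
  rw [Complex.ofReal_pow, ← Complex.conj_mul', SS, map_sum, Finset.sum_mul_sum, Finset.sum_comm]
  refine Finset.sum_congr rfl fun j _ => Finset.sum_congr rfl fun j' _ => ?_
  rw [map_prod, ← Finset.prod_mul_distrib]
  refine Finset.prod_congr rfl fun c _ => ?_
  rw [conj_e, ← e_add]
  congr 1
  push_cast
  ring

theorem avg_sq {b n i0 : ℕ} (hb : 2 ≤ b) {k : Fin d → ℕ} {c0 : Fin d}
    (hk : ¬ b ^ n ∣ b ^ i0 * k c0) :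
    ∑ V ∈ cube d (b ^ n), ‖SS b n (b ^ i0) k V‖ ^ 2 ≤
      ((b ^ n : ℕ) : ℝ) ^ d * (2 * ((b ^ i0 : ℕ) : ℝ) ^ 2 / 2 ^ i0) := by
  classical
  set M := b ^ n with hM
  set N := b ^ i0 with hN
  have hM1 : 1 ≤ M := Nat.one_le_pow _ _ (by omega)
  have hN1 : 1 ≤ N := Nat.one_le_pow _ _ (by omega)
  have h1 : ((∑ V ∈ cube d M, ‖SS b n N k V‖ ^ 2 : ℝ) : ℂ) =
      ∑ j ∈ range N, ∑ j' ∈ range N, ∏ c, (if (M : ℤ) ∣ ((j : ℤ) - j') * k c then (M : ℂ) else 0) := by
    push_cast
    have h2 : ∀ V ∈ cube d M, ((‖SS b n N k V‖ : ℂ)) ^ 2 = ∑ j ∈ range N, ∑ j' ∈ range N,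
        ∏ c, e (V c * ((((j : ℤ) - j') * k c : ℤ) / (b ^ n : ℕ))) := by
      intro V _
      rw [← normSq_SS]
      push_cast
      rfl
    rw [Finset.sum_congr rfl h2, Finset.sum_comm]
    refine Finset.sum_congr rfl fun j _ => ?_
    rw [Finset.sum_comm]
    refine Finset.sum_congr rfl fun j' _ => ?_
    unfold cube
    rw [← Finset.prod_univ_sum (fun _ : Fin d => range M)
      (fun c (v : ℕ) => e (v * ((((j : ℤ) - j') * k c : ℤ) / (b ^ n : ℕ))))]
    refine Finset.prod_congr rfl fun c _ => ?_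
    rw [← hM]
    exact sum_e_int hM1 _
  have h3 : (∑ V ∈ cube d M, ‖SS b n N k V‖ ^ 2 : ℝ) =
      ‖((∑ V ∈ cube d M, ‖SS b n N k V‖ ^ 2 : ℝ) : ℂ)‖ := by
    rw [Complex.norm_real, Real.norm_of_nonneg]
    exact Finset.sum_nonneg fun _ _ => by positivity
  rw [h3, h1]
  set g := Nat.gcd M (k c0) with hg
  have hgM : g ∣ M := Nat.gcd_dvd_left _ _
  obtain ⟨q, hq⟩ := hgM
  have hq' : M = q * g := by rw [hq]; ring
  have hqdvd : q ∣ M := ⟨g, hq'⟩
  have hqn : ¬ q ∣ b ^ i0 := by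
    rintro ⟨r, hr⟩
    apply hk
    have hgk : g ∣ k c0 := Nat.gcd_dvd_right _ _
    obtain ⟨t, ht⟩ := hgk
    refine ⟨r * t, ?_⟩
    calc b ^ i0 * k c0 = (q * r) * (g * t) := by rw [hr, ← ht]
      _ = (q * g) * (r * t) := by ring
      _ = M * (r * t) := by rw [← hq']
  have hq2 : 2 ^ i0 ≤ q := order_large hb hqdvd hqn
  refine (norm_sum_le _ _).trans ?_
  have h4 : ∀ j ∈ range N, ‖∑ j' ∈ range N, ∏ c, (if (M : ℤ) ∣ ((j : ℤ) - j') * k c
      then (M : ℂ) else 0)‖ ≤ (M : ℝ) ^ d * (2 * N / 2 ^ i0) := by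
    intro j _
    refine (norm_sum_le _ _).trans ?_
    have h5 : ∀ j' ∈ range N, ‖∏ c, (if (M : ℤ) ∣ ((j : ℤ) - j') * k c then (M : ℂ) else 0)‖ ≤
        if (M : ℤ) ∣ ((j : ℤ) - j') * k c0 then (M : ℝ) ^ d else 0 := by
      intro j' _
      split_ifs with h
      · rw [norm_prod]
        calc ∏ c, ‖(if (M : ℤ) ∣ ((j : ℤ) - j') * k c then (M : ℂ) else 0)‖ ≤ ∏ _c : Fin d, (M : ℝ) := by
              apply Finset.prod_le_prod
              · intro c _; exact norm_nonneg _
              · intro c _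
                split_ifs
                · simp
                · simp
          _ = (M : ℝ) ^ d := by simp
      · rw [Finset.prod_eq_zero (Finset.mem_univ c0) (if_neg h)]
        simp
    refine (Finset.sum_le_sum h5).trans ?_
    rw [← Finset.sum_filter, Finset.sum_const, nsmul_eq_mul, mul_comm]
    apply mul_le_mul_of_nonneg_left _ (by positivity)
    have h6 := pairs_le (N := N) hM1 hg hq' j
    have h7 : (((range N).filter fun j' : ℕ => (M : ℤ) ∣ ((j : ℤ) - j') * k c0).card : ℝ) ≤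
        (N : ℝ) / q + 1 := by
      calc (((range N).filter fun j' : ℕ => (M : ℤ) ∣ ((j : ℤ) - j') * k c0).card : ℝ) ≤
          ((N / q + 1 : ℕ) : ℝ) := by exact_mod_cast h6
        _ ≤ (N : ℝ) / q + 1 := by
          push_cast
          have := @Nat.cast_div_le ℝ _ _ _ N q
          linarith
    refine h7.trans ?_
    have h8 : (2 : ℝ) ^ i0 ≤ q := by exact_mod_cast hq2
    have h9 : (2 : ℝ) ^ i0 ≤ N := by
      rw [hN]
      push_cast
      exact pow_le_pow_left₀ (by norm_num) (by exact_mod_cast hb) _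
    have h10 : (0 : ℝ) < 2 ^ i0 := by positivity
    have h11 : (N : ℝ) / q ≤ N / 2 ^ i0 := div_le_div_of_nonneg_left (by positivity) h10 h8
    have h12 : 1 ≤ (N : ℝ) / 2 ^ i0 := by rw [le_div_iff₀ h10]; linarith
    have h13 : 2 * (N : ℝ) / 2 ^ i0 = N / 2 ^ i0 + N / 2 ^ i0 := by ring
    rw [h13]
    linarith
  refine (Finset.sum_le_sum h4).trans ?_
  rw [Finset.sum_const, Finset.card_range, nsmul_eq_mul]
  apply le_of_eq
  ring

theorem avg_norm {b n i0 : ℕ} (hb : 2 ≤ b) {k : Fin d → ℕ} {c0 : Fin d}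
    (hk : ¬ b ^ n ∣ b ^ i0 * k c0) :
    ∑ V ∈ cube d (b ^ n), ‖SS b n (b ^ i0) k V‖ ≤
      ((b ^ n : ℕ) : ℝ) ^ d * (((b ^ i0 : ℕ) : ℝ) * Real.sqrt (2 / 2 ^ i0)) := by
  have h1 := avg_sq hb hk
  have h2 := sq_sum_le_card_mul_sum_sq (s := cube d (b ^ n)) (f := fun V => ‖SS b n (b ^ i0) k V‖)
  rw [card_cube] at h2
  have h3 : (∑ V ∈ cube d (b ^ n), ‖SS b n (b ^ i0) k V‖) ^ 2 ≤
      (((b ^ n : ℕ) : ℝ) ^ d * (((b ^ i0 : ℕ) : ℝ) * Real.sqrt (2 / 2 ^ i0))) ^ 2 := by
    refine h2.trans ?_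
    have h4 : (((b ^ n) ^ d : ℕ) : ℝ) * ∑ V ∈ cube d (b ^ n), ‖SS b n (b ^ i0) k V‖ ^ 2 ≤
        (((b ^ n) ^ d : ℕ) : ℝ) * (((b ^ n : ℕ) : ℝ) ^ d * (2 * ((b ^ i0 : ℕ) : ℝ) ^ 2 / 2 ^ i0)) :=
      mul_le_mul_of_nonneg_left h1 (by positivity)
    refine h4.trans (le_of_eq ?_)
    have h5 : Real.sqrt (2 / 2 ^ i0) ^ 2 = 2 / 2 ^ i0 := Real.sq_sqrt (by positivity)
    rw [mul_pow, mul_pow, h5]
    push_cast
    ring
  exact (abs_le_of_sq_le_sq' h3 (by positivity)).2

/-- the error terms are small on average over the direction -/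
theorem sum_RR_le {b n i0 : ℕ} (hb : 2 ≤ b) (hi0 : i0 ≤ n) {B : Fin d → Finset ℕ}
    (hB : ∀ c, ∀ m ∈ B c, i0 ≤ m ∧ m < n) {C ρ : ℝ} (hC : 1 ≤ C)
    (hρ : 1 ≤ ρ) (hCρ : ∀ m : ℕ, 3 + m * Real.log b ≤ C * ρ ^ m) :
    ∑ V ∈ cube d (b ^ n), RR b n (b ^ i0) B V ≤
      (∏ c, (C ^ ((B c).card + 1) * ρ ^ n)) *
        (((b ^ n : ℕ) : ℝ) ^ d * (((b ^ i0 : ℕ) : ℝ) * Real.sqrt (2 / 2 ^ i0))) := by
  classical
  unfold RR
  rw [Finset.sum_comm]
  have h1 : ∀ k ∈ (cube d (b ^ n)).erase 0, ∑ V ∈ cube d (b ^ n),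
      (∏ c, TT b ((B c).image fun m => n - m) n (k c)) * ‖SS b n (b ^ i0) k V‖ ≤
      (∏ c, TT b ((B c).image fun m => n - m) n (k c)) *
        (((b ^ n : ℕ) : ℝ) ^ d * (((b ^ i0 : ℕ) : ℝ) * Real.sqrt (2 / 2 ^ i0))) := by
    intro k hk
    rw [Finset.mem_erase] at hk
    obtain ⟨hk0, hkM⟩ := hk
    unfold cube at hkM
    rw [Fintype.mem_piFinset] at hkM
    rw [← Finset.mul_sum]
    by_cases hP : (∏ c, TT b ((B c).image fun m => n - m) n (k c)) = 0
    · rw [hP, zero_mul, zero_mul]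
    · apply mul_le_mul_of_nonneg_left _ (Finset.prod_nonneg fun _ _ => TT_nonneg _ _ _ _)
      have : ∃ c0, k c0 ≠ 0 := by
        by_contra h
        push Not at h
        exact hk0 (funext h)
      obtain ⟨c0, hc0⟩ := this
      apply avg_norm hb (c0 := c0)
      intro hdvd
      apply hP
      apply Finset.prod_eq_zero (Finset.mem_univ c0)
      refine TT_eq_zero (by omega) (hB c0) hi0 ?_ hdvd
      intro h
      have h2 := Finset.mem_range.1 (hkM c0)
      have h3 := Nat.le_of_dvd (Nat.pos_of_ne_zero hc0) h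
      omega
  refine (Finset.sum_le_sum h1).trans ?_
  rw [← Finset.sum_mul]
  apply mul_le_mul_of_nonneg_right _ (by positivity)
  calc ∑ k ∈ (cube d (b ^ n)).erase 0, ∏ c, TT b ((B c).image fun m => n - m) n (k c) ≤
      ∑ k ∈ cube d (b ^ n), ∏ c, TT b ((B c).image fun m => n - m) n (k c) := by
        apply Finset.sum_le_sum_of_subset_of_nonneg (Finset.erase_subset _ _)
        intro k _ _
        exact Finset.prod_nonneg fun _ _ => TT_nonneg _ _ _ _
    _ = ∏ c, UU b ((B c).image fun m => n - m) n := by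
        unfold cube UU
        rw [← Finset.prod_univ_sum (fun _ : Fin d => range (b ^ n))
          (fun c (k : ℕ) => TT b ((B c).image fun m => n - m) n k)]
    _ ≤ _ := by
        apply Finset.prod_le_prod
        · intro c _
          exact Finset.sum_nonneg fun _ _ => TT_nonneg _ _ _ _
        · intro c _
          have h0 : 0 ∉ (B c).image fun m => n - m := by
            rw [Finset.mem_image]
            rintro ⟨m, hm, h⟩
            have := hB c m hm
            omega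
          refine (UU_le (by omega) _ h0 hC hρ hCρ n).trans ?_
          apply mul_le_mul_of_nonneg_right _ (by positivity)
          apply pow_le_pow_right₀ hC
          apply Nat.add_le_add_right
          exact (Finset.card_le_card (Finset.filter_subset _ _)).trans Finset.card_image_le

end Pool.Agent.H966R2.Kak
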