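import Pool.Agent.H966R2.Circ

/-!
Smooth decomposable circuits: covers of the accepted set by few boxes with few blocks.
-/

set_option autoImplicit false

namespace Pool.Agent.H966R2.Circ

open Finset Forest

variable {n q : ℕ} {ι : Type}

/-- all inputs of a disjunction use the same variables as the disjunction -/
def SmoothC (C : ι → Gate n q ι) : Prop :=
  ∀ (g : ι) (c : Set ι), C g = .or c → ∀ k ∈ c, ∀ i : Fin n, Uses C i g → Uses C i k

theorem exists_forest_smooth {C : ι → Gate n q ι} (hC : Decomposable C) (hS : SmoothC C) {K : ℕ}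
    (hK : 1 ≤ K) {w : Fin n → Fin q} {g : ι} (h : Acc C w g) :
    ∃ σ : Forest ι, Open C w g (heads σ) ∧ Sem C w σ ∧
      Nice C σ ∧ cov C σ ⊆ V C g ∧ OK C K univ σ ∧ (V C g \ cov C σ).card ≤ K ∧
      (K + 1) * size σ ≤ (cov C σ).card := by
  classical
  induction h with
  | @tt g h =>
    refine ⟨nil, Open.tt h, trivial, trivial, by simp [cov], trivial, ?_, by simp [size]⟩
    have : V C g = ∅ := by
      rw [Finset.eq_empty_iff_forall_notMem]
      intro i hi
      rw [mem_V] at hi
      cases hi with
      | lit h' => rw [h] at h'; cases h'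
      | or h' _ _ => rw [h] at h'; cases h'
      | left h' _ => rw [h] at h'; cases h'
      | right h' _ => rw [h] at h'; cases h'
    rw [this]
    simp
  | @lit g i D h hw =>
    refine ⟨nil, Open.lit h hw, trivial, trivial, by simp [cov], trivial, ?_, by simp [size]⟩
    have : V C g ⊆ {i} := by
      intro j hj
      rw [mem_V] at hj
      rw [Finset.mem_singleton]
      cases hj with
      | lit h' => rw [h] at h'; cases h'; rfl
      | or h' _ _ => rw [h] at h'; cases h'
      | left h' _ => rw [h] at h'; cases h'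
      | right h' _ => rw [h] at h'; cases h'
    refine (Finset.card_le_card (Finset.sdiff_subset.trans this)).trans ?_
    simpa using hK
  | @or g c h k hk _ ih =>
    obtain ⟨σ, h2, h3, h4, h5, h6, h7, h8⟩ := ih
    have hVV : V C k = V C g := by
      ext i
      rw [mem_V, mem_V]
      exact ⟨fun hi => Uses.or h hk hi, fun hi => hS g c h k hk i hi⟩
    exact ⟨σ, Open.or h hk h2, h3, h4, by rw [← hVV]; exact h5, h6, by rw [← hVV]; exact h7, h8⟩
  | @and g c d h _ _ ih1 ih2 =>
    obtain ⟨σ, h2, h3, h4, h5, h6, h7, h8⟩ := ih1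
    obtain ⟨σ', h2', h3', h4', h5', h6', h7', h8'⟩ := ih2
    have hdis : ∀ i, i ∈ V C c → i ∉ V C d := fun i hi hi' =>
      hC g c d h i ⟨mem_V.1 hi, mem_V.1 hi'⟩
    have hcd : Disjoint (cov C σ) (cov C σ') :=
      Finset.disjoint_left.2 fun i hi hi' => hdis i (h5 hi) (h5' hi')
    set τ := app σ σ' with hτ
    have hcovτ : cov C τ = cov C σ ∪ cov C σ' := cov_app C σ σ'
    have a2 : Open C w g (heads τ) := by
      rw [hτ, heads_app]
      exact Open.and h h2 h2'
    have a3 : Sem C w τ := sem_app h3 h3'
    have a4 : Nice C τ := nice_app h4 h4' hcd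
    have a5 : cov C τ ⊆ V C g := by
      intro i hi
      rw [hcovτ] at hi
      rw [mem_V_and h]
      rcases Finset.mem_union.1 hi with hi | hi
      · exact Or.inl (h5 hi)
      · exact Or.inr (h5' hi)
    have a6 : OK C K univ τ := ok_app h6 h6'
    have a7 : (V C g \ cov C τ).card ≤ 2 * K := by
      have hsub : V C g \ cov C τ ⊆ (V C c \ cov C σ) ∪ (V C d \ cov C σ') := by
        intro i hi
        simp only [Finset.mem_sdiff, Finset.mem_union, hcovτ, not_or, mem_V_and h] at hi ⊢
        obtain ⟨hV, hn1, hn2⟩ := hi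
        rcases hV with hV | hV
        · exact Or.inl ⟨hV, hn1⟩
        · exact Or.inr ⟨hV, hn2⟩
      refine (Finset.card_le_card hsub).trans ((Finset.card_union_le _ _).trans ?_)
      omega
    have a8 : (K + 1) * size τ ≤ (cov C τ).card := by
      rw [hcovτ, Finset.card_union_of_disjoint hcd, hτ, size_app, mul_add]
      exact Nat.add_le_add h8 h8'
    by_cases hsmall : (V C g \ cov C τ).card ≤ K
    · exact ⟨τ, a2, a3, a4, a5, a6, hsmall, a8⟩
    · push Not at hsmall
      refine ⟨node g τ nil, Open.hang g, ⟨a2, a3, trivial⟩,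
        ⟨a5, a4, trivial, by simp [cov]⟩, by simp [cov], ⟨?_, ?_, a6, trivial⟩, by simp [cov], ?_⟩
      · rw [Finset.inter_univ]; exact hsmall
      · rw [Finset.inter_univ]; exact a7
      · have e : cov C (node g τ nil) = (V C g \ cov C τ) ∪ cov C τ := by
          simp only [cov, Finset.union_empty]
          rw [Finset.sdiff_union_of_subset a5]
        rw [e, Finset.card_union_of_disjoint]
        · simp only [size]
          have : (K + 1) * (1 + size τ + 0) = (K + 1) + (K + 1) * size τ := by ring
          rw [this]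
          exact Nat.add_le_add hsmall a8
        · exact Finset.sdiff_disjoint

/-- number of labels -/
theorem card_labels (C : ι → Gate n q ι) (σ : Forest ι) (U : Finset (Fin n)) :
    (U.image (lab C σ)).card ≤ size σ + 1 := by
  classical
  induction σ generalizing U with
  | nil =>
    have : U.image (lab C nil) ⊆ {[]} := by
      intro l hl
      obtain ⟨i, _, rfl⟩ := Finset.mem_image.1 hl
      simp [lab]
    exact (Finset.card_le_card this).trans (by simp [size])
  | node h β ρ ih1 ih2 =>
    have : U.image (lab C (node h β ρ)) ⊆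
        ((U.filter (· ∈ V C h)).image (lab C β)).image (List.cons false) ∪
        ((U.filter (· ∉ V C h)).image (lab C ρ)).image (List.cons true) := by
      intro l hl
      obtain ⟨i, hi, rfl⟩ := Finset.mem_image.1 hl
      rw [Finset.mem_union]
      by_cases hV : i ∈ V C h
      · left
        simp only [lab, if_pos hV]
        exact Finset.mem_image_of_mem _ (Finset.mem_image_of_mem _ (Finset.mem_filter.2 ⟨hi, hV⟩))
      · right
        simp only [lab, if_neg hV]
        exact Finset.mem_image_of_mem _ (Finset.mem_image_of_mem _ (Finset.mem_filter.2 ⟨hi, hV⟩))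
    refine (Finset.card_le_card this).trans ((Finset.card_union_le _ _).trans ?_)
    refine (Nat.add_le_add (Finset.card_image_le.trans (ih1 _))
      (Finset.card_image_le.trans (ih2 _))).trans ?_
    simp only [size]
    omega

/-- **Box cover of the accepted set of a smooth decomposable circuit.** -/
theorem smooth_cover [Fintype ι] {C : ι → Gate n q ι} (hC : Decomposable C) (hS : SmoothC C)
    {g : ι} {K : ℕ} (hK : 1 ≤ K) :
    ∃ 𝓕 : Finset (Forest ι), 𝓕.card ≤ (Fintype.card ι + 1) ^ (2 * (n / (K + 1))) ∧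
      (∀ w, Acc C w g ↔ ∃ σ ∈ 𝓕, w ∈ cutSet C g σ) ∧
      ∀ σ ∈ 𝓕, IsBox (lab C σ) (cutSet C g σ) ∧
        (∀ j, ((V C g).filter fun i => lab C σ i = j).card ≤ 2 * K) ∧
        (univ.image (lab C σ)).card ≤ n / (K + 1) + 1 := by
  classical
  have hex : ∀ w, ∃ σ : Forest ι, Acc C w g → Open C w g (heads σ) ∧ Sem C w σ ∧
      Nice C σ ∧ cov C σ ⊆ V C g ∧ OK C K univ σ ∧ (V C g \ cov C σ).card ≤ K ∧
      (K + 1) * size σ ≤ (cov C σ).card := by
    intro w
    by_cases hw : Acc C w g
    · obtain ⟨σ, h⟩ := exists_forest_smooth hC hS hK hw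
      exact ⟨σ, fun _ => h⟩
    · exact ⟨nil, fun h => absurd h hw⟩
  choose σ hσ using hex
  have hsize : ∀ w, Acc C w g → size (σ w) ≤ n / (K + 1) := by
    intro w hw
    have h8 := (hσ w hw).2.2.2.2.2.2
    rw [Nat.le_div_iff_mul_le (by omega), mul_comm]
    refine h8.trans ?_
    simpa using Finset.card_le_univ (cov C (σ w))
  refine ⟨(univ.filter fun w => Acc C w g).image σ, ?_, ?_, ?_⟩
  · refine card_forests _ _ ?_
    intro τ hτ
    obtain ⟨w, hw, rfl⟩ := Finset.mem_image.1 hτ
    exact hsize w (Finset.mem_filter.1 hw).2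
  · intro w
    constructor
    · intro hw
      refine ⟨σ w, Finset.mem_image_of_mem _ (Finset.mem_filter.2 ⟨Finset.mem_univ _, hw⟩), ?_⟩
      exact ⟨(hσ w hw).1, (hσ w hw).2.1⟩
    · rintro ⟨τ, _, hw⟩
      exact cutSet_acc hw
  · intro τ hτ
    obtain ⟨w, hw, rfl⟩ := Finset.mem_image.1 hτ
    have hwA : Acc C w g := (Finset.mem_filter.1 hw).2
    obtain ⟨h2, h3, h4, h5, h6, h7, h8⟩ := hσ w hwA
    refine ⟨cutSet_isBox hC g h4, ?_, ?_⟩
    · intro j
      have := class_small (C := C) (K := K) (t := univ) (σ w) (V C g) j h5 h4 h6 (by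
        rw [Finset.inter_univ]; omega)
      rwa [Finset.inter_univ] at this
    · exact (card_labels C (σ w) univ).trans (Nat.add_le_add_right (hsize w hwA) 1)

end Pool.Agent.H966R2.Circ
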