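import Pool.Agent.H966R2.Kak.Avg
import Pool.Agent.H966R2.Kak.Smooth

/-!
A box that contains a long piece of a line is large.
-/

set_option autoImplicit false

namespace Pool.Agent.H966R2.Kak

open Finset Circ

section slices

variable {D q : ℕ} {κ : Type*} [DecidableEq κ]

/-- the words of `W` that agree with `w0` off the blocks of `T` -/
def part (P : Fin D → κ) (W : Set (Fin D → Fin q)) (w0 : Fin D → Fin q) (T : Finset κ) :
    Set (Fin D → Fin q) := {w ∈ W | ∀ i, P i ∉ T → w i = w0 i}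

theorem part_mul {P : Fin D → κ} {W : Set (Fin D → Fin q)} (hW : IsBox P W) (w0 : Fin D → Fin q)
    {T : Finset κ} {γ : κ} (hγ : γ ∉ T) :
    (part P W w0 {γ}).ncard * (part P W w0 T).ncard ≤ (part P W w0 (insert γ T)).ncard := by
  rw [← Set.ncard_prod]
  refine Set.ncard_le_ncard_of_injOn
    (fun p : (Fin D → Fin q) × (Fin D → Fin q) => fun i => if P i = γ then p.1 i else p.2 i)
    ?_ ?_ (Set.toFinite _)
  · rintro ⟨s, w⟩ ⟨⟨hs, hs'⟩, ⟨hw, hw'⟩⟩
    simp only at hs hs' hw hw'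
    refine ⟨hW s hs w hw γ _ (fun i hi => ?_) (fun i hi => ?_), ?_⟩
    · simp [hi]
    · simp [hi]
    · intro i hi
      rw [Finset.mem_insert, not_or] at hi
      simp only [if_neg hi.1]
      exact hw' i hi.2
  · rintro ⟨s, w⟩ ⟨⟨hs, hs'⟩, ⟨hw, hw'⟩⟩ ⟨s1, w1⟩ ⟨⟨hs1, hs1'⟩, ⟨hw1, hw1'⟩⟩ h
    simp only at hs hs' hw hw' hs1 hs1' hw1 hw1' h
    have h2 : ∀ i, (if P i = γ then s i else w i) = (if P i = γ then s1 i else w1 i) :=
      fun i => congrFun h i
    congr 1
    · funext i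
      by_cases hi : P i = γ
      · have := h2 i
        rwa [if_pos hi, if_pos hi] at this
      · rw [hs' i (by simpa using hi), hs1' i (by simpa using hi)]
    · funext i
      by_cases hi : P i = γ
      · rw [hw' i (by rw [hi]; exact hγ), hw1' i (by rw [hi]; exact hγ)]
      · have := h2 i
        rwa [if_neg hi, if_neg hi] at this

theorem prod_slices_le {P : Fin D → κ} {W : Set (Fin D → Fin q)} (hW : IsBox P W)
    {w0 : Fin D → Fin q} (hw0 : w0 ∈ W) (T : Finset κ) :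
    ∏ γ ∈ T, (part P W w0 {γ}).ncard ≤ W.ncard := by
  have key : ∏ γ ∈ T, (part P W w0 {γ}).ncard ≤ (part P W w0 T).ncard := by
    induction T using Finset.induction_on with
    | empty =>
      rw [Finset.prod_empty]
      refine (Set.ncard_pos (Set.toFinite _)).2 ?_
      exact ⟨w0, hw0, fun _ _ => rfl⟩
    | insert γ T hγ ih =>
      rw [Finset.prod_insert hγ]
      exact (Nat.mul_le_mul_left _ ih).trans (part_mul hW w0 hγ)
  exact key.trans (Set.ncard_le_ncard (fun w hw => hw.1) (Set.toFinite _))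

end slices

section line

variable {d n b : ℕ}

/-- the `m`-th base `b` digit of `x` -/
def dgt (b : ℕ) (hb : 0 < b) (x : ℤ) (m : ℕ) : Fin b :=
  ⟨((x / (b : ℤ) ^ m) % b).toNat, by
    have h1 : (0 : ℤ) < b := by exact_mod_cast hb
    have h2 := Int.emod_nonneg (x / (b : ℤ) ^ m) h1.ne'
    have h3 := Int.emod_lt_of_pos (x / (b : ℤ) ^ m) h1
    omega⟩

theorem dgt_eq {hb : 0 < b} {x : ℤ} {m : ℕ} :
    ((dgt b hb x m : ℕ) : ℤ) = (x / (b : ℤ) ^ m) % b := by
  have h1 : (0 : ℤ) < b := by exact_mod_cast hb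
  have h2 := Int.emod_nonneg (x / (b : ℤ) ^ m) h1.ne'
  simp only [dgt]
  omega

/-- the word of digits of an integer vector: position `(c, m)` carries the `m`-th digit of the
`c`-th coordinate -/
def wrd (b : ℕ) (hb : 0 < b) (n : ℕ) (Y : Fin d → ℤ) : Fin (d * n) → Fin b :=
  fun i => dgt b hb (Y (finProdFinEquiv.symm i).1) (finProdFinEquiv.symm i).2

/-- the levels of the block `γ` in the coordinate `c`, shifted by `i0` -/
def lev {κ : Type*} [DecidableEq κ] (i0 : ℕ) (P : Fin (d * n) → κ) (γ : κ) (c : Fin d) :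
    Finset ℕ :=
  (univ.filter fun m : Fin n => P (finProdFinEquiv (c, m)) = γ ∧ (m : ℕ) + i0 < n).image
    fun m : Fin n => (m : ℕ) + i0

variable {κ : Type*} [DecidableEq κ]

theorem mem_lev {i0 : ℕ} {P : Fin (d * n) → κ} {γ : κ} {c : Fin d} {m' : ℕ} :
    m' ∈ lev i0 P γ c ↔ ∃ m : Fin n, P (finProdFinEquiv (c, m)) = γ ∧ (m : ℕ) + i0 < n ∧
      (m : ℕ) + i0 = m' := by
  unfold lev
  simp only [Finset.mem_image, Finset.mem_filter, Finset.mem_univ, true_and, and_assoc]

theorem card_lev {i0 : ℕ} {P : Fin (d * n) → κ} {γ : κ} {c : Fin d} :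
    (lev i0 P γ c).card =
      (univ.filter fun m : Fin n => P (finProdFinEquiv (c, m)) = γ ∧ (m : ℕ) + i0 < n).card := by
  unfold lev
  refine Finset.card_image_of_injective _ ?_
  intro m m' h
  simp only at h
  exact Fin.ext (by omega)

theorem sum_card_lev {i0 : ℕ} (hi0 : i0 ≤ n) {P : Fin (d * n) → κ} :
    ∑ γ ∈ univ.image P, ∑ c, (lev i0 P γ c).card = d * (n - i0) := by
  rw [Finset.sum_comm]
  have h1 : ∀ c ∈ (univ : Finset (Fin d)), ∑ γ ∈ univ.image P, (lev i0 P γ c).card = n - i0 := by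
    intro c _
    have h2 : (univ.filter fun m : Fin n => (m : ℕ) + i0 < n).card = n - i0 := by
      rw [← Finset.card_range (n - i0)]
      refine Finset.card_bij (fun m _ => (m : ℕ)) ?_ ?_ ?_
      · intro m hm
        rw [Finset.mem_filter] at hm
        rw [Finset.mem_range]
        omega
      · intro m _ m' _ h
        exact Fin.ext h
      · intro m hm
        rw [Finset.mem_range] at hm
        exact ⟨⟨m, by omega⟩, by simp; omega, rfl⟩
    rw [← h2, Finset.card_eq_sum_card_fiberwise (f := fun m : Fin n => P (finProdFinEquiv (c, m)))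
      (t := univ.image P)]
    · refine Finset.sum_congr rfl fun γ _ => ?_
      rw [card_lev, Finset.filter_filter]
      congr 1
      ext m
      simp only [Finset.mem_filter, Finset.mem_univ, true_and]
      exact and_comm
    · intro m _
      exact Finset.mem_image_of_mem P (Finset.mem_univ _)
  rw [Finset.sum_congr rfl h1]
  simp

theorem sum_card_lev_le {i0 : ℕ} {P : Fin (d * n) → κ} {γ : κ} :
    ∑ c, (lev i0 P γ c).card ≤ (univ.filter fun i => P i = γ).card := by
  have h1 : ∑ c, (lev i0 P γ c).card ≤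
      ∑ c : Fin d, (univ.filter fun m : Fin n => P (finProdFinEquiv (c, m)) = γ).card := by
    refine Finset.sum_le_sum fun c _ => ?_
    rw [card_lev]
    refine Finset.card_le_card fun m hm => ?_
    rw [Finset.mem_filter] at hm ⊢
    exact ⟨hm.1, hm.2.1⟩
  refine h1.trans (le_of_eq ?_)
  rw [← Finset.card_sigma]
  refine Finset.card_bij (fun p _ => finProdFinEquiv (p.1, p.2)) ?_ ?_ ?_
  · rintro ⟨c, m⟩ h
    simpa using h
  · rintro ⟨c, m⟩ _ ⟨c', m'⟩ _ h
    have := finProdFinEquiv.injective h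
    cases this
    rfl
  · intro i hi
    refine ⟨⟨(finProdFinEquiv.symm i).1, (finProdFinEquiv.symm i).2⟩, ?_, ?_⟩
    · rw [Finset.mem_filter] at hi
      simp only [Finset.mem_sigma, Finset.mem_univ, Finset.mem_filter, true_and, Prod.mk.eta,
        Equiv.apply_symm_apply]
      exact hi.2
    · exact Equiv.apply_symm_apply _ _

open Classical in
/-- **Slices seen by a line.** -/
theorem slice_large {hb : 0 < b} {i0 : ℕ} {P : Fin (d * n) → κ}
    {W : Set (Fin (d * n) → Fin b)} (hW : IsBox P W) {w0 : Fin (d * n) → Fin b} (hw0 : w0 ∈ W)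
    {A Z : Fin d → ℤ} {V : Fin d → ℕ} (hZ : ∀ c, Z c ≡ (V c : ℤ) [ZMOD (b : ℤ) ^ n])
    (J : Finset ℕ) (hJ : J ⊆ range (b ^ i0))
    (hJW : ∀ j ∈ J, wrd b hb n (fun c => (A c + (j : ℤ) * Z c) / (b : ℤ) ^ i0) ∈ W) (γ : κ)
    (hR : RR b n (b ^ i0) (lev i0 P γ) V ≤
      (b ^ i0 : ℕ) * (1 / (b : ℝ)) ^ (∑ c, (lev i0 P γ c).card)) :
    (J.card : ℝ) ≤ (part P W w0 {γ}).ncard *
      (2 * ((b ^ i0 : ℕ) * (1 / (b : ℝ)) ^ (∑ c, (lev i0 P γ c).card))) := by
  set N := b ^ i0 with hN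
  -- the projection to the slice
  set pr : ℕ → (Fin (d * n) → Fin b) := fun j i => if P i = γ then
    wrd b hb n (fun c => (A c + (j : ℤ) * Z c) / (b : ℤ) ^ i0) i else w0 i with hpr
  have hfin : (part P W w0 {γ}).Finite := Set.toFinite _
  have h1 : ∀ j ∈ J, pr j ∈ hfin.toFinset := by
    intro j hj
    rw [Set.Finite.mem_toFinset]
    refine ⟨hW _ (hJW j hj) w0 hw0 γ _ (fun i hi => ?_) (fun i hi => ?_), ?_⟩
    · simp [hpr, hi]
    · simp [hpr, hi]
    · intro i hi
      rw [Finset.mem_singleton] at hi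
      simp [hpr, hi]
  have h2 : ∀ s ∈ hfin.toFinset, ((J.filter fun j => pr j = s).card : ℝ) ≤
      2 * (N * (1 / (b : ℝ)) ^ (∑ c, (lev i0 P γ c).card)) := by
    intro s hs
    set z : Fin d → ℕ → ℕ := fun c m' => if h : m' - i0 < n then
      (s (finProdFinEquiv (c, ⟨m' - i0, h⟩)) : ℕ) else 0 with hz
    have h3 : (J.filter fun j => pr j = s).card ≤ cnt b N (lev i0 P γ) z A V := by
      unfold cnt
      refine Finset.card_le_card fun j hj => ?_
      rw [Finset.mem_filter] at hj ⊢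
      refine ⟨hJ hj.1, fun c => ?_⟩
      have hcong : (A c + (j : ℤ) * (V c : ℤ)) % (b : ℤ) ^ n = (A c + (j : ℤ) * Z c) % (b : ℤ) ^ n :=
        ((hZ c).symm.mul_left _).add_left _
      rw [Dig_congr (by omega) (fun m hm => by rw [mem_lev] at hm; omega) (z c) hcong]
      intro m' hm'
      rw [mem_lev] at hm'
      obtain ⟨m, hm1, hm2, rfl⟩ := hm'
      have h4 := congrFun hj.2 (finProdFinEquiv (c, m))
      simp only [hpr, if_pos hm1] at h4
      have h5 : z c ((m : ℕ) + i0) = (s (finProdFinEquiv (c, m)) : ℕ) := by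
        have e : (m : ℕ) + i0 - i0 = m := by omega
        simp only [hz, e]
        rw [dif_pos m.isLt]
      rw [h5, ← h4]
      unfold wrd
      rw [Equiv.symm_apply_apply, dgt_eq, pow_add, mul_comm ((b : ℤ) ^ (m : ℕ)),
        Int.ediv_ediv_of_nonneg (by positivity)]
    have h4 : (cnt b N (lev i0 P γ) z A V : ℝ) ≤
        N * ∏ c, (1 / (b : ℝ)) ^ (lev i0 P γ c).card + RR b n N (lev i0 P γ) V := by
      apply cnt_le (by omega)
      · intro c m hm
        rw [mem_lev] at hm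
        omega
      · intro c m hm
        rw [mem_lev] at hm
        obtain ⟨m0, _, _, rfl⟩ := hm
        have e : (m0 : ℕ) + i0 - i0 = m0 := by omega
        simp only [hz, e]
        rw [dif_pos m0.isLt]
        exact (s _).isLt
    rw [Finset.prod_pow_eq_pow_sum] at h4
    have h5 : ((J.filter fun j => pr j = s).card : ℝ) ≤ cnt b N (lev i0 P γ) z A V := by
      exact_mod_cast h3
    linarith
  rw [Finset.card_eq_sum_card_fiberwise (f := pr) (t := hfin.toFinset) (fun j hj => h1 j hj)]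
  push_cast
  refine (Finset.sum_le_sum h2).trans ?_
  rw [Finset.sum_const, nsmul_eq_mul, ← Set.ncard_eq_toFinset_card _ hfin]

/-- **A box that contains a long piece of a line in a good direction is large.** -/
theorem box_large {hb : 0 < b} {i0 : ℕ} (hi0 : i0 ≤ n) {P : Fin (d * n) → κ}
    {W : Set (Fin (d * n) → Fin b)} (hW : IsBox P W)
    {A Z : Fin d → ℤ} {V : Fin d → ℕ} (hZ : ∀ c, Z c ≡ (V c : ℤ) [ZMOD (b : ℤ) ^ n])
    (J : Finset ℕ) (hJ : J ⊆ range (b ^ i0))
    (hJW : ∀ j ∈ J, wrd b hb n (fun c => (A c + (j : ℤ) * Z c) / (b : ℤ) ^ i0) ∈ W)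
    (hR : ∀ γ ∈ univ.image P, RR b n (b ^ i0) (lev i0 P γ) V ≤
      (b ^ i0 : ℕ) * (1 / (b : ℝ)) ^ (∑ c, (lev i0 P γ c).card)) (hne : J.Nonempty) :
    ((J.card : ℝ) / (2 * (b ^ i0 : ℕ))) ^ (univ.image P).card * (b : ℝ) ^ (d * (n - i0)) ≤
      W.ncard := by
  obtain ⟨j0, hj0⟩ := hne
  set w0 := wrd b hb n (fun c => (A c + (j0 : ℤ) * Z c) / (b : ℤ) ^ i0) with hw0d
  have hw0 : w0 ∈ W := hJW j0 hj0
  have hbR : (0 : ℝ) < b := by exact_mod_cast hb
  have h1 : ∀ γ ∈ univ.image P, (J.card : ℝ) / (2 * (b ^ i0 : ℕ)) * (b : ℝ) ^ (∑ c, (lev i0 P γ c).card)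
      ≤ (part P W w0 {γ}).ncard := by
    intro γ hγ
    have h2 := slice_large hW hw0 hZ J hJ hJW γ (hR γ hγ)
    have hN : (0 : ℝ) < (b ^ i0 : ℕ) := by positivity
    have h3 : (0 : ℝ) < (b : ℝ) ^ (∑ c, (lev i0 P γ c).card) := by positivity
    rw [div_mul_eq_mul_div, div_le_iff₀ (by positivity)]
    calc (J.card : ℝ) * (b : ℝ) ^ (∑ c, (lev i0 P γ c).card) ≤
        ((part P W w0 {γ}).ncard * (2 * ((b ^ i0 : ℕ) *
          (1 / (b : ℝ)) ^ (∑ c, (lev i0 P γ c).card)))) * (b : ℝ) ^ (∑ c, (lev i0 P γ c).card) :=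
          mul_le_mul_of_nonneg_right h2 h3.le
      _ = (part P W w0 {γ}).ncard * (2 * (b ^ i0 : ℕ)) *
          ((1 / (b : ℝ)) ^ (∑ c, (lev i0 P γ c).card) * (b : ℝ) ^ (∑ c, (lev i0 P γ c).card)) := by
          ring
      _ = _ := by
          rw [← mul_pow, one_div, inv_mul_cancel₀ hbR.ne', one_pow, mul_one]
  have h4 : ∏ γ ∈ univ.image P, ((J.card : ℝ) / (2 * (b ^ i0 : ℕ)) *
      (b : ℝ) ^ (∑ c, (lev i0 P γ c).card)) ≤ ∏ γ ∈ univ.image P, ((part P W w0 {γ}).ncard : ℝ) := by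
    apply Finset.prod_le_prod
    · intro γ _
      positivity
    · exact h1
  rw [Finset.prod_mul_distrib, Finset.prod_const, Finset.prod_pow_eq_pow_sum, sum_card_lev hi0] at h4
  refine h4.trans ?_
  have h5 := prod_slices_le hW hw0 (univ.image P)
  exact_mod_cast h5

end line

end Pool.Agent.H966R2.Kak
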