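import Pool.Agent.H966R2.Kak.Geo3

/-!
The core statement for lines, and its consequences.
-/

set_option autoImplicit false

namespace Pool.Agent.H966R2.Kak

open Finset Circ MeasureTheory Set Filter Metric Topology
open scoped ENNReal Pointwise

theorem rpow_eq_exp {b : ℕ} (hb : 0 < b) (x : ℝ) : (b : ℝ) ^ x = Real.exp (Real.log b * x) := by
  rw [Real.rpow_def_of_pos (by exact_mod_cast hb)]

theorem enn_comm (a c v : ℝ≥0∞) : a * (2 * (c * v)) = 2 * c * (a * v) := by ring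

theorem mem_dirs {d b n : ℕ} {T : Set (Sp d)} {Z : Fin d → ℤ} (hZ : Z ∈ dirs b n T) :
    ∃ e ∈ T, ∃ ρ ∈ Ioo (1 / 2 : ℝ) 1, flr b n (ρ • e) = Z := by
  classical
  unfold dirs at hZ
  exact (Finset.mem_filter.1 hZ).2

theorem dir_count {d b n : ℕ} (hd : 1 ≤ d) (hb0 : 0 < b) {Θ : Set (sphere (0 : Sp d) 1)}
    (hΘm : MeasurableSet Θ) {x : ℝ}
    (hΘ : ENNReal.ofReal x ≤ (volume : Measure (Sp d)).toSphere Θ) :
    x * ((b : ℝ) ^ n) ^ d ≤ 4 * d * 2 ^ d * (rdirs b n ((↑) '' Θ : Set (Sp d))).card := by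
  have hbn : (0 : ℝ) < (b : ℝ) ^ n := by positivity
  set T : Set (Sp d) := (↑) '' Θ with hT
  have hTs : T ⊆ sphere 0 1 := by
    rintro x ⟨e, _, rfl⟩
    exact e.2
  rw [Measure.toSphere_apply' _ hΘm, finrank_euclideanSpace, Fintype.card_fin] at hΘ
  have h2 : volume (Ioo (0 : ℝ) 1 • T) ≤ 4 * (((2 ^ d * (rdirs b n T).card : ℕ) : ℝ≥0∞) *
      (ENNReal.ofReal (((b : ℝ) ^ n)⁻¹)) ^ d) := by
    refine (cone_le hd T hTs).trans (mul_le_mul_right ?_ _)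
    refine (volume_cone_le hb0 T hTs).trans (mul_le_mul_left ?_ _)
    exact_mod_cast card_dirs_le hb0 T
  have h3 : ENNReal.ofReal x ≤ ENNReal.ofReal (d * (4 * ((2 ^ d * (rdirs b n T).card : ℕ) *
      (((b : ℝ) ^ n)⁻¹) ^ d))) := by
    refine hΘ.trans ((mul_le_mul_right h2 _).trans (le_of_eq ?_))
    rw [ENNReal.ofReal_mul (by positivity), ENNReal.ofReal_mul (by positivity),
      ENNReal.ofReal_mul (by positivity), ENNReal.ofReal_pow (by positivity),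
      ENNReal.ofReal_natCast, ENNReal.ofReal_natCast, ENNReal.ofReal_ofNat]
  rw [ENNReal.ofReal_le_ofReal_iff (by positivity)] at h3
  push_cast at h3
  calc x * ((b : ℝ) ^ n) ^ d ≤ (d * (4 * ((2 ^ d * (rdirs b n T).card) *
        (((b : ℝ) ^ n)⁻¹) ^ d))) * ((b : ℝ) ^ n) ^ d :=
        mul_le_mul_of_nonneg_right h3 (by positivity)
    _ = 4 * d * 2 ^ d * (rdirs b n T).card * ((((b : ℝ) ^ n)⁻¹) ^ d * ((b : ℝ) ^ n) ^ d) := by
        ring
    _ = _ := by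
        rw [← mul_pow, inv_mul_cancel₀ hbn.ne', one_pow, mul_one]

theorem line_step {d b n : ℕ} (hb0 : 0 < b) {ι : Type} (C : ι → Gate (d * n) b ι) (g : ι)
    (a e : Sp d) {x : ℝ} (hx : 0 ≤ x)
    (ha : ENNReal.ofReal x ≤ volume {t : ℝ | t ∈ Icc (0 : ℝ) 1 ∧ a + t • e ∈ region hb0 C g})
    {ρ : ℝ} (hρ : ρ ∈ Ioo (1 / 2 : ℝ) 1) (i0 : ℕ) :
    ∃ A : Fin d → ℤ, ∃ J : Finset ℕ, J ⊆ Finset.range (b ^ i0) ∧
      ((b ^ i0 : ℕ) : ℝ) * x ≤ 2 * 2 ^ d * (J.card : ℝ) ∧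
      ∀ j ∈ J, Acc C (wrd b hb0 n (fun c => (A c + (j : ℤ) * flr b n (ρ • e) c) /
        (b : ℤ) ^ i0)) g := by
  set E := region hb0 C g with hE
  obtain ⟨t0, ht0⟩ := sub_segment (G := {t : ℝ | a + t • e ∈ E}) hρ.1 hρ.2.le
  have h2 : {s : ℝ | s ∈ Icc (0 : ℝ) 1 ∧ t0 + s * ρ ∈ {t : ℝ | a + t • e ∈ E}} =
      {t : ℝ | t ∈ Icc (0 : ℝ) 1 ∧ (a + t0 • e) + t • (ρ • e) ∈ E} := by
    ext s
    simp only [Set.mem_ofPred_eq]
    have : a + (t0 + s * ρ) • e = a + t0 • e + s • ρ • e := by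
      rw [add_smul, smul_smul, add_assoc]
    rw [this]
  rw [h2] at ht0
  obtain ⟨α, hα⟩ := round_direction hb0 C g (a + t0 • e) (ρ • e)
  obtain ⟨A, J, hJ1, hJ2, hJ3⟩ := to_progression hb0 C g α (flr b n (ρ • e)) i0
  refine ⟨A, J, hJ1, ?_, hJ3⟩
  set v0 := volume {t : ℝ | t ∈ Icc (0 : ℝ) 1 ∧
    (fun c => ⌊α c + t * flr b n (ρ • e) c⌋) ∈ good hb0 C g} with hv0
  have h3 : ({t : ℝ | a + t • e ∈ E} ∩ Icc 0 1) =
      {t : ℝ | t ∈ Icc (0 : ℝ) 1 ∧ a + t • e ∈ E} := by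
    ext t
    exact and_comm
  rw [h3] at ht0
  have h4 : ENNReal.ofReal x / 2 ≤ 2 ^ d * v0 :=
    (ENNReal.div_le_div_right ha 2).trans (ht0.trans hα)
  have h5 : ENNReal.ofReal x ≤ 2 * (2 ^ d * v0) := by
    rw [ENNReal.div_le_iff (by norm_num) (by norm_num)] at h4
    rwa [mul_comm] at h4
  have h6 : (b ^ i0 : ℕ) * ENNReal.ofReal x ≤ 2 * 2 ^ d * (J.card : ℝ≥0∞) := by
    calc ((b ^ i0 : ℕ) : ℝ≥0∞) * ENNReal.ofReal x ≤ (b ^ i0 : ℕ) * (2 * (2 ^ d * v0)) :=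
          mul_le_mul_right h5 _
      _ = 2 * 2 ^ d * ((b ^ i0 : ℕ) * v0) := by
          exact enn_comm _ _ _
      _ ≤ _ := mul_le_mul_right hJ2 _
  have h7 : ENNReal.ofReal ((b ^ i0 : ℕ) * x) ≤ ENNReal.ofReal (2 * 2 ^ d * J.card) := by
    rw [ENNReal.ofReal_mul (by positivity), ENNReal.ofReal_mul (by positivity),
      ENNReal.ofReal_mul (by positivity), ENNReal.ofReal_pow (by positivity),
      ENNReal.ofReal_natCast, ENNReal.ofReal_natCast, ENNReal.ofReal_ofNat]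
    exact h6
  rwa [ENNReal.ofReal_le_ofReal_iff (by positivity)] at h7

/-- the core statement -/
theorem core (d b : ℕ) (hd : 1 ≤ d) (hb : 2 ≤ b) (hb0 : 0 < b) {ε : ℝ} (hε : 0 < ε) :
    ∃ c : ℝ, 0 < c ∧ ∃ n0 : ℕ, ∀ n ≥ n0, ∀ (ι : Type) [Fintype ι]
      (C : ι → Gate (d * n) b ι) (g : ι), Decomposable C →
      (Fintype.card ι : ℝ) ≤ (b : ℝ) ^ (c * n) →
      ∀ Θ : Set (sphere (0 : Sp d) 1), MeasurableSet Θ →
      ENNReal.ofReal ((b : ℝ) ^ (-(c * n))) ≤ (volume : Measure (Sp d)).toSphere Θ →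
      (∀ e ∈ Θ, ∃ a : Sp d, ENNReal.ofReal ((b : ℝ) ^ (-(c * n))) ≤
        volume {t : ℝ | t ∈ Icc (0 : ℝ) 1 ∧ a + t • (e : Sp d) ∈ region hb0 C g}) →
      (b : ℝ) ^ ((d - ε) * n) ≤
        (({w | Acc C w g} : Set (Fin (d * n) → Fin b)).ncard : ℝ) := by
  obtain ⟨c, hc, n0, hn0⟩ := kakeya_asym_aux d b hd hb hb0 (lt_min hε one_pos) (min_le_right ε 1)
  have hLb : 0 < Real.log b := Real.log_pos (by exact_mod_cast (by omega : 1 < b))
  have hdR : (1 : ℝ) ≤ d := by exact_mod_cast hd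
  have hcL : 0 < c / 2 * Real.log b := by positivity
  obtain ⟨n1, hn1⟩ := eventually_atTop.1 (eventually_lin_le_exp hcL 0 (4 * d * 2 ^ d))
  refine ⟨c / 2, by positivity, max n0 n1, fun n hn ι _ C g hC hs Θ hΘm hΘ hlines => ?_⟩
  have h1 := hn1 n ((le_max_right _ _).trans hn)
  set y := Real.exp (c / 2 * Real.log b * n) with hy
  have hy0 : 0 < y := Real.exp_pos _
  have hbig : 4 * (d : ℝ) * 2 ^ d ≤ y := by linarith
  have hneg : (b : ℝ) ^ (-(c / 2 * n)) = y⁻¹ := by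
    rw [rpow_eq_exp hb0, hy, ← Real.exp_neg]
    congr 1
    ring
  have hpow : Real.exp (-(c * Real.log b * n)) = y⁻¹ * y⁻¹ := by
    rw [hy, ← Real.exp_neg, ← Real.exp_add]
    congr 1
    ring
  rw [hneg] at hΘ
  have hcount := dir_count (n := n) hd hb0 hΘm hΘ
  set T : Set (Sp d) := (↑) '' Θ with hT
  -- number of directions
  have hdir : Real.exp (-(c * Real.log b * n)) * ((b ^ n : ℕ) : ℝ) ^ d ≤ (rdirs b n T).card := by
    rw [hpow]
    push_cast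
    calc y⁻¹ * y⁻¹ * ((b : ℝ) ^ n) ^ d = y⁻¹ * (y⁻¹ * ((b : ℝ) ^ n) ^ d) := by ring
      _ ≤ y⁻¹ * (4 * d * 2 ^ d * (rdirs b n T).card) :=
          mul_le_mul_of_nonneg_left hcount (by positivity)
      _ ≤ y⁻¹ * (y * (rdirs b n T).card) := by
          apply mul_le_mul_of_nonneg_left _ (by positivity)
          exact mul_le_mul_of_nonneg_right hbig (by positivity)
      _ = (rdirs b n T).card := by
          rw [← mul_assoc, inv_mul_cancel₀ hy0.ne', one_mul]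
  have hsize : (Fintype.card ι : ℝ) ≤ Real.exp (c * Real.log b * n) := by
    refine hs.trans ?_
    rw [rpow_eq_exp hb0]
    apply Real.exp_le_exp.2
    have : 0 ≤ c / 2 * (Real.log b * n) := by positivity
    linarith
  have hmain := hn0 n ((le_max_left _ _).trans hn) ι C g hC hsize (rdirs b n T)
    (rdirs_subset hb0 T) hdir (by
      intro V hV i0
      unfold rdirs at hV
      obtain ⟨Z, hZ, rfl⟩ := Finset.mem_image.1 hV
      obtain ⟨e, he, ρ, hρ, rfl⟩ := mem_dirs hZ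
      obtain ⟨e', he', rfl⟩ := he
      obtain ⟨a, ha⟩ := hlines e' he'
      rw [hneg] at ha
      obtain ⟨A, J, hJ1, hJ2, hJ3⟩ := line_step hb0 C g a e' (inv_nonneg.2 hy0.le) ha hρ i0
      refine ⟨A, flr b n (ρ • (e' : Sp d)), fun c => ?_, J, hJ1, ?_, hJ3⟩
      · have hbz : (0 : ℤ) < (b : ℤ) ^ n := by positivity
        rw [Int.toNat_of_nonneg (Int.emod_nonneg _ hbz.ne')]
        exact (Int.mod_modEq _ _).symm
      · rw [hpow]
        have h8 : 2 * 2 ^ d * (J.card : ℝ) ≤ y * J.card := by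
          apply mul_le_mul_of_nonneg_right _ (by positivity)
          have h9 : (2 : ℝ) * 2 ^ d ≤ 4 * d * 2 ^ d := by
            apply mul_le_mul_of_nonneg_right _ (by positivity)
            linarith
          linarith
        calc y⁻¹ * y⁻¹ * ((b ^ i0 : ℕ) : ℝ) = y⁻¹ * (((b ^ i0 : ℕ) : ℝ) * y⁻¹) := by ring
          _ ≤ y⁻¹ * (y * J.card) := mul_le_mul_of_nonneg_left (hJ2.trans h8) (by positivity)
          _ = J.card := by rw [← mul_assoc, inv_mul_cancel₀ hy0.ne', one_mul])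
  refine le_trans ?_ hmain
  rw [rpow_eq_exp hb0]
  apply Real.exp_le_exp.2
  apply mul_le_mul_of_nonneg_left _ hLb.le
  apply mul_le_mul_of_nonneg_right _ (Nat.cast_nonneg n)
  linarith [min_le_left ε 1]

/-- the core statement in terms of the volume -/
theorem core_volume (d b : ℕ) (hd : 1 ≤ d) (hb : 2 ≤ b) (hb0 : 0 < b) {ε : ℝ} (hε : 0 < ε) :
    ∃ c : ℝ, 0 < c ∧ ∃ n0 : ℕ, ∀ n ≥ n0, ∀ (ι : Type) [Fintype ι]
      (C : ι → Gate (d * n) b ι) (g : ι), Decomposable C →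
      (Fintype.card ι : ℝ) ≤ (b : ℝ) ^ (c * n) →
      ∀ Θ : Set (sphere (0 : Sp d) 1), MeasurableSet Θ →
      ENNReal.ofReal ((b : ℝ) ^ (-(c * n))) ≤ (volume : Measure (Sp d)).toSphere Θ →
      (∀ e ∈ Θ, ∃ a : Sp d, ENNReal.ofReal ((b : ℝ) ^ (-(c * n))) ≤
        volume {t : ℝ | t ∈ Icc (0 : ℝ) 1 ∧ a + t • (e : Sp d) ∈ region hb0 C g}) →
      ENNReal.ofReal ((b : ℝ) ^ (-(ε * n))) ≤ volume (region hb0 C g) := by
  obtain ⟨c, hc, n0, hn0⟩ := core d b hd hb hb0 hε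
  refine ⟨c, hc, n0, fun n hn ι _ C g hC hs Θ hΘm hΘ hlines => ?_⟩
  have h1 := hn0 n hn ι C g hC hs Θ hΘm hΘ hlines
  refine le_trans ?_ (volume_region_ge hb0 C g)
  have hbR : (0 : ℝ) < b := by exact_mod_cast hb0
  have h2 : ENNReal.ofReal ((b : ℝ) ^ ((d - ε) * n) * (((b : ℝ) ^ n)⁻¹) ^ d) ≤
      (({w | Acc C w g} : Set (Fin (d * n) → Fin b)).ncard : ℝ≥0∞) *
      (ENNReal.ofReal (((b : ℝ) ^ n)⁻¹)) ^ d := by
    rw [ENNReal.ofReal_mul (by positivity), ENNReal.ofReal_pow (by positivity)]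
    apply mul_le_mul_left
    rw [← ENNReal.ofReal_natCast]
    exact ENNReal.ofReal_le_ofReal h1
  refine le_trans (le_of_eq ?_) h2
  congr 1
  rw [← Real.rpow_natCast, ← Real.rpow_natCast, ← Real.rpow_neg hbR.le, ← Real.rpow_mul hbR.le,
    ← Real.rpow_add hbR]
  congr 1
  ring

end Pool.Agent.H966R2.Kak
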