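import Pool.Agent.H966R2.Kak.Four

/-!
Digit cylinders and arithmetic progressions in `(ℤ/b^n)^d`.
-/

set_option autoImplicit false

namespace Pool.Agent.H966R2.Kak

open Finset Complex

/-- orthogonality -/
theorem sum_e_int {M : ℕ} (hM : 1 ≤ M) (d : ℤ) :
    ∑ k ∈ range M, e (k * ((d : ℝ) / M)) = if (M : ℤ) ∣ d then (M : ℂ) else 0 := by
  have hM0 : (M : ℝ) ≠ 0 := by positivity
  have h1 : ∀ k ∈ range M, e (k * ((d : ℝ) / M)) = e ((d : ℝ) / M) ^ k := fun k _ => e_nat_mul k _
  rw [Finset.sum_congr rfl h1]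
  split_ifs with h
  · obtain ⟨m, rfl⟩ := h
    have h2 : e (((M * m : ℤ) : ℝ) / M) = 1 := by
      have : ((M * m : ℤ) : ℝ) / M = (m : ℤ) := by push_cast; field_simp
      rw [this, e_int]
    rw [h2]
    simp
  · have h2 : e ((d : ℝ) / M) ≠ 1 := by
      intro h3
      obtain ⟨m, hm⟩ := (e_eq_one_iff _).1 h3
      apply h
      rw [div_eq_iff hM0] at hm
      refine ⟨m, ?_⟩
      have : (d : ℝ) = ((M * m : ℤ) : ℝ) := by rw [hm]; push_cast; ring
      exact_mod_cast this
    rw [geom_sum_eq h2, ← e_nat_mul]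
    have : (M : ℝ) * ((d : ℝ) / M) = (d : ℤ) := by field_simp
    rw [this, e_int]
    simp

/-- the digit condition -/
def Dig (b : ℕ) (B : Finset ℕ) (z : ℕ → ℕ) (x : ℤ) : Prop :=
  ∀ m ∈ B, (x / (b : ℤ) ^ m) % b = z m

theorem Dig_congr {b n : ℕ} (hb : 1 ≤ b) {B : Finset ℕ} (hB : ∀ m ∈ B, m < n) (z : ℕ → ℕ) {x y : ℤ}
    (hxy : x % (b : ℤ) ^ n = y % (b : ℤ) ^ n) : Dig b B z x ↔ Dig b B z y := by
  have key : ∀ m ∈ B, (x / (b : ℤ) ^ m) % b = (y / (b : ℤ) ^ m) % b := by
    intro m hm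
    obtain ⟨r, hr⟩ := Nat.exists_eq_add_of_lt (hB m hm)
    have hbm : (0 : ℤ) < (b : ℤ) ^ m := by positivity
    have h1 : (b : ℤ) ^ n = (b : ℤ) ^ m * ((b : ℤ) * (b : ℤ) ^ r) := by
      rw [hr, pow_add, pow_add]; ring
    have h2 : ∀ x : ℤ, (x / (b : ℤ) ^ m) % b = ((x % (b : ℤ) ^ n) / (b : ℤ) ^ m) % b := by
      intro x
      have h3 : x = x % (b : ℤ) ^ n + (b : ℤ) ^ m * ((b : ℤ) * (b : ℤ) ^ r * (x / (b : ℤ) ^ n)) := by
        have := Int.emod_add_mul_ediv x ((b : ℤ) ^ n)
        rw [h1] at this ⊢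
        linarith
      conv_lhs => rw [h3, Int.add_mul_ediv_left _ _ hbm.ne']
      rw [mul_assoc, Int.add_mul_emod_self_left]
    rw [h2 x, h2 y, hxy]
  unfold Dig
  exact forall₂_congr fun m hm => by rw [key m hm]

/-- sums over all `y < b^n` of products over digits -/
theorem sum_digits {b : ℕ} (hb : 1 ≤ b) (n : ℕ) (g : ℕ → ℕ → ℂ) :
    ∑ y ∈ range (b ^ n), ∏ m ∈ range n, g m (y / b ^ m % b) =
      ∏ m ∈ range n, ∑ u ∈ range b, g m u := by
  induction n with
  | zero => simp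
  | succ n ih =>
    rw [pow_succ, sum_range_mul', Finset.prod_range_succ, ← ih, Finset.mul_sum]
    refine Finset.sum_congr rfl fun i hi => ?_
    rw [Finset.sum_mul]
    refine Finset.sum_congr rfl fun j hj => ?_
    rw [Finset.mem_range] at hi hj
    rw [Finset.prod_range_succ]
    congr 1
    · refine Finset.prod_congr rfl fun m hm => ?_
      rw [Finset.mem_range] at hm
      congr 1
      obtain ⟨r, hr⟩ := Nat.exists_eq_add_of_lt hm
      have h1 : j + b ^ n * i = j + b ^ m * (b * (b ^ r * i)) := by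
        rw [hr, pow_add, pow_add]; ring
      rw [h1, Nat.add_mul_div_left _ _ (by positivity), Nat.add_mul_mod_self_left]
    · congr 1
      rw [Nat.add_mul_div_left _ _ (by positivity), Nat.div_eq_of_lt hj, zero_add,
        Nat.mod_eq_of_lt hi]

theorem sum_digit_repr (b n y : ℕ) (hy : y < b ^ n) :
    ∑ m ∈ range n, (y / b ^ m % b) * b ^ m = y := by
  induction n generalizing y with
  | zero => simp at hy; simp [hy]
  | succ n ih =>
    rw [Finset.sum_range_succ']
    have h1 : ∀ m ∈ range n, (y / b ^ (m + 1) % b) * b ^ (m + 1) =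
        b * (((y / b) / b ^ m % b) * b ^ m) := by
      intro m _
      rw [pow_succ', ← Nat.div_div_eq_div_mul]
      ring
    rw [Finset.sum_congr rfl h1, ← Finset.mul_sum]
    rcases Nat.eq_zero_or_pos b with hb | hb
    · subst hb
      simp at hy
    · rw [ih (y / b) (by rw [Nat.div_lt_iff_lt_mul hb, ← pow_succ]; exact hy)]
      simp only [pow_zero, Nat.div_one, mul_one]
      exact Nat.div_add_mod y b

open Classical in
/-- Fourier coefficients of a cylinder -/
noncomputable def coef (b n : ℕ) (B : Finset ℕ) (z : ℕ → ℕ) (k : ℕ) : ℂ :=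
  (1 / ((b ^ n : ℕ) : ℂ)) * ∑ y ∈ range (b ^ n),
    (if Dig b B z y then 1 else 0) * e (-(y * ((k : ℝ) / b ^ n)))

open Classical in
theorem inversion {b n : ℕ} (hb : 1 ≤ b) {B : Finset ℕ} (hB : ∀ m ∈ B, m < n) (z : ℕ → ℕ) (x : ℤ) :
    (if Dig b B z x then (1 : ℂ) else 0) =
      ∑ k ∈ range (b ^ n), coef b n B z k * e (x * ((k : ℝ) / b ^ n)) := by
  have hM : 1 ≤ b ^ n := Nat.one_le_pow _ _ hb
  have hbR : (b : ℝ) ≠ 0 := by positivity
  have h1 : ∑ k ∈ range (b ^ n), coef b n B z k * e (x * ((k : ℝ) / b ^ n)) =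
      (1 / ((b ^ n : ℕ) : ℂ)) * ∑ y ∈ range (b ^ n), (if Dig b B z y then 1 else 0) *
        ∑ k ∈ range (b ^ n), e (k * (((x - y : ℤ) : ℝ) / (b ^ n : ℕ))) := by
    unfold coef
    simp only [Finset.mul_sum, Finset.sum_mul]
    rw [Finset.sum_comm]
    refine Finset.sum_congr rfl fun y _ => Finset.sum_congr rfl fun k _ => ?_
    have h2 : e (k * (((x - y : ℤ) : ℝ) / (b ^ n : ℕ))) =
        e (-(y * ((k : ℝ) / b ^ n))) * e (x * ((k : ℝ) / b ^ n)) := by
      rw [← e_add]
      congr 1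
      push_cast
      field_simp
      ring
    rw [h2]
    ring
  rw [h1]
  have hMz : (0 : ℤ) < ((b ^ n : ℕ) : ℤ) := by exact_mod_cast hM
  set y0 : ℕ := (x % ((b ^ n : ℕ) : ℤ)).toNat with hy0
  have hy0' : (y0 : ℤ) = x % ((b ^ n : ℕ) : ℤ) := Int.toNat_of_nonneg (Int.emod_nonneg _ hMz.ne')
  have hy0lt : y0 < b ^ n := by
    have := Int.emod_lt_of_pos x hMz
    rw [← hy0'] at this
    exact_mod_cast this
  rw [Finset.sum_eq_single y0]
  · have hdv : ((b ^ n : ℕ) : ℤ) ∣ x - (y0 : ℤ) := by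
      rw [hy0']
      exact Int.dvd_self_sub_emod
    rw [sum_e_int hM, if_pos hdv]
    have h3 : Dig b B z (y0 : ℤ) ↔ Dig b B z x := by
      apply Dig_congr hb hB
      rw [hy0']
      push_cast
      exact Int.emod_emod_of_dvd _ (dvd_refl _)
    simp only [h3]
    have : ((b ^ n : ℕ) : ℂ) ≠ 0 := by exact_mod_cast (by omega : b ^ n ≠ 0)
    field_simp
  · intro y hy hne
    have hdv : ¬ ((b ^ n : ℕ) : ℤ) ∣ x - (y : ℤ) := by
      intro hdvd
      apply hne
      rw [Finset.mem_range] at hy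
      have h4 : x % ((b ^ n : ℕ) : ℤ) = (y : ℤ) % ((b ^ n : ℕ) : ℤ) :=
        Int.emod_eq_emod_iff_emod_sub_eq_zero.2 (Int.emod_eq_zero_of_dvd hdvd)
      have h5 : (y : ℤ) % ((b ^ n : ℕ) : ℤ) = y :=
        Int.emod_eq_of_lt (by positivity) (by exact_mod_cast hy)
      rw [h5] at h4
      rw [hy0, h4]
      simp
    rw [sum_e_int hM, if_neg hdv, mul_zero]
  · intro h
    exact absurd (Finset.mem_range.2 hy0lt) h

theorem e_sum {α : Type*} (S : Finset α) (f : α → ℝ) : e (∑ i ∈ S, f i) = ∏ i ∈ S, e (f i) := by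
  classical
  induction S using Finset.induction_on with
  | empty => simp [e_zero]
  | insert a S ha ih => rw [Finset.sum_insert ha, Finset.prod_insert ha, e_add, ih]

open Classical in
theorem coef_eq {b n : ℕ} (hb : 1 ≤ b) {B : Finset ℕ} (hB : ∀ m ∈ B, m < n) (z : ℕ → ℕ) (k : ℕ) :
    coef b n B z k = (1 / ((b ^ n : ℕ) : ℂ)) * ∏ m ∈ range n, ∑ u ∈ range b,
      ((if m ∈ B then (if u = z m then (1 : ℂ) else 0) else 1) *
        e (-(u * ((k : ℝ) / b ^ (n - m))))) := by
  have hbR : (b : ℝ) ≠ 0 := by positivity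
  unfold coef
  rw [← sum_digits hb n]
  congr 1
  refine Finset.sum_congr rfl fun y hy => ?_
  rw [Finset.mem_range] at hy
  rw [Finset.prod_mul_distrib]
  congr 1
  · by_cases h : Dig b B z y
    · rw [if_pos h]
      symm
      apply Finset.prod_eq_one
      intro m _
      split_ifs with h1 h2
      · rfl
      · exfalso
        apply h2
        have := h m h1
        exact_mod_cast this
      · rfl
    · rw [if_neg h]
      symm
      unfold Dig at h
      push Not at h
      obtain ⟨m, hm, hne⟩ := h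
      apply Finset.prod_eq_zero (Finset.mem_range.2 (hB m hm))
      rw [if_pos hm, if_neg]
      intro h2
      apply hne
      exact_mod_cast h2
  · rw [← e_sum]
    congr 1
    have h1 := sum_digit_repr b n y hy
    have h2 : (y : ℝ) = ∑ m ∈ range n, ((y / b ^ m % b : ℕ) : ℝ) * (b : ℝ) ^ m := by
      exact_mod_cast h1.symm
    conv_lhs => rw [h2]
    rw [Finset.sum_mul, ← Finset.sum_neg_distrib]
    refine Finset.sum_congr rfl fun m hm => ?_
    rw [Finset.mem_range] at hm
    have h3 : (b : ℝ) ^ n = (b : ℝ) ^ m * (b : ℝ) ^ (n - m) := by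
      rw [← pow_add]; congr 1; omega
    rw [h3]
    field_simp

theorem norm_coef {b n : ℕ} (hb : 1 ≤ b) {B : Finset ℕ} (hB : ∀ m ∈ B, m < n) {z : ℕ → ℕ}
    (hz : ∀ m ∈ B, z m < b) (k : ℕ) :
    ‖coef b n B z k‖ = TT b (B.image fun m => n - m) n k := by
  classical
  have hbR : (b : ℝ) ≠ 0 := by positivity
  rw [coef_eq hb hB, norm_mul, norm_prod]
  have h0 : ‖(1 / ((b ^ n : ℕ) : ℂ))‖ = ∏ m ∈ range n, (1 / (b : ℝ)) := by
    rw [Finset.prod_const, Finset.card_range, norm_div, norm_one, Complex.norm_natCast]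
    push_cast
    rw [one_div_pow]
  rw [h0, ← Finset.prod_mul_distrib]
  unfold TT
  rw [← Finset.prod_range_reflect]
  refine Finset.prod_congr rfl fun q hq => ?_
  rw [Finset.mem_range] at hq
  have hnm : n - (n - 1 - q) = q + 1 := by omega
  have hmem : (q + 1 ∈ B.image fun m => n - m) ↔ n - 1 - q ∈ B := by
    rw [Finset.mem_image]
    constructor
    · rintro ⟨m, hm, h⟩
      have := hB m hm
      have : m = n - 1 - q := by omega
      rw [← this]; exact hm
    · intro h
      exact ⟨n - 1 - q, h, hnm⟩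
  rw [hnm]
  unfold fac
  by_cases h : n - 1 - q ∈ B
  · rw [if_pos (hmem.2 h)]
    simp only [if_pos h]
    have hz' := hz _ h
    rw [Finset.sum_eq_single (z (n - 1 - q))]
    · simp [norm_e]
    · intro u _ hu
      rw [if_neg hu, zero_mul]
    · intro h'
      exact absurd (Finset.mem_range.2 hz') h'
  · rw [if_neg (fun h' => h (hmem.1 h'))]
    simp only [if_neg h, one_mul]

/-- low order frequencies do not occur -/
theorem TT_eq_zero {b n i0 : ℕ} (hb : 1 ≤ b) {B : Finset ℕ} (hB : ∀ m ∈ B, i0 ≤ m ∧ m < n)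
    (hi0 : i0 ≤ n) {k : ℕ} (hk : ¬ b ^ n ∣ k) (hk' : b ^ n ∣ b ^ i0 * k) :
    TT b (B.image fun m => n - m) n k = 0 := by
  classical
  have hbR : (b : ℝ) ≠ 0 := by positivity
  -- smallest exponent
  have hex : ∃ m, b ^ n ∣ b ^ m * k := ⟨i0, hk'⟩
  set m := Nat.find hex with hm
  have hm1 : b ^ n ∣ b ^ m * k := Nat.find_spec hex
  have hm0 : m ≠ 0 := by
    intro h
    rw [h, pow_zero, one_mul] at hm1
    exact hk hm1
  have hmle : m ≤ i0 := Nat.find_min' hex hk'
  have hm2 : ¬ b ^ n ∣ b ^ (m - 1) * k := Nat.find_min hex (by omega)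
  unfold TT
  have hq : n - 1 - (m - 1) ∈ range n := Finset.mem_range.2 (by omega)
  apply Finset.prod_eq_zero hq
  have hq1 : n - 1 - (m - 1) + 1 = n - (m - 1) := by omega
  rw [hq1]
  unfold fac
  have hnot : n - (m - 1) ∉ B.image fun m => n - m := by
    rw [Finset.mem_image]
    rintro ⟨m', hm', h⟩
    have := hB m' hm'
    omega
  rw [if_neg hnot]
  have hsum : ∑ u ∈ range b, e (-(u * ((k : ℝ) / b ^ (n - (m - 1))))) = 0 := by
    set ζ : ℂ := e (-((k : ℝ) / b ^ (n - (m - 1)))) with hζ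
    have h1 : ∀ u ∈ range b, e (-(u * ((k : ℝ) / b ^ (n - (m - 1))))) = ζ ^ u := by
      intro u _
      rw [hζ, ← e_nat_mul]
      congr 1
      ring
    rw [Finset.sum_congr rfl h1]
    have hpow : (b : ℝ) ^ n = (b : ℝ) ^ (m - 1) * (b : ℝ) ^ (n - (m - 1)) := by
      rw [← pow_add]; congr 1; omega
    have h2 : ζ ≠ 1 := by
      intro h
      obtain ⟨r, hr⟩ := (e_eq_one_iff _).1 h
      apply hm2
      have h3 : ((b ^ (m - 1) * k : ℕ) : ℝ) = ((-(r * b ^ n) : ℤ) : ℝ) := by
        push_cast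
        rw [hpow]
        have : (k : ℝ) = -(r * (b : ℝ) ^ (n - (m - 1))) := by
          rw [neg_eq_iff_eq_neg, div_eq_iff (by positivity)] at hr
          rw [hr]; ring
        rw [this]
        ring
      have h4 : ((b ^ (m - 1) * k : ℕ) : ℤ) = -(r * b ^ n) := by exact_mod_cast h3
      have h5 : ((b ^ n : ℕ) : ℤ) ∣ ((b ^ (m - 1) * k : ℕ) : ℤ) := by
        rw [h4]
        exact ⟨-r, by push_cast; ring⟩
      exact_mod_cast h5
    have h3 : ζ ^ b = 1 := by
      rw [hζ, ← e_nat_mul, e_eq_one_iff]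
      obtain ⟨r, hr⟩ := hm1
      refine ⟨-r, ?_⟩
      have h4 : ((b : ℝ) ^ m) * k = (b : ℝ) ^ n * r := by exact_mod_cast hr
      have h5 : (b : ℝ) ^ m = (b : ℝ) ^ (m - 1) * b := by
        rw [← pow_succ]; congr 1; omega
      rw [h5, hpow] at h4
      have h6 : (b : ℝ) ^ (m - 1) ≠ 0 := by positivity
      have h7 : (b : ℝ) * k = (b : ℝ) ^ (n - (m - 1)) * r := by
        apply mul_left_cancel₀ h6
        linarith
      push_cast
      rw [mul_neg, neg_inj, mul_div_assoc', div_eq_iff (by positivity)]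
      linarith
    rw [geom_sum_eq h2, h3, sub_self, zero_div]
  rw [hsum, norm_zero, mul_zero]

theorem TT_zero {b n : ℕ} (hb : 1 ≤ b) {B : Finset ℕ} (hB : ∀ m ∈ B, m < n) :
    TT b (B.image fun m => n - m) n 0 = (1 / (b : ℝ)) ^ B.card := by
  classical
  have hbR : (b : ℝ) ≠ 0 := by positivity
  unfold TT
  have h1 : ∀ q ∈ range n, fac b (B.image fun m => n - m) (q + 1) 0 =
      if q ∈ B.image (fun m => n - 1 - m) then 1 / (b : ℝ) else 1 := by
    intro q hq
    rw [Finset.mem_range] at hq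
    have h2 : (q + 1 ∈ B.image fun m => n - m) ↔ q ∈ B.image fun m => n - 1 - m := by
      rw [Finset.mem_image, Finset.mem_image]
      constructor
      · rintro ⟨m, hm, h⟩
        exact ⟨m, hm, by omega⟩
      · rintro ⟨m, hm, h⟩
        have := hB m hm
        exact ⟨m, hm, by omega⟩
    unfold fac
    by_cases h : q ∈ B.image fun m => n - 1 - m
    · rw [if_pos (h2.2 h), if_pos h]
    · rw [if_neg (fun h' => h (h2.1 h')), if_neg h]
      simp [e_zero]
      field_simp
  rw [Finset.prod_congr rfl h1, Finset.prod_ite, Finset.prod_const, Finset.prod_const_one, mul_one]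
  congr 1
  have h3 : (range n).filter (fun q => q ∈ B.image fun m => n - 1 - m) =
      B.image fun m => n - 1 - m := by
    ext q
    rw [Finset.mem_filter, Finset.mem_range]
    constructor
    · exact fun h => h.2
    · intro h
      refine ⟨?_, h⟩
      obtain ⟨m, hm, rfl⟩ := Finset.mem_image.1 h
      have := hB m hm
      omega
  rw [h3]
  apply Finset.card_image_of_injOn
  intro a ha c hc h
  have := hB a ha
  have := hB c hc
  simp only at h
  omega

end Pool.Agent.H966R2.Kak
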