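import Pool.Agent.H966R2.Circ

/-!
Definitions for the Kakeya theorem.
-/

set_option autoImplicit false

namespace Pool.Agent.H966R2.Kak

open MeasureTheory Circ
open scoped ENNReal

/-- Euclidean space `ℝ^d` -/
abbrev Sp (d : ℕ) := EuclideanSpace ℝ (Fin d)

/-- the closed cylinder of length `1` and radius `δ` with axis in direction `e`, centred at `a` -/
def tube {d : ℕ} (δ : ℝ) (e a : Sp d) : Set (Sp d) :=
  {y | |inner ℝ (y - a) e| ≤ 1 / 2 ∧ ‖(y - a) - (inner ℝ (y - a) e : ℝ) • e‖ ≤ δ}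

/-- the Kakeya maximal function `f^*_δ` -/
noncomputable def kakeyaMax {d : ℕ} (δ : ℝ) (f : Sp d → ℝ) (e : Sp d) : ℝ≥0∞ :=
  ⨆ a : Sp d, (∫⁻ y in tube δ e a, ‖f y‖ₑ) / volume (tube δ e a)

/-- the word of the first `n` base `b` digits of all coordinates of a point of `[0,1)^d`; the
letter in position `(c, m)` is the digit of weight `b ^ m` of the integer `⌊b ^ n * x c⌋` -/
noncomputable def digits {d : ℕ} (b : ℕ) (hb : 0 < b) (n : ℕ) (x : Sp d) : Fin (d * n) → Fin b :=
  fun i => ⟨⌊(b : ℝ) ^ n * x (finProdFinEquiv.symm i).1⌋₊ / b ^ ((finProdFinEquiv.symm i).2 : ℕ) % b,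
    Nat.mod_lt _ hb⟩

/-- the union of the half-open `b`-adic cubes of side `b ^ (-n)` in `[0,1)^d` whose words of digits
are accepted by the gate `g` of the circuit `C` -/
def region {d b n : ℕ} (hb : 0 < b) {ι : Type} (C : ι → Gate (d * n) b ι) (g : ι) : Set (Sp d) :=
  {x | (∀ c, 0 ≤ x c ∧ x c < 1) ∧ Acc C (digits b hb n x) g}

/-- the words of digits of the points of `K`; for `K` in `[0,1)^d` they are in bijection with the
half-open `b`-adic cubes of side `b ^ (-n)` that meet `K` -/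
def cubes {d : ℕ} (b : ℕ) (hb : 0 < b) (n : ℕ) (K : Set (Sp d)) : Set (Fin (d * n) → Fin b) :=
  {w | ∃ x ∈ K, digits b hb n x = w}

/-- the set of words `W` is recognised by a decomposable circuit with at most `s` gates -/
def Recognised {N q : ℕ} (W : Set (Fin N → Fin q)) (s : ℝ) : Prop :=
  ∃ (ι : Type) (_ : Fintype ι) (C : ι → Gate N q ι) (g : ι), Decomposable C ∧
    (Fintype.card ι : ℝ) ≤ s ∧ ∀ w, Acc C w g ↔ w ∈ W

end Pool.Agent.H966R2.Kak
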