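import Mathlib

/-!
Fourier analysis of digit cylinders: the `ℓ¹` norm of the Fourier transform on `ℤ/b^n`.
-/

set_option autoImplicit false

namespace Pool.Agent.H966R2.Kak

open Finset Complex

/-- `e(x) = exp (2 π i x)` -/
noncomputable def e (x : ℝ) : ℂ := Complex.exp (2 * Real.pi * x * I)

theorem e_add (x y : ℝ) : e (x + y) = e x * e y := by
  unfold e
  rw [← Complex.exp_add]
  congr 1
  push_cast
  ring

theorem e_zero : e 0 = 1 := by
  simp [e]

theorem norm_e (x : ℝ) : ‖e x‖ = 1 := by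
  unfold e
  have : (2 * Real.pi * x * I : ℂ) = ((2 * Real.pi * x : ℝ) : ℂ) * I := by push_cast; ring
  rw [this, Complex.norm_exp_ofReal_mul_I]

theorem e_int (m : ℤ) : e m = 1 := by
  unfold e
  rw [Complex.exp_eq_one_iff]
  exact ⟨m, by push_cast; ring⟩

theorem e_nat_mul (u : ℕ) (x : ℝ) : e (u * x) = e x ^ u := by
  induction u with
  | zero => simp [e_zero]
  | succ u ih =>
    rw [pow_succ, ← ih, ← e_add]
    congr 1
    push_cast
    ring

theorem e_add_int (x : ℝ) (m : ℤ) : e (x + m) = e x := by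
  rw [e_add, e_int, mul_one]

theorem e_eq_one_iff (x : ℝ) : e x = 1 ↔ ∃ m : ℤ, x = m := by
  constructor
  · intro h
    unfold e at h
    rw [Complex.exp_eq_one_iff] at h
    obtain ⟨m, hm⟩ := h
    refine ⟨m, ?_⟩
    have h1 : (2 * Real.pi * I : ℂ) ≠ 0 := by
      simp [Real.pi_ne_zero, Complex.I_ne_zero]
    have h2 : (x : ℂ) * (2 * Real.pi * I) = m * (2 * Real.pi * I) := by
      rw [← hm]; ring
    have h3 := mul_right_cancel₀ h1 h2
    exact_mod_cast h3
  · rintro ⟨m, rfl⟩
    exact e_int m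

theorem conj_e (x : ℝ) : (starRingEnd ℂ) (e x) = e (-x) := by
  unfold e
  rw [← Complex.exp_conj]
  congr 1
  simp only [map_mul, Complex.conj_ofReal, Complex.conj_I, map_ofNat]
  push_cast
  ring

/-- the geometric sum bound -/
theorem norm_geom_le {Q : ℕ} {β : ℝ} (h0 : 0 < β) (h1 : β < 1) :
    ‖∑ u ∈ range Q, e (-(u * β))‖ ≤ 1 / (2 * min β (1 - β)) := by
  have hmin : 0 < min β (1 - β) := lt_min h0 (by linarith)
  set z : ℂ := e (-β) with hz
  have hz1 : ∀ u : ℕ, e (-(u * β)) = z ^ u := by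
    intro u
    rw [hz, ← e_nat_mul]
    congr 1
    ring
  have hsum : ∑ u ∈ range Q, e (-(u * β)) = ∑ u ∈ range Q, z ^ u :=
    Finset.sum_congr rfl fun u _ => hz1 u
  have hsin : 2 * min β (1 - β) ≤ Real.sin (Real.pi * β) := by
    rcases le_total β (1 / 2) with h | h
    · have h3 := Real.mul_le_sin (x := Real.pi * β) (by positivity) (by nlinarith [Real.pi_pos])
      have h4 : 2 / Real.pi * (Real.pi * β) = 2 * β := by field_simp
      rw [h4] at h3
      have := min_le_left β (1 - β)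
      linarith
    · have h3 := Real.mul_le_sin (x := Real.pi * (1 - β)) (by nlinarith [Real.pi_pos])
        (by nlinarith [Real.pi_pos])
      have h4 : 2 / Real.pi * (Real.pi * (1 - β)) = 2 * (1 - β) := by field_simp
      have h5 : Real.sin (Real.pi * (1 - β)) = Real.sin (Real.pi * β) := by
        rw [mul_sub, mul_one, Real.sin_pi_sub]
      rw [h4, h5] at h3
      have := min_le_right β (1 - β)
      linarith
  have hsinpos : 0 < Real.sin (Real.pi * β) := by linarith
  -- |z - 1| = 2 sin (π β)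
  have hnz : ‖z - 1‖ = 2 * Real.sin (Real.pi * β) := by
    have h3 : z = Complex.exp ((2 * Real.pi * (-β) : ℝ) * I) := by
      rw [hz]; unfold e; congr 1; push_cast; ring
    rw [h3, mul_comm _ I, Complex.norm_exp_I_mul_ofReal_sub_one]
    have h4 : 2 * Real.pi * (-β) / 2 = -(Real.pi * β) := by ring
    rw [h4, Real.sin_neg, mul_neg, Real.norm_eq_abs, abs_neg, abs_of_pos (by positivity)]
  have hz1' : z ≠ 1 := by
    intro h
    rw [h, sub_self, norm_zero] at hnz
    linarith
  rw [hsum, geom_sum_eq hz1', norm_div, hnz]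
  have h5 : ‖z ^ Q - 1‖ ≤ 2 := by
    refine (norm_sub_le _ _).trans ?_
    rw [norm_pow, hz, norm_e]
    norm_num
  rw [div_le_div_iff₀ (by positivity) (by positivity)]
  have h6 : 0 ≤ 2 * min β (1 - β) := by positivity
  nlinarith

theorem norm_sum_e_le (Q : ℕ) (f : ℕ → ℝ) : ‖∑ u ∈ range Q, e (f u)‖ ≤ Q := by
  refine (norm_sum_le _ _).trans ?_
  simp [norm_e]

/-- the Lebesgue constant -/
theorem lebesgue {Q : ℕ} (hQ : 1 ≤ Q) {α : ℝ} (h0 : 0 ≤ α) (h1 : α < 1 / Q) :
    ∑ l ∈ range Q, (1 / (Q : ℝ)) * ‖∑ u ∈ range Q, e (-(u * (α + l / Q)))‖ ≤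
      3 + Real.log Q := by
  have hQr : (1 : ℝ) ≤ Q := by exact_mod_cast hQ
  have hQ0 : (0 : ℝ) < Q := by linarith
  set h : ℕ → ℝ := fun l => if l = 0 then 1 else 1 / (2 * l) with hh
  have hnn : ∀ l, 0 ≤ h l := by
    intro l
    simp only [hh]
    split_ifs
    · norm_num
    · positivity
  have hterm : ∀ l ∈ range Q, (1 / (Q : ℝ)) * ‖∑ u ∈ range Q, e (-(u * (α + l / Q)))‖ ≤
      h l + h (Q - 1 - l) := by
    intro l hl
    rw [Finset.mem_range] at hl
    have htriv : (1 / (Q : ℝ)) * ‖∑ u ∈ range Q, e (-(u * (α + l / Q)))‖ ≤ 1 := by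
      have := norm_sum_e_le Q (fun u => -(u * (α + l / Q)))
      rw [one_div_mul_eq_div, div_le_one hQ0]
      exact this
    rcases Nat.eq_zero_or_pos l with hl0 | hl0
    · have : h l = 1 := by simp [hh, hl0]
      have := hnn (Q - 1 - l)
      linarith
    rcases Nat.eq_zero_or_pos (Q - 1 - l) with hl1 | hl1
    · have : h (Q - 1 - l) = 1 := by simp [hh, hl1]
      have := hnn l
      linarith
    · have hlr : (1 : ℝ) ≤ l := by exact_mod_cast hl0
      have hl1' : l + 2 ≤ Q := by omega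
      have hlQ : (l : ℝ) + 2 ≤ Q := by exact_mod_cast hl1'
      have hc : ((Q - 1 - l : ℕ) : ℝ) = Q - 1 - l := by
        have : Q - 1 - l = Q - (1 + l) := by omega
        rw [this, Nat.cast_sub (by omega)]
        push_cast
        ring
      set β : ℝ := α + l / Q with hβ
      have hb0 : (l : ℝ) / Q ≤ β := by rw [hβ]; linarith
      have hb1 : β < (l + 1) / Q := by
        rw [hβ, add_div]; linarith
      have hpos : 0 < β := lt_of_lt_of_le (by positivity) hb0
      have hlt1 : β < 1 := by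
        refine hb1.trans_le ?_
        rw [div_le_one hQ0]
        linarith
      have hg := norm_geom_le (Q := Q) hpos hlt1
      have hm : 1 / (2 * min β (1 - β)) ≤ Q * (1 / (2 * l) + 1 / (2 * (Q - 1 - l))) := by
        have hA : 0 < (Q : ℝ) - 1 - l := by linarith
        rcases le_total β (1 - β) with hle | hle
        · rw [min_eq_left hle]
          have h3 : 1 / (2 * β) ≤ Q * (1 / (2 * l)) := by
            rw [mul_one_div, div_le_div_iff₀ (by positivity) (by positivity)]
            rw [div_le_iff₀ hQ0] at hb0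
            linarith
          have h4 : 0 ≤ (Q : ℝ) * (1 / (2 * (Q - 1 - l))) := by positivity
          linarith
        · rw [min_eq_right hle]
          have h3 : 1 / (2 * (1 - β)) ≤ Q * (1 / (2 * (Q - 1 - l))) := by
            rw [mul_one_div, div_le_div_iff₀ (by linarith) (by positivity)]
            rw [lt_div_iff₀ hQ0] at hb1
            linarith
          have h4 : 0 ≤ (Q : ℝ) * (1 / (2 * l)) := by positivity
          linarith
      have h5 : h l = 1 / (2 * l) := by simp only [hh]; rw [if_neg (by omega)]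
      have h6 : h (Q - 1 - l) = 1 / (2 * (Q - 1 - l)) := by
        simp only [hh]; rw [if_neg (by omega), hc]
      rw [h5, h6, one_div_mul_eq_div, div_le_iff₀ hQ0]
      calc ‖∑ u ∈ range Q, e (-(u * β))‖ ≤ 1 / (2 * min β (1 - β)) := hg
        _ ≤ _ := hm
        _ = _ := by ring
  refine (Finset.sum_le_sum hterm).trans ?_
  rw [Finset.sum_add_distrib, Finset.sum_range_reflect h Q, ← two_mul]
  obtain ⟨Q', rfl⟩ : ∃ Q', Q = Q' + 1 := ⟨Q - 1, by omega⟩
  rw [Finset.sum_range_succ' h Q']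
  have h0' : h 0 = 1 := by simp [hh]
  have h7 : ∑ k ∈ range Q', h (k + 1) = (harmonic Q' : ℝ) / 2 := by
    unfold harmonic
    push_cast
    rw [Finset.sum_div]
    refine Finset.sum_congr rfl fun k _ => ?_
    simp only [hh]
    rw [if_neg (by omega)]
    push_cast
    rw [mul_comm (2 : ℝ), ← div_div, one_div]
  have h8 := harmonic_le_one_add_log Q'
  have h9 : Real.log Q' ≤ Real.log ((Q' + 1 : ℕ) : ℝ) := by
    rcases Nat.eq_zero_or_pos Q' with h | h
    · subst h
      simp
    · apply Real.log_le_log (by exact_mod_cast h)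
      push_cast
      linarith
  rw [h7, h0']
  linarith

theorem sum_range_mul' {M : Type*} [AddCommMonoid M] (a c : ℕ) (f : ℕ → M) :
    ∑ u ∈ range (a * c), f u = ∑ i ∈ range c, ∑ j ∈ range a, f (j + a * i) := by
  induction c with
  | zero => simp
  | succ c ih =>
    rw [Nat.mul_succ, Finset.sum_range_add, ih, Finset.sum_range_succ]
    congr 1
    refine Finset.sum_congr rfl fun j _ => ?_
    rw [add_comm]

/-- the factor of the position `q` -/
noncomputable def fac (b : ℕ) (B : Finset ℕ) (q k : ℕ) : ℝ :=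
  if q ∈ B then 1 / (b : ℝ) else (1 / (b : ℝ)) * ‖∑ u ∈ range b, e (-(u * ((k : ℝ) / b ^ q)))‖

noncomputable def TT (b : ℕ) (B : Finset ℕ) (p k : ℕ) : ℝ := ∏ q ∈ range p, fac b B (q + 1) k

noncomputable def UU (b : ℕ) (B : Finset ℕ) (p : ℕ) : ℝ := ∑ k ∈ range (b ^ p), TT b B p k

theorem fac_nonneg (b : ℕ) (B : Finset ℕ) (q k : ℕ) : 0 ≤ fac b B q k := by
  unfold fac
  split_ifs <;> positivity

theorem TT_nonneg (b : ℕ) (B : Finset ℕ) (p k : ℕ) : 0 ≤ TT b B p k :=
  Finset.prod_nonneg fun _ _ => fac_nonneg _ _ _ _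

theorem fac_periodic {b : ℕ} (hb : 1 ≤ b) (B : Finset ℕ) {q p : ℕ} (hq : q ≤ p) (k l : ℕ) :
    fac b B q (k + b ^ p * l) = fac b B q k := by
  unfold fac
  have hb0 : (b : ℝ) ≠ 0 := by
    have : (1 : ℝ) ≤ b := by exact_mod_cast hb
    positivity
  split_ifs with h
  · rfl
  · congr 2
    refine Finset.sum_congr rfl fun u _ => ?_
    obtain ⟨r, rfl⟩ := Nat.exists_eq_add_of_le hq
    have h1 : -((u : ℝ) * (((k + b ^ (q + r) * l : ℕ) : ℝ) / b ^ q)) =
        -((u : ℝ) * ((k : ℝ) / b ^ q)) + ((-(u * (b ^ r * l)) : ℤ) : ℝ) := by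
      push_cast
      rw [pow_add]
      field_simp
      ring
    rw [h1, e_add_int]

theorem TT_periodic {b : ℕ} (hb : 1 ≤ b) (B : Finset ℕ) (p k l : ℕ) :
    TT b B p (k + b ^ p * l) = TT b B p k := by
  unfold TT
  refine Finset.prod_congr rfl fun q hq => ?_
  rw [Finset.mem_range] at hq
  exact fac_periodic hb B (by omega) k l

theorem UU_of_mem {b : ℕ} (hb : 1 ≤ b) (B : Finset ℕ) {p : ℕ} (hp : p + 1 ∈ B) :
    UU b B (p + 1) = UU b B p := by
  have hb0 : (b : ℝ) ≠ 0 := by
    have : (1 : ℝ) ≤ b := by exact_mod_cast hb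
    positivity
  unfold UU
  rw [pow_succ, sum_range_mul']
  have h1 : ∀ i ∈ range b, ∑ j ∈ range (b ^ p), TT b B (p + 1) (j + b ^ p * i) =
      (1 / (b : ℝ)) * ∑ j ∈ range (b ^ p), TT b B p j := by
    intro i _
    rw [Finset.mul_sum]
    refine Finset.sum_congr rfl fun j _ => ?_
    unfold TT
    rw [Finset.prod_range_succ, mul_comm]
    congr 1
    · unfold fac
      rw [if_pos hp]
    · exact TT_periodic hb B p j i
  rw [Finset.sum_congr rfl h1, Finset.sum_const, Finset.card_range, nsmul_eq_mul]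
  field_simp

/-- product formula in a gap -/
theorem gap_prod {b : ℕ} (hb : 1 ≤ b) (B : Finset ℕ) (p0 m k : ℕ)
    (hgap : ∀ q, p0 < q → q ≤ p0 + m → q ∉ B) :
    ∏ i ∈ range m, fac b B (p0 + i + 1) k =
      (1 / ((b ^ m : ℕ) : ℝ)) * ‖∑ u ∈ range (b ^ m), e (-(u * ((k : ℝ) / b ^ (p0 + m))))‖ := by
  have hb0 : (b : ℝ) ≠ 0 := by
    have : (1 : ℝ) ≤ b := by exact_mod_cast hb
    positivity
  induction m with
  | zero => simp [e_zero]
  | succ m ih =>
    rw [Finset.prod_range_succ, ih (fun q h1 h2 => hgap q h1 (by omega))]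
    have h1 : fac b B (p0 + m + 1) k =
        (1 / (b : ℝ)) * ‖∑ u ∈ range b, e (-(u * ((k : ℝ) / b ^ (p0 + m + 1))))‖ := by
      unfold fac
      rw [if_neg (hgap _ (by omega) (by omega))]
    rw [h1]
    have h2 : ∑ u ∈ range (b ^ (m + 1)), e (-(u * ((k : ℝ) / b ^ (p0 + (m + 1))))) =
        (∑ u ∈ range (b ^ m), e (-(u * ((k : ℝ) / b ^ (p0 + m))))) *
          ∑ u ∈ range b, e (-(u * ((k : ℝ) / b ^ (p0 + m + 1)))) := by
      rw [pow_succ', sum_range_mul', Finset.sum_mul]
      refine Finset.sum_congr rfl fun i _ => ?_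
      rw [Finset.mul_sum]
      refine Finset.sum_congr rfl fun j _ => ?_
      rw [← e_add]
      congr 1
      have : p0 + (m + 1) = (p0 + m) + 1 := by ring
      rw [this, pow_succ]
      push_cast
      field_simp
      ring
    rw [h2, norm_mul]
    generalize ‖∑ u ∈ range (b ^ m), e (-(u * ((k : ℝ) / b ^ (p0 + m))))‖ = X
    generalize ‖∑ u ∈ range b, e (-(u * ((k : ℝ) / b ^ (p0 + m + 1))))‖ = Y
    push_cast
    rw [pow_succ]
    field_simp

theorem UU_gap {b : ℕ} (hb : 1 ≤ b) (B : Finset ℕ) (p0 m : ℕ)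
    (hgap : ∀ q, p0 < q → q ≤ p0 + m → q ∉ B) :
    UU b B (p0 + m) ≤ UU b B p0 * (3 + m * Real.log b) := by
  have hbr : (1 : ℝ) ≤ b := by exact_mod_cast hb
  have hb0 : (b : ℝ) ≠ 0 := by positivity
  unfold UU
  rw [pow_add, sum_range_mul', Finset.sum_comm, Finset.sum_mul]
  refine Finset.sum_le_sum fun k hk => ?_
  rw [Finset.mem_range] at hk
  have h1 : ∀ l ∈ range (b ^ m), TT b B (p0 + m) (k + b ^ p0 * l) =
      TT b B p0 k * ((1 / ((b ^ m : ℕ) : ℝ)) *
        ‖∑ u ∈ range (b ^ m), e (-(u * ((k : ℝ) / b ^ (p0 + m) + l / ((b ^ m : ℕ) : ℝ))))‖) := by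
    intro l _
    have h2 : TT b B (p0 + m) (k + b ^ p0 * l) = TT b B p0 (k + b ^ p0 * l) *
        ∏ i ∈ range m, fac b B (p0 + i + 1) (k + b ^ p0 * l) := by
      unfold TT
      rw [Finset.prod_range_add]
    rw [h2, TT_periodic hb, gap_prod hb B p0 m _ hgap]
    congr 3
    refine Finset.sum_congr rfl fun u _ => ?_
    congr 1
    push_cast
    rw [pow_add]
    field_simp
  rw [Finset.sum_congr rfl h1, ← Finset.mul_sum]
  apply mul_le_mul_of_nonneg_left _ (TT_nonneg _ _ _ _)
  have hQ : 1 ≤ b ^ m := Nat.one_le_pow _ _ hb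
  have h3 := lebesgue hQ (α := (k : ℝ) / b ^ (p0 + m)) (by positivity) (by
    rw [pow_add, div_lt_div_iff₀ (by positivity) (by positivity)]
    push_cast
    have : (k : ℝ) < (b : ℝ) ^ p0 := by exact_mod_cast hk
    have h4 : (0 : ℝ) < (b : ℝ) ^ m := by positivity
    nlinarith)
  refine h3.trans (le_of_eq ?_)
  push_cast
  rw [Real.log_pow]

/-- **The `ℓ¹` bound.** -/
theorem UU_le {b : ℕ} (hb : 1 ≤ b) (B : Finset ℕ) (hB : 0 ∉ B) {C ρ : ℝ} (hC : 1 ≤ C)
    (hρ : 1 ≤ ρ) (hCρ : ∀ m : ℕ, 3 + m * Real.log b ≤ C * ρ ^ m) (p : ℕ) :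
    UU b B p ≤ C ^ ((B.filter (· ≤ p)).card + 1) * ρ ^ p := by
  induction p using Nat.strong_induction_on with
  | _ p ih =>
  rcases Nat.eq_zero_or_pos p with hp0 | hp0
  · subst hp0
    have h1 : UU b B 0 = 1 := by simp [UU, TT]
    rw [h1]
    have := one_le_pow₀ (n := (B.filter (· ≤ 0)).card + 1) hC
    simpa using this
  obtain ⟨p', rfl⟩ : ∃ p', p = p' + 1 := ⟨p - 1, by omega⟩
  by_cases hpB : p' + 1 ∈ B
  · rw [UU_of_mem hb B hpB]
    refine (ih p' (by omega)).trans ?_
    apply mul_le_mul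
    · apply pow_le_pow_right₀ hC
      apply Nat.add_le_add_right
      apply Finset.card_le_card
      intro q hq
      rw [Finset.mem_filter] at hq ⊢
      exact ⟨hq.1, by omega⟩
    · exact pow_le_pow_right₀ hρ (by omega)
    · positivity
    · positivity
  · -- previous element of `B`
    set P : ℕ → Prop := fun q => q = 0 ∨ q ∈ B with hP
    have : DecidablePred P := fun q => by unfold P; infer_instance
    set p0 := Nat.findGreatest P p' with hp0def
    have hp0P : P p0 := Nat.findGreatest_spec (P := P) (Nat.zero_le p') (Or.inl rfl)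
    have hp0le : p0 ≤ p' := Nat.findGreatest_le p'
    have hgap : ∀ q, p0 < q → q ≤ p0 + (p' + 1 - p0) → q ∉ B := by
      intro q h1 h2 h3
      have h4 : q ≤ p' + 1 := by omega
      rcases Nat.lt_or_ge p' q with h5 | h5
      · have : q = p' + 1 := by omega
        rw [this] at h3
        exact hpB h3
      · exact Nat.findGreatest_is_greatest (P := P) h1 h5 (Or.inr h3)
    have hU := UU_gap hb B p0 (p' + 1 - p0) hgap
    rw [Nat.add_sub_cancel' (by omega : p0 ≤ p' + 1)] at hU
    have hm := hCρ (p' + 1 - p0)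
    have hUnn : ∀ r, 0 ≤ UU b B r := fun r => Finset.sum_nonneg fun _ _ => TT_nonneg _ _ _ _
    have h6 : UU b B (p' + 1) ≤ UU b B p0 * (C * ρ ^ (p' + 1 - p0)) :=
      hU.trans (mul_le_mul_of_nonneg_left hm (hUnn p0))
    have hρp : ρ ^ (p' + 1) = ρ ^ p0 * ρ ^ (p' + 1 - p0) := by
      rw [← pow_add]; congr 1; omega
    rcases hp0P with h0 | h0
    · rw [h0] at h6 hρp
      have h1 : UU b B 0 = 1 := by simp [UU, TT]
      rw [h1, one_mul] at h6
      refine h6.trans ?_
      rw [hρp, pow_zero, one_mul]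
      apply mul_le_mul_of_nonneg_right _ (by positivity)
      calc C = C ^ 1 := (pow_one C).symm
        _ ≤ _ := pow_le_pow_right₀ hC (by omega)
    · have hpos : 1 ≤ p0 := by
        rcases Nat.eq_zero_or_pos p0 with h | h
        · rw [h] at h0; exact absurd h0 hB
        · exact h
      obtain ⟨r, hr⟩ : ∃ r, p0 = r + 1 := ⟨p0 - 1, by omega⟩
      have h7 : UU b B p0 ≤ C ^ ((B.filter (· ≤ r)).card + 1) * ρ ^ r := by
        rw [hr, UU_of_mem hb B (by rw [← hr]; exact h0)]
        exact ih r (by omega)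
      have h8 : (B.filter (· ≤ r)).card + 1 ≤ (B.filter (· ≤ p' + 1)).card := by
        have : insert p0 (B.filter (· ≤ r)) ⊆ B.filter (· ≤ p' + 1) := by
          intro q hq
          rw [Finset.mem_insert] at hq
          rcases hq with rfl | hq
          · rw [Finset.mem_filter]; exact ⟨h0, by omega⟩
          · rw [Finset.mem_filter] at hq ⊢
            exact ⟨hq.1, by omega⟩
        have h9 := Finset.card_le_card this
        rw [Finset.card_insert_of_notMem] at h9
        · exact h9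
        · rw [Finset.mem_filter]; omega
      calc UU b B (p' + 1) ≤ UU b B p0 * (C * ρ ^ (p' + 1 - p0)) := h6
        _ ≤ (C ^ ((B.filter (· ≤ p' + 1)).card) * ρ ^ p0) * (C * ρ ^ (p' + 1 - p0)) := by
          apply mul_le_mul_of_nonneg_right _ (by positivity)
          refine h7.trans ?_
          apply mul_le_mul
          · exact pow_le_pow_right₀ hC h8
          · exact pow_le_pow_right₀ hρ (by omega)
          · positivity
          · positivity
        _ = _ := by rw [hρp, pow_succ]; ring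

end Pool.Agent.H966R2.Kak
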