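import Pool.Agent.H966R2.Kak.Asym

/-!
Lines: averaging, sub-segments.
-/

set_option autoImplicit false

namespace Pool.Agent.H966R2.Kak

open Finset Circ MeasureTheory Set
open scoped ENNReal

theorem vol_shift {G : Set ℝ} {N : ℕ} (hN : 1 ≤ N) (j : ℕ) :
    volume {s : ℝ | s ∈ Ico (0 : ℝ) 1 ∧ ((j : ℝ) + s) / N ∈ G} =
      N * volume (G ∩ Ico ((j : ℝ) / N) ((j + 1 : ℝ) / N)) := by
  have hN0 : (0 : ℝ) < N := by exact_mod_cast hN
  have h1 : {s : ℝ | s ∈ Ico (0 : ℝ) 1 ∧ ((j : ℝ) + s) / N ∈ G} =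
      (fun s => (j : ℝ) + s) ⁻¹' ((fun s => s * (N : ℝ)⁻¹) ⁻¹'
        (G ∩ Ico ((j : ℝ) / N) ((j + 1 : ℝ) / N))) := by
    ext s
    simp only [Set.mem_setOf_eq, Set.mem_preimage, Set.mem_inter_iff, Set.mem_Ico, ← div_eq_mul_inv]
    rw [div_le_div_iff_of_pos_right hN0, div_lt_div_iff_of_pos_right hN0]
    constructor
    · rintro ⟨⟨h1, h2⟩, h3⟩
      exact ⟨h3, by linarith, by linarith⟩
    · rintro ⟨h3, h1, h2⟩
      exact ⟨⟨by linarith, by linarith⟩, h3⟩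
  rw [h1, measure_preimage_add, Real.volume_preimage_mul_right (inv_ne_zero hN0.ne')]
  congr 1
  rw [inv_inv, abs_of_pos hN0, ENNReal.ofReal_natCast]

theorem vol_le_sum {G : Set ℝ} (hG1 : G ⊆ Icc 0 1) {N : ℕ} (hN : 1 ≤ N) :
    volume G ≤ ∑ j ∈ Finset.range N, volume (G ∩ Ico ((j : ℝ) / N) ((j + 1 : ℝ) / N)) := by
  have hN0 : (0 : ℝ) < N := by exact_mod_cast hN
  have h1 : G ⊆ (⋃ j ∈ Finset.range N, G ∩ Ico ((j : ℝ) / N) ((j + 1 : ℝ) / N)) ∪ {1} := by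
    intro x hx
    have hx01 := hG1 hx
    rcases eq_or_lt_of_le hx01.2 with h | h
    · exact Or.inr (by simpa using h)
    · left
      rw [Set.mem_iUnion₂]
      have h2 : 0 ≤ x * N := mul_nonneg hx01.1 hN0.le
      refine ⟨⌊x * N⌋₊, ?_, hx, ?_, ?_⟩
      · rw [Finset.mem_range]
        apply (Nat.floor_lt h2).2
        calc x * N < 1 * N := mul_lt_mul_of_pos_right h hN0
          _ = N := one_mul _
      · rw [div_le_iff₀ hN0]
        exact Nat.floor_le h2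
      · rw [lt_div_iff₀ hN0]
        exact Nat.lt_floor_add_one _
  refine (measure_mono h1).trans ((measure_union_le _ _).trans ?_)
  rw [measure_singleton, add_zero]
  exact measure_biUnion_finset_le _ _

open Classical in
theorem avg_shift {G : Set ℝ} (hG : MeasurableSet G) (hG1 : G ⊆ Icc 0 1) {N : ℕ} (hN : 1 ≤ N) :
    ∃ s ∈ Ico (0 : ℝ) 1, N * volume G ≤
      (((Finset.range N).filter fun j : ℕ => ((j : ℝ) + s) / N ∈ G).card : ℝ≥0∞) := by
  set f : ℝ → ℝ≥0∞ := fun s => (((Finset.range N).filter fun j : ℕ => ((j : ℝ) + s) / N ∈ G).card : ℝ≥0∞)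
    with hf
  have hf' : ∀ s, f s = ∑ j ∈ Finset.range N, {s : ℝ | ((j : ℝ) + s) / N ∈ G}.indicator 1 s := by
    intro s
    simp only [hf]
    rw [Finset.card_filter]
    push_cast
    refine Finset.sum_congr rfl fun j _ => ?_
    by_cases h : ((j : ℝ) + s) / N ∈ G
    · simp [h]
    · simp [h]
  have hmeas : ∀ j : ℕ, MeasurableSet {s : ℝ | ((j : ℝ) + s) / N ∈ G} := by
    intro j
    exact (measurable_const.add measurable_id).div_const _ hG
  have hint : ∫⁻ s in Ico (0 : ℝ) 1, f s = N * ∑ j ∈ Finset.range N,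
      volume (G ∩ Ico ((j : ℝ) / N) ((j + 1 : ℝ) / N)) := by
    simp_rw [hf']
    rw [lintegral_finset_sum _ (fun j _ => measurable_one.indicator (hmeas j)), Finset.mul_sum]
    refine Finset.sum_congr rfl fun j _ => ?_
    rw [lintegral_indicator_one (hmeas j), Measure.restrict_apply (hmeas j), ← vol_shift hN j]
    congr 1
    ext s
    simp only [Set.mem_inter_iff, Set.mem_setOf_eq]
    exact and_comm
  have hv : volume (Ico (0 : ℝ) 1) = 1 := by simp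
  have hfin : ∫⁻ s in Ico (0 : ℝ) 1, f s ≠ ∞ := by
    rw [hint]
    apply ENNReal.mul_ne_top (ENNReal.natCast_ne_top N)
    rw [ENNReal.sum_ne_top]
    intro j _
    refine ((measure_mono Set.inter_subset_right).trans_lt ?_).ne
    rw [Real.volume_Ico]
    exact ENNReal.ofReal_lt_top
  obtain ⟨s, hs, h⟩ := exists_setLAverage_le (μ := volume) (f := f) (s := Ico (0 : ℝ) 1)
    (by rw [hv]; exact one_ne_zero) measurableSet_Ico.nullMeasurableSet hfin
  refine ⟨s, hs, ?_⟩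
  rw [setLAverage_eq, hv, div_one] at h
  refine le_trans ?_ h
  rw [hint]
  exact mul_le_mul_right (vol_le_sum hG1 hN) _

/-- rescaling of a portion of a segment -/
theorem vol_scale {G : Set ℝ} {ρ t0 : ℝ} (hρ0 : 0 < ρ) (hρ1 : ρ ≤ 1) :
    volume (G ∩ Icc t0 (t0 + ρ)) ≤ volume {s : ℝ | s ∈ Icc (0 : ℝ) 1 ∧ t0 + s * ρ ∈ G} := by
  have h1 : {s : ℝ | s ∈ Icc (0 : ℝ) 1 ∧ t0 + s * ρ ∈ G} =
      (fun s => s * ρ) ⁻¹' ((fun s => t0 + s) ⁻¹' (G ∩ Icc t0 (t0 + ρ))) := by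
    ext s
    simp only [Set.mem_setOf_eq, Set.mem_preimage, Set.mem_inter_iff, Set.mem_Icc]
    constructor
    · rintro ⟨⟨h1, h2⟩, h3⟩
      exact ⟨h3, by nlinarith, by nlinarith⟩
    · rintro ⟨h3, h1, h2⟩
      refine ⟨⟨?_, ?_⟩, h3⟩
      · by_contra h; push Not at h; nlinarith
      · by_contra h; push Not at h; nlinarith
  rw [h1, Real.volume_preimage_mul_right hρ0.ne', measure_preimage_add]
  have h2 : (1 : ℝ≥0∞) ≤ ENNReal.ofReal |ρ⁻¹| := by
    rw [← ENNReal.ofReal_one]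
    apply ENNReal.ofReal_le_ofReal
    rw [abs_of_pos (by positivity)]
    exact (one_le_inv₀ hρ0).2 hρ1
  calc volume (G ∩ Icc t0 (t0 + ρ)) = 1 * volume (G ∩ Icc t0 (t0 + ρ)) := (one_mul _).symm
    _ ≤ _ := mul_le_mul_left h2 _

theorem sub_segment {G : Set ℝ} {ρ : ℝ} (hρ0 : 1 / 2 < ρ) (hρ1 : ρ ≤ 1) :
    ∃ t0 : ℝ, volume (G ∩ Icc 0 1) / 2 ≤ volume {s : ℝ | s ∈ Icc (0 : ℝ) 1 ∧ t0 + s * ρ ∈ G} := by
  by_contra hcon
  push Not at hcon
  have h1 := (vol_scale (G := G) (t0 := 0) (by linarith) hρ1).trans_lt (hcon 0)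
  have h2 := (vol_scale (G := G) (t0 := 1 - ρ) (by linarith) hρ1).trans_lt (hcon (1 - ρ))
  have h3 : volume (G ∩ Icc 0 1) ≤ volume (G ∩ Icc 0 (0 + ρ)) +
      volume (G ∩ Icc (1 - ρ) (1 - ρ + ρ)) := by
    refine (measure_mono ?_).trans (measure_union_le _ _)
    intro x hx
    by_cases h : x ≤ 0 + ρ
    · exact Or.inl ⟨hx.1, hx.2.1, h⟩
    · right
      push Not at h
      exact ⟨hx.1, by linarith, by linarith [hx.2.2]⟩
  have h4 := h3.trans_lt (ENNReal.add_lt_add h1 h2)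
  rw [ENNReal.add_halves] at h4
  exact lt_irrefl _ h4

end Pool.Agent.H966R2.Kak
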