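import Pool.Agent.H966R2.Kak.Geo1
import Pool.Agent.H966R2.Kak.Defs

/-!
Cubes: measurability and volume.
-/

set_option autoImplicit false

namespace Pool.Agent.H966R2.Kak

open Finset Circ MeasureTheory Set
open scoped ENNReal

variable {d b n : ℕ}

/-- the integer vector of a point -/
noncomputable def flr (b n : ℕ) (x : Sp d) : Fin d → ℤ := fun c => ⌊(b : ℝ) ^ n * x c⌋

theorem digits_eq_wrd (hb : 0 < b) {x : Sp d} (hx : ∀ c, 0 ≤ x c) :
    digits b hb n x = wrd b hb n (flr b n x) := by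
  funext i
  apply Fin.ext
  have h1 := dgt_eq (hb := hb) (x := flr b n x (finProdFinEquiv.symm i).1)
    (m := (finProdFinEquiv.symm i).2)
  have h2 : ((⌊(b : ℝ) ^ n * x (finProdFinEquiv.symm i).1⌋₊ : ℕ) : ℤ) =
      flr b n x (finProdFinEquiv.symm i).1 := by
    unfold flr
    exact Int.natCast_floor_eq_floor (mul_nonneg (by positivity) (hx _))
  have h3 : ((wrd b hb n (flr b n x) i : ℕ) : ℤ) = ((digits b hb n x i : ℕ) : ℤ) := by
    unfold wrd
    rw [h1, ← h2]
    unfold digits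
    push_cast
    rfl
  exact_mod_cast h3.symm

/-- the accepted integer vectors -/
def good (hb : 0 < b) {ι : Type} (C : ι → Gate (d * n) b ι) (g : ι) : Set (Fin d → ℤ) :=
  {k | (∀ c, 0 ≤ k c ∧ k c < (b : ℤ) ^ n) ∧ Acc C (wrd b hb n k) g}

theorem floor_range (hb : 0 < b) (y : ℝ) :
    (0 ≤ y ∧ y < 1) ↔ 0 ≤ ⌊(b : ℝ) ^ n * y⌋ ∧ ⌊(b : ℝ) ^ n * y⌋ < (b : ℤ) ^ n := by
  have hbn : (0 : ℝ) < (b : ℝ) ^ n := by positivity
  rw [Int.floor_nonneg, Int.floor_lt]
  push_cast
  constructor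
  · rintro ⟨h1, h2⟩
    exact ⟨by positivity, by nlinarith⟩
  · rintro ⟨h1, h2⟩
    refine ⟨?_, ?_⟩
    · by_contra h; push Not at h; nlinarith
    · by_contra h; push Not at h; nlinarith

theorem mem_region_iff (hb : 0 < b) {ι : Type} (C : ι → Gate (d * n) b ι) (g : ι) (x : Sp d) :
    x ∈ region hb C g ↔ flr b n x ∈ good hb C g := by
  unfold region good
  constructor
  · rintro ⟨h1, h2⟩
    refine ⟨fun c => (floor_range hb _).1 (h1 c), ?_⟩
    rwa [digits_eq_wrd hb fun c => (h1 c).1] at h2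
  · rintro ⟨h1, h2⟩
    have h3 : ∀ c, 0 ≤ x c ∧ x c < 1 := fun c => (floor_range hb _).2 (h1 c)
    refine ⟨h3, ?_⟩
    rwa [digits_eq_wrd hb fun c => (h3 c).1]

theorem measurable_flr : Measurable (flr b n : Sp d → Fin d → ℤ) := by
  refine measurable_pi_lambda _ fun c => ?_
  unfold flr
  refine Int.measurable_floor.comp (Measurable.const_mul ?_ _)
  exact (continuous_apply c |>.comp (PiLp.continuous_ofLp 2 _)).measurable

theorem measurableSet_region (hb : 0 < b) {ι : Type} (C : ι → Gate (d * n) b ι) (g : ι) :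
    MeasurableSet (region hb C g) := by
  have : region hb C g = (flr b n) ⁻¹' (good hb C g) := by
    ext x
    exact mem_region_iff hb C g x
  rw [this]
  exact measurable_flr (Set.to_countable _).measurableSet

theorem volume_cell (hb : 0 < b) (k : Fin d → ℤ) :
    volume {x : Sp d | flr b n x = k} = (ENNReal.ofReal (((b : ℝ) ^ n)⁻¹)) ^ d := by
  have hbn : (0 : ℝ) < (b : ℝ) ^ n := by positivity
  have h1 : {x : Sp d | flr b n x = k} = (WithLp.ofLp) ⁻¹'
      (Set.pi Set.univ fun c => Ico ((k c : ℝ) / (b : ℝ) ^ n) ((k c + 1 : ℝ) / (b : ℝ) ^ n)) := by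
    ext x
    simp only [Set.mem_ofPred_eq, Set.mem_preimage, Set.mem_pi, Set.mem_univ, true_imp_iff,
      Set.mem_Ico]
    rw [funext_iff]
    refine forall_congr' fun c => ?_
    unfold flr
    rw [Int.floor_eq_iff, div_le_iff₀ hbn, lt_div_iff₀ hbn, mul_comm]
  rw [h1, (PiLp.volume_preserving_ofLp (Fin d)).measure_preimage
    (MeasurableSet.univ_pi fun _ => measurableSet_Ico).nullMeasurableSet, Real.volume_pi_Ico]
  have h2 : ∀ c : Fin d, ENNReal.ofReal ((k c + 1 : ℝ) / (b : ℝ) ^ n - (k c : ℝ) / (b : ℝ) ^ n) =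
      ENNReal.ofReal (((b : ℝ) ^ n)⁻¹) := by
    intro c
    congr 1
    field_simp
    ring
  simp only [h2, Finset.prod_const, Finset.card_univ, Fintype.card_fin]

/-- the integer vector of a word -/
def vecOf (w : Fin (d * n) → Fin b) : Fin d → ℤ :=
  fun c => ((finFunctionFinEquiv (fun m : Fin n => w (finProdFinEquiv (c, m))) : Fin (b ^ n)) : ℕ)

theorem wrd_vecOf (hb : 0 < b) (w : Fin (d * n) → Fin b) : wrd b hb n (vecOf w) = w := by
  funext i
  apply Fin.ext
  have h1 := dgt_eq (hb := hb) (x := vecOf w (finProdFinEquiv.symm i).1)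
    (m := (finProdFinEquiv.symm i).2)
  have h2 : ((w i : ℕ) : ℤ) = (vecOf w (finProdFinEquiv.symm i).1 /
      (b : ℤ) ^ ((finProdFinEquiv.symm i).2 : ℕ)) % b := by
    unfold vecOf
    have h3 := finFunctionFinEquiv_symm_apply_val (finFunctionFinEquiv
      (fun m : Fin n => w (finProdFinEquiv ((finProdFinEquiv.symm i).1, m))))
      (finProdFinEquiv.symm i).2
    rw [Equiv.symm_apply_apply] at h3
    rw [Prod.mk.eta, Equiv.apply_symm_apply] at h3
    rw [h3]
    push_cast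
    rfl
  have h3 : ((wrd b hb n (vecOf w) i : ℕ) : ℤ) = ((w i : ℕ) : ℤ) := by
    rw [h2]
    exact h1
  exact_mod_cast h3

theorem vecOf_mem (hb : 0 < b) {ι : Type} {C : ι → Gate (d * n) b ι} {g : ι}
    {w : Fin (d * n) → Fin b} (hw : Acc C w g) : vecOf w ∈ good hb C g := by
  refine ⟨fun c => ⟨by unfold vecOf; positivity, ?_⟩, by rwa [wrd_vecOf hb]⟩
  unfold vecOf
  exact_mod_cast (finFunctionFinEquiv (fun m : Fin n => w (finProdFinEquiv (c, m)))).isLt

theorem volume_region_ge (hb : 0 < b) {ι : Type} (C : ι → Gate (d * n) b ι) (g : ι) :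
    (({w | Acc C w g} : Set (Fin (d * n) → Fin b)).ncard : ℝ≥0∞) *
      (ENNReal.ofReal (((b : ℝ) ^ n)⁻¹)) ^ d ≤ volume (region hb C g) := by
  classical
  have hfin : ({w | Acc C w g} : Set (Fin (d * n) → Fin b)).Finite := Set.toFinite _
  have hinj : Function.Injective (vecOf : (Fin (d * n) → Fin b) → Fin d → ℤ) := by
    intro w w' h
    rw [← wrd_vecOf hb w, ← wrd_vecOf hb w', h]
  have h1 : volume (⋃ w ∈ hfin.toFinset, {x : Sp d | flr b n x = vecOf w}) =
      ∑ w ∈ hfin.toFinset, volume {x : Sp d | flr b n x = vecOf w} := by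
    refine measure_biUnion_finset ?_ ?_
    · intro w _ w' _ hne
      rw [Function.onFun, Set.disjoint_left]
      intro x hx hx'
      apply hne
      apply hinj
      rw [← (show flr b n x = vecOf w from hx)]
      exact hx'
    · intro w _
      exact measurable_flr (measurableSet_singleton _)
  have h2 : (⋃ w ∈ hfin.toFinset, {x : Sp d | flr b n x = vecOf w}) ⊆ region hb C g := by
    intro x hx
    rw [Set.mem_iUnion₂] at hx
    obtain ⟨w, hw, hx⟩ := hx
    rw [mem_region_iff, show flr b n x = vecOf w from hx]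
    exact vecOf_mem hb ((Set.Finite.mem_toFinset hfin).1 hw)
  refine le_trans (le_of_eq ?_) (measure_mono h2)
  rw [h1]
  simp only [volume_cell hb, Finset.sum_const, nsmul_eq_mul]
  rw [← Set.ncard_eq_toFinset_card _ hfin]

/-- from a real line to an arithmetic progression of integer vectors -/
theorem to_progression (hb : 0 < b) {ι : Type} (C : ι → Gate (d * n) b ι) (g : ι)
    (α : Fin d → ℝ) (Z : Fin d → ℤ) (i0 : ℕ) :
    ∃ A : Fin d → ℤ, ∃ J : Finset ℕ, J ⊆ Finset.range (b ^ i0) ∧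
      (b ^ i0 : ℕ) * volume {t : ℝ | t ∈ Icc (0 : ℝ) 1 ∧ (fun c => ⌊α c + t * Z c⌋) ∈ good hb C g} ≤
        (J.card : ℝ≥0∞) ∧
      ∀ j ∈ J, Acc C (wrd b hb n (fun c => (A c + (j : ℤ) * Z c) / (b : ℤ) ^ i0)) g := by
  classical
  set G := {t : ℝ | t ∈ Icc (0 : ℝ) 1 ∧ (fun c => ⌊α c + t * Z c⌋) ∈ good hb C g} with hG
  have hGm : MeasurableSet G := by
    have h1 : Measurable fun t : ℝ => (fun c => ⌊α c + t * Z c⌋ : Fin d → ℤ) := by
      refine measurable_pi_lambda _ fun c => ?_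
      exact Int.measurable_floor.comp (measurable_const.add (measurable_id.mul_const _))
    exact measurableSet_Icc.inter (h1 (Set.to_countable (good hb C g)).measurableSet)
  have hN : 1 ≤ b ^ i0 := Nat.one_le_pow _ _ hb
  obtain ⟨s, _, hs⟩ := avg_shift hGm (fun t ht => ht.1) hN
  refine ⟨fun c => ⌊((b ^ i0 : ℕ) : ℝ) * α c + s * Z c⌋,
    (Finset.range (b ^ i0)).filter fun j : ℕ => ((j : ℝ) + s) / (b ^ i0 : ℕ) ∈ G,
    Finset.filter_subset _ _, by convert hs, ?_⟩
  intro j hj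
  have h1 := ((Finset.mem_filter.1 hj).2).2.2
  have hN0 : (0 : ℝ) < ((b ^ i0 : ℕ) : ℝ) := by exact_mod_cast hN
  have h2 : (fun c => ⌊α c + ((j : ℝ) + s) / (b ^ i0 : ℕ) * Z c⌋) =
      fun c => (⌊((b ^ i0 : ℕ) : ℝ) * α c + s * Z c⌋ + (j : ℤ) * Z c) / (b : ℤ) ^ i0 := by
    funext c
    have h3 : α c + ((j : ℝ) + s) / (b ^ i0 : ℕ) * Z c =
        (((b ^ i0 : ℕ) : ℝ) * α c + s * Z c + ((j : ℤ) * Z c : ℤ)) / ((b ^ i0 : ℕ) : ℝ) := by
      push_cast
      field_simp
      ring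
    rw [h3, Int.floor_div_natCast, Int.floor_add_intCast]
    push_cast
    rfl
  rwa [h2] at h1

/-- rounding the direction -/
theorem round_direction (hb : 0 < b) {ι : Type} (C : ι → Gate (d * n) b ι) (g : ι)
    (a v : Sp d) :
    ∃ α : Fin d → ℝ, volume {t : ℝ | t ∈ Icc (0 : ℝ) 1 ∧ a + t • v ∈ region hb C g} ≤
      2 ^ d * volume {t : ℝ | t ∈ Icc (0 : ℝ) 1 ∧ (fun c => ⌊α c + t * flr b n v c⌋) ∈ good hb C g} := by
  classical
  set G : (Fin d → Bool) → Set ℝ := fun ω => {t : ℝ | t ∈ Icc (0 : ℝ) 1 ∧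
    (fun c => ⌊((b : ℝ) ^ n * a c + (if ω c then 1 else 0)) + t * flr b n v c⌋) ∈ good hb C g} with hG
  obtain ⟨ω0, _, hω0⟩ := Finset.exists_max_image (Finset.univ : Finset (Fin d → Bool))
    (fun ω => volume (G ω)) ⟨fun _ => false, Finset.mem_univ _⟩
  refine ⟨fun c => (b : ℝ) ^ n * a c + (if ω0 c then 1 else 0), ?_⟩
  have h1 : {t : ℝ | t ∈ Icc (0 : ℝ) 1 ∧ a + t • v ∈ region hb C g} ⊆
      ⋃ ω ∈ (Finset.univ : Finset (Fin d → Bool)), G ω := by
    rintro t ⟨ht, hx⟩
    rw [mem_region_iff] at hx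
    rw [Set.mem_iUnion₂]
    refine ⟨fun c => decide (⌊(b : ℝ) ^ n * a c + t * flr b n v c⌋ + 1 =
      flr b n (a + t • v) c), Finset.mem_univ _, ht, ?_⟩
    convert hx using 1
    funext c
    set u := (b : ℝ) ^ n * a c + t * flr b n v c with hu
    have h2 : (b : ℝ) ^ n * (a + t • v) c = u + t * ((b : ℝ) ^ n * v c - flr b n v c) := by
      rw [hu]
      simp only [PiLp.add_apply, PiLp.smul_apply, smul_eq_mul]
      ring
    have h3 : 0 ≤ (b : ℝ) ^ n * v c - flr b n v c := sub_nonneg.2 (Int.floor_le _)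
    have h4 : (b : ℝ) ^ n * v c - flr b n v c < 1 := by
      have := Int.lt_floor_add_one ((b : ℝ) ^ n * v c)
      unfold flr
      linarith
    have h5 : 0 ≤ t * ((b : ℝ) ^ n * v c - flr b n v c) := mul_nonneg ht.1 h3
    have h6 : t * ((b : ℝ) ^ n * v c - flr b n v c) < 1 := by
      nlinarith [ht.2, ht.1]
    have h7 : flr b n (a + t • v) c = ⌊u + t * ((b : ℝ) ^ n * v c - flr b n v c)⌋ := by
      show ⌊(b : ℝ) ^ n * (a + t • v) c⌋ = _
      rw [h2]
    have h8 : ⌊u⌋ ≤ flr b n (a + t • v) c := by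
      rw [h7]
      exact Int.floor_le_floor (by linarith)
    have h9 : flr b n (a + t • v) c ≤ ⌊u⌋ + 1 := by
      rw [h7]
      have : u + t * ((b : ℝ) ^ n * v c - flr b n v c) < ⌊u⌋ + 1 + 1 := by
        have := Int.lt_floor_add_one u
        linarith
      exact Int.lt_add_one_iff.1 (Int.floor_lt.2 (by push_cast; exact this))
    have h10 : (b : ℝ) ^ n * a c + (if (decide (⌊u⌋ + 1 = flr b n (a + t • v) c)) = true then 1 else 0) +
        t * flr b n v c = u + (if ⌊u⌋ + 1 = flr b n (a + t • v) c then (1 : ℤ) else 0 : ℤ) := by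
      rw [hu]
      split_ifs with h h' h' <;> simp_all <;> ring
    rw [h10, Int.floor_add_intCast]
    split_ifs with h
    · exact h
    · omega
  calc volume {t : ℝ | t ∈ Icc (0 : ℝ) 1 ∧ a + t • v ∈ region hb C g} ≤
      volume (⋃ ω ∈ (Finset.univ : Finset (Fin d → Bool)), G ω) := measure_mono h1
    _ ≤ ∑ ω ∈ (Finset.univ : Finset (Fin d → Bool)), volume (G ω) := measure_biUnion_finset_le _ _
    _ ≤ ∑ _ω ∈ (Finset.univ : Finset (Fin d → Bool)), volume (G ω0) :=
        Finset.sum_le_sum fun ω hω => hω0 ω hω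
    _ = 2 ^ d * volume (G ω0) := by simp

end Pool.Agent.H966R2.Kak
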