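import Pool.Agent.H966R2.Kak.Geo2

/-!
Directions, the core statement, tubes.
-/

set_option autoImplicit false

namespace Pool.Agent.H966R2.Kak

open Finset Circ MeasureTheory Set Filter Metric
open scoped ENNReal Pointwise

variable {d b n : ℕ}

theorem enn_quarter {x y : ℝ≥0∞} (hx : x ≠ ∞) (h3 : x ≤ y + 3 / 4 * x) : x ≤ 4 * y := by
  rcases eq_or_ne y ∞ with hy' | hy'
  · rw [hy']
    simp
  lift x to NNReal using hx
  lift y to NNReal using hy'
  have h5 : (3 / 4 : ℝ≥0∞) = ((3 / 4 : NNReal) : ℝ≥0∞) := by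
    rw [ENNReal.coe_div (by norm_num)]
    norm_num
  rw [h5] at h3
  have h4 : x ≤ y + 3 / 4 * x := by exact_mod_cast h3
  have h6 : x ≤ 4 * y := by
    have h7 : (x : ℝ) ≤ y + 3 / 4 * x := by exact_mod_cast h4
    have h8 : (x : ℝ) ≤ 4 * y := by linarith
    exact_mod_cast h8
  exact_mod_cast h6

/-- the part of the cone over `Θ` with radii in `(1/2, 1)` is a quarter of the cone -/
theorem cone_le (hd : 1 ≤ d) (T : Set (Sp d)) (hT : T ⊆ sphere 0 1) :
    volume (Ioo (0 : ℝ) 1 • T) ≤ 4 * volume (Ioo (1 / 2 : ℝ) 1 • T) := by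
  have h1 : Ioo (0 : ℝ) 1 • T ⊆ (Ioo (1 / 2 : ℝ) 1 • T) ∪ ((3 / 4 : ℝ) • (Ioo (0 : ℝ) 1 • T)) := by
    rintro x ⟨r, hr, e, he, rfl⟩
    simp only at *
    by_cases h : 1 / 2 < r
    · exact Or.inl (Set.smul_mem_smul ⟨h, hr.2⟩ he)
    · right
      push Not at h
      refine ⟨(4 / 3 * r) • e, Set.smul_mem_smul ⟨by linarith [hr.1], by linarith⟩ he, ?_⟩
      simp only
      rw [smul_smul]
      congr 1
      ring
  have h2 : volume ((3 / 4 : ℝ) • (Ioo (0 : ℝ) 1 • T)) ≤ 3 / 4 * volume (Ioo (0 : ℝ) 1 • T) := by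
    rw [Measure.addHaar_smul]
    apply mul_le_mul_left
    rw [finrank_euclideanSpace, Fintype.card_fin, abs_of_pos (by positivity)]
    have h3 : (3 / 4 : ℝ) ^ d ≤ 3 / 4 := by
      calc (3 / 4 : ℝ) ^ d ≤ (3 / 4) ^ 1 := pow_le_pow_of_le_one (by norm_num) (by norm_num) hd
        _ = _ := pow_one _
    calc ENNReal.ofReal ((3 / 4 : ℝ) ^ d) ≤ ENNReal.ofReal (3 / 4) := ENNReal.ofReal_le_ofReal h3
      _ = 3 / 4 := by
        rw [ENNReal.ofReal_div_of_pos (by norm_num)]
        norm_num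
  have hfin : volume (Ioo (0 : ℝ) 1 • T) ≠ ∞ := by
    have h4 : Ioo (0 : ℝ) 1 • T ⊆ ball 0 1 := by
      rintro x ⟨r, hr, e, he, rfl⟩
      simp only
      have h5 := hT he
      rw [mem_sphere_zero_iff_norm] at h5
      rw [mem_ball_zero_iff, norm_smul, h5, mul_one, Real.norm_of_nonneg hr.1.le]
      exact hr.2
    exact ((measure_mono h4).trans_lt measure_ball_lt_top).ne
  have h3 : volume (Ioo (0 : ℝ) 1 • T) ≤ volume (Ioo (1 / 2 : ℝ) 1 • T) +
      3 / 4 * volume (Ioo (0 : ℝ) 1 • T) :=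
    (measure_mono h1).trans ((measure_union_le _ _).trans (add_le_add_right h2 _))
  exact enn_quarter hfin h3

open Classical in
/-- the integer directions seen by `Θ` -/
noncomputable def dirs (b n : ℕ) (T : Set (Sp d)) : Finset (Fin d → ℤ) :=
  (Fintype.piFinset fun _ : Fin d => Finset.Icc (-((b : ℤ) ^ n)) ((b : ℤ) ^ n - 1)).filter
    fun Z => ∃ e ∈ T, ∃ ρ ∈ Ioo (1 / 2 : ℝ) 1, flr b n (ρ • e) = Z

theorem volume_cone_le (hb : 0 < b) (T : Set (Sp d)) (hT : T ⊆ sphere 0 1) :
    volume (Ioo (1 / 2 : ℝ) 1 • T) ≤ (dirs b n T).card * (ENNReal.ofReal (((b : ℝ) ^ n)⁻¹)) ^ d := by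
  classical
  have hbn : (0 : ℝ) < (b : ℝ) ^ n := by positivity
  have h1 : Ioo (1 / 2 : ℝ) 1 • T ⊆ ⋃ Z ∈ dirs b n T, {x : Sp d | flr b n x = Z} := by
    rintro x ⟨r, hr, e, he, rfl⟩
    simp only
    rw [Set.mem_iUnion₂]
    refine ⟨flr b n (r • e), ?_, rfl⟩
    unfold dirs
    rw [Finset.mem_filter, Fintype.mem_piFinset]
    refine ⟨fun c => ?_, e, he, r, hr, rfl⟩
    have h2 : |(r • e) c| < 1 := by
      have h3 : ‖(r • e) c‖ ≤ ‖r • e‖ := PiLp.norm_apply_le _ _
      have h4 := hT he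
      rw [mem_sphere_zero_iff_norm] at h4
      have h5 : ‖r • e‖ = r := by
        rw [norm_smul, h4, mul_one, Real.norm_of_nonneg (by linarith [hr.1])]
      rw [h5] at h3
      exact lt_of_le_of_lt h3 hr.2
    rw [abs_lt] at h2
    unfold flr
    rw [Finset.mem_Icc]
    constructor
    · rw [Int.le_floor]
      push_cast
      nlinarith [h2.1]
    · rw [Int.le_sub_one_iff, Int.floor_lt]
      push_cast
      nlinarith [h2.2]
  refine (measure_mono h1).trans ((measure_biUnion_finset_le _ _).trans ?_)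
  simp only [volume_cell hb, Finset.sum_const, nsmul_eq_mul]
  exact le_rfl

/-- the reduced directions -/
noncomputable def rdirs (b n : ℕ) (T : Set (Sp d)) : Finset (Fin d → ℕ) :=
  (dirs b n T).image fun Z c => (Z c % (b : ℤ) ^ n).toNat

theorem rdirs_subset (hb : 0 < b) (T : Set (Sp d)) : rdirs b n T ⊆ cube d (b ^ n) := by
  classical
  intro V hV
  unfold rdirs at hV
  obtain ⟨Z, _, rfl⟩ := Finset.mem_image.1 hV
  unfold cube
  rw [Fintype.mem_piFinset]
  intro c
  rw [Finset.mem_range]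
  have hbn : (0 : ℤ) < (b : ℤ) ^ n := by positivity
  have h1 := Int.emod_lt_of_pos (Z c) hbn
  have h2 := Int.emod_nonneg (Z c) hbn.ne'
  zify
  rw [Int.toNat_of_nonneg h2]
  exact h1

theorem card_dirs_le (hb : 0 < b) (T : Set (Sp d)) :
    (dirs b n T).card ≤ 2 ^ d * (rdirs b n T).card := by
  classical
  have hbn : (0 : ℤ) < (b : ℤ) ^ n := by positivity
  refine Finset.card_le_mul_card_image _ _ ?_
  intro V _
  have h1 : (Fintype.piFinset fun _ : Fin d => ({-1, 0} : Finset ℤ)).card = 2 ^ d := by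
    rw [Fintype.card_piFinset]
    simp
  rw [← h1]
  refine Finset.card_le_card_of_injOn (fun Z c => Z c / (b : ℤ) ^ n) ?_ ?_
  · intro Z hZ
    rw [Finset.mem_coe, Finset.mem_filter] at hZ
    rw [Finset.mem_coe, Fintype.mem_piFinset]
    intro c
    have h2 := hZ.1
    unfold dirs at h2
    rw [Finset.mem_filter, Fintype.mem_piFinset] at h2
    have h3 := Finset.mem_Icc.1 (h2.1 c)
    have h4 : -1 ≤ Z c / (b : ℤ) ^ n := by
      rw [Int.le_ediv_iff_mul_le hbn]
      linarith
    have h5 : Z c / (b : ℤ) ^ n < 1 := by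
      rw [Int.ediv_lt_iff_lt_mul hbn]
      linarith
    show Z c / (b : ℤ) ^ n ∈ ({-1, 0} : Finset ℤ)
    rw [Finset.mem_insert, Finset.mem_singleton]
    omega
  · intro Z hZ Z' hZ' h
    rw [Finset.mem_coe, Finset.mem_filter] at hZ hZ'
    funext c
    have h2 : Z c / (b : ℤ) ^ n = Z' c / (b : ℤ) ^ n := congrFun h c
    have h3 : (Z c % (b : ℤ) ^ n).toNat = (Z' c % (b : ℤ) ^ n).toNat := by
      have := hZ.2.trans hZ'.2.symm
      exact congrFun this c
    have h4 := Int.emod_nonneg (Z c) hbn.ne'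
    have h5 := Int.emod_nonneg (Z' c) hbn.ne'
    have h6 : Z c % (b : ℤ) ^ n = Z' c % (b : ℤ) ^ n := by omega
    rw [← Int.emod_add_mul_ediv (Z c) ((b : ℤ) ^ n), ← Int.emod_add_mul_ediv (Z' c) ((b : ℤ) ^ n),
      h2, h6]

/-- tubes: a large value of the maximal function gives a line with a large intersection -/
theorem line_of_tube (E : Set (Sp d)) (hE : MeasurableSet E) {r : ℝ} {e : Sp d}
    (he : ‖e‖ = 1) {μ : ℝ≥0∞} (hμ : μ < kakeyaMax r (E.indicator 1) e) :
    ∃ a : Sp d, μ ≤ volume {t : ℝ | t ∈ Icc (0 : ℝ) 1 ∧ a + t • e ∈ E} := by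
  unfold kakeyaMax at hμ
  rw [lt_iSup_iff] at hμ
  obtain ⟨a, ha⟩ := hμ
  set T := tube r e a with hT
  have hee : inner ℝ e e = (1 : ℝ) := by rw [real_inner_self_eq_norm_sq, he]; norm_num
  have hTm : MeasurableSet T := by
    have h1 : Continuous fun y : Sp d => inner ℝ (y - a) e := by fun_prop
    have h2 : Continuous fun y : Sp d => ‖(y - a) - (inner ℝ (y - a) e : ℝ) • e‖ := by fun_prop
    exact (isClosed_le h1.abs continuous_const).measurableSet.inter
      (isClosed_le h2 continuous_const).measurableSet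
  -- membership of the tube along lines
  have hline : ∀ (z : Sp d) (t : ℝ), z + t • e ∈ T ↔ |inner ℝ (z - a) e + t| ≤ 1 / 2 ∧
      ‖(z - a) - (inner ℝ (z - a) e : ℝ) • e‖ ≤ r := by
    intro z t
    have h1 : inner ℝ (z + t • e - a) e = inner ℝ (z - a) e + t := by
      rw [show z + t • e - a = (z - a) + t • e by abel, inner_add_left, real_inner_smul_left, hee,
        mul_one]
    have h2 : (z + t • e - a) - (inner ℝ (z + t • e - a) e : ℝ) • e =
        (z - a) - (inner ℝ (z - a) e : ℝ) • e := by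
      rw [h1, add_smul]
      abel
    show |inner ℝ (z + t • e - a) e| ≤ 1 / 2 ∧ ‖(z + t • e - a) - (inner ℝ (z + t • e - a) e : ℝ) • e‖ ≤ r ↔ _
    rw [h1] at h2 ⊢
    rw [h2]
  have hnum : ∫⁻ y in T, ‖(E.indicator 1 : Sp d → ℝ) y‖ₑ = volume (E ∩ T) := by
    have h1 : (fun y => ‖(E.indicator 1 : Sp d → ℝ) y‖ₑ) = E.indicator 1 := by
      funext y
      by_cases hy : y ∈ E
      · simp [hy]
      · simp [hy]
    rw [h1, lintegral_indicator_one hE, Measure.restrict_apply hE]
  rw [hnum] at ha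
  have hT0 : volume T ≠ 0 := by
    intro h
    have h1 : volume (E ∩ T) = 0 := measure_mono_null Set.inter_subset_right h
    rw [h1, ENNReal.zero_div] at ha
    exact not_lt_bot ha
  have hTtop : volume T ≠ ∞ := by
    intro h
    rw [h, ENNReal.div_top] at ha
    exact not_lt_bot ha
  -- Fubini
  set F : Sp d → ℝ≥0∞ := fun y => ∫⁻ t : ℝ, (E ∩ T).indicator 1 (y + t • e) with hF
  have hmeasET : MeasurableSet (E ∩ T) := hE.inter hTm
  have hmap : Measurable fun p : Sp d × ℝ => p.1 + p.2 • e := by fun_prop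
  have hFub : ∫⁻ y in T, F y = volume (E ∩ T) := by
    have h1 : ∫⁻ y in T, F y = ∫⁻ t : ℝ, ∫⁻ y in T, (E ∩ T).indicator 1 (y + t • e) := by
      simp only [hF]
      rw [lintegral_lintegral_swap]
      exact ((measurable_one.indicator hmeasET).comp hmap).aemeasurable
    have h2 : ∀ t : ℝ, ∫⁻ y in T, (E ∩ T).indicator (1 : Sp d → ℝ≥0∞) (y + t • e) =
        ∫⁻ z, (E ∩ T).indicator 1 z * T.indicator 1 (z + (-t) • e) := by
      intro t
      rw [← lintegral_indicator hTm]
      rw [← lintegral_add_right_eq_self (μ := (volume : Measure (Sp d)))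
        (fun z => (E ∩ T).indicator (1 : Sp d → ℝ≥0∞) z * T.indicator 1 (z + (-t) • e)) (t • e)]
      refine lintegral_congr fun y => ?_
      have h3 : y + t • e + -t • e = y := by rw [neg_smul]; abel
      rw [h3]
      by_cases hy : y ∈ T
      · simp [hy]
      · simp [hy]
    have h3 : ∫⁻ t : ℝ, ∫⁻ z, (E ∩ T).indicator (1 : Sp d → ℝ≥0∞) z * T.indicator 1 (z + (-t) • e) =
        ∫⁻ z, ∫⁻ t : ℝ, (E ∩ T).indicator (1 : Sp d → ℝ≥0∞) z * T.indicator 1 (z + (-t) • e) := by
      rw [lintegral_lintegral_swap]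
      have hmap' : Measurable fun p : ℝ × Sp d => p.2 + (-p.1) • e := by fun_prop
      exact ((((measurable_one (α := ℝ≥0∞)).indicator hmeasET).comp measurable_snd).mul
        (((measurable_one (α := ℝ≥0∞)).indicator hTm).comp hmap')).aemeasurable
    have h4 : ∀ z, ∫⁻ t : ℝ, (E ∩ T).indicator (1 : Sp d → ℝ≥0∞) z * T.indicator 1 (z + (-t) • e) =
        (E ∩ T).indicator 1 z := by
      intro z
      by_cases hz : z ∈ E ∩ T
      · simp only [Set.indicator_of_mem hz, Pi.one_apply, one_mul]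
        have hz2 : ‖(z - a) - (inner ℝ (z - a) e : ℝ) • e‖ ≤ r := by
          have := (hline z 0).1 (by simpa using hz.2)
          exact this.2
        have h5 : ∀ t : ℝ, T.indicator (1 : Sp d → ℝ≥0∞) (z + (-t) • e) =
            (Icc (inner ℝ (z - a) e - 1 / 2 : ℝ) (inner ℝ (z - a) e + 1 / 2)).indicator 1 t := by
          intro t
          have h6 : z + (-t) • e ∈ T ↔
              t ∈ Icc (inner ℝ (z - a) e - 1 / 2 : ℝ) (inner ℝ (z - a) e + 1 / 2) := by
            rw [hline, Set.mem_Icc, abs_le]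
            constructor
            · rintro ⟨⟨h1, h2⟩, _⟩
              exact ⟨by linarith, by linarith⟩
            · rintro ⟨h1, h2⟩
              exact ⟨⟨by linarith, by linarith⟩, hz2⟩
          by_cases h : z + (-t) • e ∈ T
          · rw [Set.indicator_of_mem h, Set.indicator_of_mem (h6.1 h)]
            rfl
          · rw [Set.indicator_of_notMem h, Set.indicator_of_notMem (fun h' => h (h6.2 h'))]
        rw [lintegral_congr h5, lintegral_indicator_one measurableSet_Icc, Real.volume_Icc]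
        norm_num
      · simp only [Set.indicator_of_notMem hz, zero_mul, lintegral_zero]
    rw [h1, lintegral_congr h2, h3, lintegral_congr h4, lintegral_indicator_one hmeasET]
  obtain ⟨y, hyT, hy⟩ := exists_setLAverage_le (μ := volume) (f := F) (s := T) hT0
    hTm.nullMeasurableSet (by
      rw [hFub]
      exact ((measure_mono Set.inter_subset_right).trans_lt hTtop.lt_top).ne)
  rw [setLAverage_eq, hFub] at hy
  refine ⟨y + (-(1 / 2) - inner ℝ (y - a) e : ℝ) • e, (ha.le.trans hy).trans ?_⟩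
  set t0 : ℝ := -(1 / 2) - inner ℝ (y - a) e with ht0
  have h1 : F y = volume {t : ℝ | y + t • e ∈ E ∩ T} := by
    simp only [hF]
    have h2 : MeasurableSet {t : ℝ | y + t • e ∈ E ∩ T} := by
      have : Measurable fun t : ℝ => y + t • e := by fun_prop
      exact this hmeasET
    rw [← lintegral_indicator_one h2]
    rfl
  rw [h1]
  have h3 : {t : ℝ | y + t • e ∈ E ∩ T} ⊆
      (fun t => -t0 + t) ⁻¹' {t : ℝ | t ∈ Icc (0 : ℝ) 1 ∧ y + t0 • e + t • e ∈ E} := by
    intro t ht
    have h4 := ((hline y t).1 ht.2).1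
    rw [abs_le] at h4
    refine ⟨⟨?_, ?_⟩, ?_⟩
    · rw [ht0]; linarith [h4.1]
    · rw [ht0]; linarith [h4.2]
    · have h5 : y + t0 • e + (-t0 + t) • e = y + t • e := by
        rw [add_assoc, ← add_smul]
        congr 2
        ring
      simp only
      rw [h5]
      exact ht.1
  refine (measure_mono h3).trans ?_
  rw [measure_preimage_add]

end Pool.Agent.H966R2.Kak
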